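import Pool.Agent.Lib_helper8.AQ.Base

/-!
# AQ, part NC (helper8, port of helper88's NC/Defs): near-constancy, definitions

Paths `u_0 = (1,0), u_1, ..., u_(k-1), u_k = z` over forms `q = (a,b,c)`, `a c - b² = D`, `b < 0`,
`- b / a ∈ [ρ₁, ρ₂]`.  ZIGZAG: the even vertices `(u.1, R) = 1` lie below the odd vertices `a0 ∣ u.1`;
the even ones between `(1,0)` and `z`, the odd ones between `z` and `(ρ₂, 1)`.
-/

set_option autoImplicit false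

namespace Pool.Agent.AQ.NC

open Finset Pool.Agent.PENT Pool.Agent.PENT.EQ

variable [Cst]

/-! ### parameters, the vectors -/

/-- the parameters: `X ^ e_j ≤ |u_j| ≤ X ^ (e_j + ew)` for `2 ≤ j ≤ k - 2`,
`X ^ em ≤ d_0, d_(k-1) ≤ X ^ ep`, separation `c1`, `Y = X ^ ta` -/
structure Prm (k : ℕ) where
  e : Fin (k + 1) → ℝ
  ew : ℝ
  em : ℝ
  ep : ℝ
  c1 : ℝ
  ta : ℝ

/-- `ew ≪ e_(k-2) ≪ e_even ≪ em ≪ ta ≪ ep ≪ 1`, all quotients at most `τ` -/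
structure Prm.Ok {k : ℕ} (p : Prm k) (τ : ℝ) : Prop where
  ew0 : 0 < p.ew
  ew1 : ∀ j : Fin (k + 1), 2 ≤ j.val → j.val + 2 ≤ k → p.ew ≤ τ * p.e j
  low : ∀ i j : Fin (k + 1), 2 ≤ j.val → j.val + 2 < k → Even j.val → i.val + 2 = k →
    p.e i ≤ τ * p.e j
  even : ∀ j : Fin (k + 1), 2 ≤ j.val → j.val + 2 ≤ k → Even j.val → p.e j ≤ τ * p.em
  odd : ∀ j : Fin (k + 1), 2 ≤ j.val → j.val + 2 ≤ k → ¬ Even j.val → p.e j = p.ep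
  em_ta : p.em ≤ τ * p.ta
  ta_ep : p.ta ≤ τ * p.ep
  ep1 : p.ep ≤ τ
  c10 : 0 < p.c1
  c11 : p.c1 ≤ τ

/-- the vertices of a path -/
abbrev Vec (k : ℕ) := Fin (k + 1) → ℤ × ℤ

/-- `d_(i-1) = |det (u_(i-1), u_i)|` for `1 ≤ i ≤ k`, otherwise `1` -/
def dE {k : ℕ} (u : Vec k) (i : ℕ) : ℕ :=
  if h : 1 ≤ i ∧ i ≤ k then (dt (u ⟨i - 1, by omega⟩) (u ⟨i, by omega⟩)).natAbs else 1

/-- the product of all `d_j` -/
def Dall {k : ℕ} (u : Vec k) : ℕ := ∏ i ∈ Icc 1 k, dE u i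

/-- the product of the interior `d_j`, `1 ≤ j ≤ k - 2` -/
def Dint {k : ℕ} (u : Vec k) : ℕ := ∏ i ∈ Icc 2 (k - 1), dE u i

/-- the end factors `(d_0, d_(k-1))` -/
def fE {k : ℕ} (u : Vec k) : ℕ × ℕ := (dE u 1, dE u k)

/-- `Y = X ^ ta` -/
noncomputable def Prm.Y {k : ℕ} (p : Prm k) (X : ℕ) : ℝ := (X : ℝ) ^ p.ta

/-- an admissible end factor -/
structure EF {k : ℕ} (p : Prm k) (X : ℕ) (d : ℕ) : Prop where
  dp : DP (PP X) d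
  lo : (X : ℝ) ^ p.em ≤ d
  hi : (d : ℝ) ≤ (X : ℝ) ^ p.ep
  sm : ∀ l : ℕ, l.Prime → l ∣ d → (l : ℝ) ≤ p.Y X

/-- the sign of `det (u_i, u_j)`, `i < j`: `- 1` for `i` odd and `j` even -/
def sgn (i j : ℕ) : ℝ := if ¬ Even i ∧ Even j then -1 else 1

/-- the paths of vectors -/
structure GP {k : ℕ} (p : Prm k) (X : ℕ) (u : Vec k) : Prop where
  first : u 0 = (1, 0)
  last : u (Fin.last k) = z
  pos : ∀ j : Fin (k + 1), 1 ≤ j.val → j.val + 1 ≤ k → 0 < (u j).1 ∧ 0 < (u j).2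
  low : ∀ j : Fin (k + 1), 2 ≤ j.val → j.val + 2 ≤ k → (X : ℝ) ^ p.e j ≤ (nm (u j) : ℝ)
  upp : ∀ j : Fin (k + 1), 2 ≤ j.val → j.val + 2 ≤ k →
    (nm (u j) : ℝ) ≤ (X : ℝ) ^ (p.e j + p.ew)
  /-- all vertices are in the half plane in which the forms are positive -/
  cone : ∀ j : Fin (k + 1), p.c1 * (nm (u j) : ℝ) ≤ ((u j).1 : ℝ) - ρ₂ * ((u j).2 : ℝ)
  even : ∀ j : Fin (k + 1), Even j.val → IsCoprime (u j).1 (R : ℤ)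
  odd : ∀ j : Fin (k + 1), ¬ Even j.val → a0 ∣ (u j).1
  sep : ∀ i j : Fin (k + 1), i < j →
    p.c1 * ((nm (u i) : ℝ) * (nm (u j) : ℝ)) ≤ sgn i.val j.val * (dt (u i) (u j) : ℝ)
  dp : ∀ i, 1 ≤ i → i ≤ k → DP (PP X) (dE u i)
  e1 : EF p X (dE u 1)
  e2 : EF p X (dE u k)
  cop : ∀ i j, 1 ≤ i → i < j → j ≤ k → Nat.Coprime (dE u i) (dE u j)
  nice : ∀ (j : Fin k) (l : Fin (k + 1)), l ≠ j.castSucc → l ≠ j.succ →
    Nat.Coprime (dE u (j.val + 1)) (dt (u j.castSucc) (u l)).natAbs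

open Classical in
/-- the paths as a finite set -/
noncomputable def GS {k : ℕ} (p : Prm k) (X : ℕ) : Finset (Vec k) :=
  if h : {u : Vec k | GP p X u}.Finite then h.toFinset else ∅

open Classical in
/-- the admissible pairs of end factors -/
noncomputable def Fac {k : ℕ} (p : Prm k) (X : ℕ) : Finset (ℕ × ℕ) :=
  ((Icc 1 ⌊(X : ℝ) ^ p.ep⌋₊) ×ˢ (Icc 1 ⌊(X : ℝ) ^ p.ep⌋₊)).filter
    (fun f => EF p X f.1 ∧ EF p X f.2 ∧ Nat.Coprime f.1 f.2)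

/-! ### the weights -/

/-- the value of the form `q` at `u` -/
def fv (q : ℤ × ℤ × ℤ) (u : ℤ × ℤ) : ℤ := qf q.1 q.2.1 q.2.2 u

/-- the weight of an edge -/
noncomputable def alE (k j : ℕ) : ℝ := if j = 0 ∨ j + 1 = k then 3 / 8 else 1 / 4

/-- the weight of a vertex -/
noncomputable def beV (k j : ℕ) : ℝ :=
  if j = 0 ∨ j = k then 5 / 8 else if j = 1 ∨ j + 1 = k then 1 / 8 else 1 / 4

/-- the weight of a vertex for small primes -/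
noncomputable def boV (j : ℕ) : ℝ := if Even j then 1 else 0

/-- the weight of the prime `l` in `d_j` -/
noncomputable def wdE (k : ℕ) (Y : ℝ) (j l : ℕ) : ℝ := if (l : ℝ) ≤ Y then alE k j else 1

/-- the weight of the prime `l` in `y_j` -/
noncomputable def wyV (k : ℕ) (P Y : ℝ) (j l : ℕ) : ℝ :=
  if l ∣ R then 1 else if (l : ℝ) ≤ P then boV j else if (l : ℝ) ≤ Y then beV k j else 1

/-- `y_j = Q(u_j) / (d_(j-1) d_j)` -/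
def yv {k : ℕ} (q : ℤ × ℤ × ℤ) (u : Vec k) (j : Fin (k + 1)) : ℕ :=
  (fv q (u j)).natAbs / (dE u j.val * dE u (j.val + 1))

/-- good: `d_j ∣ Q(u_j), Q(u_(j+1))` -/
def GD {k : ℕ} (q : ℤ × ℤ × ℤ) (u : Vec k) : Prop :=
  ∀ j : Fin k, (dE u (j.val + 1) : ℤ) ∣ fv q (u j.castSucc) ∧
    (dE u (j.val + 1) : ℤ) ∣ fv q (u j.succ)

/-- the weight of the `d_j` -/
noncomputable def alw {k : ℕ} (p : Prm k) (X : ℕ) (u : Vec k) : ℝ :=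
  ∏ j : Fin k, cm (wdE k (p.Y X) j.val) (dE u (j.val + 1))

/-- the weight of the `y_j` -/
noncomputable def yw {k : ℕ} (p : Prm k) (X : ℕ) (q : ℤ × ℤ × ℤ) (u : Vec k) : ℝ :=
  ∏ j : Fin (k + 1), cm (wyV k (PP X) (p.Y X) j.val) (yv q u j)

open Classical in
/-- the weight of the path `u` over the form `q` (zero if it is not good) -/
noncomputable def W {k : ℕ} (p : Prm k) (X : ℕ) (q : ℤ × ℤ × ℤ) (u : Vec k) : ℝ :=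
  if GD q u then alw p X u * yw p X q u else 0

open Classical in
/-- the end weight -/
noncomputable def wend {k : ℕ} (p : Prm k) (X : ℕ) (q : ℤ × ℤ × ℤ) (f : ℕ × ℕ) : ℝ :=
  if (f.1 : ℤ) ∣ q.1 ∧ (f.2 : ℤ) ∣ fv q z then
    cm (wdE k (p.Y X) 0) f.1 * cm (wdE k (p.Y X) 0) f.2 *
      (cm (wyV k (PP X) (p.Y X) 0) (q.1.natAbs / f.1) *
        cm (wyV k (PP X) (p.Y X) 0) ((fv q z).natAbs / f.2))
  else 0

/-- `a(q)` -/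
noncomputable def av {k : ℕ} (p : Prm k) (X : ℕ) (q : ℤ × ℤ × ℤ) : ℝ :=
  ∑ f ∈ Fac p X, wend p X q f

/-! ### the local factors -/

open Classical in
/-- the split primes in `(P00, Y]` -/
noncomputable def Spr (P00 : ℕ) (Y : ℝ) : Finset ℕ :=
  (Ioc P00 ⌊Y⌋₊).filter (fun l => Sp l)

open Classical in
/-- the product of the split primes `l ≤ P00` -/
noncomputable def R0 (P00 : ℕ) : ℕ := ∏ l ∈ (Icc 1 P00).filter (fun l => Sp l), l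

/-- a product `∏ b_i ^ [l ∣ q(v_i)]` -/
noncomputable def PW {ι : Type} (s : Finset ι) (v : ι → ℤ × ℤ) (b : ι → ℝ) (l : ℕ)
    (q : ℤ × ℤ × ℤ) : ℝ := ∏ i ∈ s, if (l : ℤ) ∣ fv q (v i) then b i else 1

/-- the interior vertices -/
def ivx (k : ℕ) : Finset (Fin (k + 1)) := univ.filter (fun j => 1 ≤ j.val ∧ j.val + 1 ≤ k)

/-- the interior local factor `I_l` -/
noncomputable def Iv {k : ℕ} (p : Prm k) (X : ℕ) (u : Vec k) (l : ℕ) : ℤ × ℤ × ℤ → ℝ :=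
  PW (ivx k) u (fun j => wyV k (PP X) (p.Y X) j.val l) l

/-- the end local factor -/
noncomputable def Ev {k : ℕ} (p : Prm k) (X : ℕ) (l : ℕ) : ℤ × ℤ × ℤ → ℝ :=
  PW (univ : Finset Bool) (fun i => if i then ((1, 0) : ℤ × ℤ) else z)
    (fun _ => wyV k (PP X) (p.Y X) 0 l) l

open Classical in
/-- no odd vertex is isotropic modulo a split prime `l ≤ P00` -/
noncomputable def okf {k : ℕ} (P00 : ℕ) (u : Vec k) (q : ℤ × ℤ × ℤ) : ℝ :=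
  if ∀ l : ℕ, Sp l → l ≤ P00 → ∀ j : Fin (k + 1), ¬ Even j.val →
    ¬ (l : ℤ) ∣ fv q (u j) then 1 else 0

/-- the part of `g` at the primes of the interior `d_j` -/
noncomputable def gD {k : ℕ} (p : Prm k) (X : ℕ) (u : Vec k) : ℝ :=
  ∏ l ∈ (Dint u).primeFactors, 2 / ((l : ℝ) + 1) * (if (l : ℝ) ≤ p.Y X then 1 / 4 else 1)

/-- the part of `g` at the other primes -/
noncomputable def gS {k : ℕ} (p : Prm k) (X P00 : ℕ) (u : Vec k) : ℝ :=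
  ∏ l ∈ (Spr P00 (p.Y X)).filter (fun l => ¬ l ∣ Dall u), MV l (Iv p X u l)

/-- `g(u; q)` -/
noncomputable def gk {k : ℕ} (p : Prm k) (X P00 : ℕ) (q : ℤ × ℤ × ℤ) (u : Vec k) : ℝ :=
  okf P00 u q * (gD p X u * gS p X P00 u)

/-- `M'(f; q)` -/
noncomputable def Mp {k : ℕ} (p : Prm k) (X P00 : ℕ) (q : ℤ × ℤ × ℤ) (f : ℕ × ℕ) : ℝ :=
  ∑ u ∈ (GS p X).filter (fun u => fE u = f), gk p X P00 q u

/-- `F_u(q)` -/
noncomputable def Fn {k : ℕ} (p : Prm k) (X P00 : ℕ) (q : ℤ × ℤ × ℤ) (u : Vec k) : ℝ :=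
  W p X q u / Mp p X P00 q (fE u)

/-- `G_u(q)` -/
noncomputable def Gn {k : ℕ} (p : Prm k) (X P00 : ℕ) (q : ℤ × ℤ × ℤ) (u : Vec k) : ℝ :=
  wend p X q (fE u) * gk p X P00 q u / Mp p X P00 q (fE u)

open Classical in
/-- the line of the edge which contains the prime `l` -/
noncomputable def Lv {k : ℕ} (u : Vec k) (l : ℕ) : ℤ × ℤ :=
  if h : ∃ j : Fin k, l ∣ dE u (j.val + 1) then u h.choose.castSucc else (1, 0)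

open Classical in
/-- the local factor of `W(q,u)` at `l` (without multiplicities) -/
noncomputable def Lf {k : ℕ} (p : Prm k) (X : ℕ) (u : Vec k) (l : ℕ) (q : ℤ × ℤ × ℤ) : ℝ :=
  (if l ∣ Dall u → (l : ℤ) ∣ fv q (Lv u l) then 1 else 0) *
    (∏ j : Fin k, if l ∣ dE u (j.val + 1) then wdE k (p.Y X) j.val l else 1) *
    ∏ j : Fin (k + 1), if l ∣ dE u j.val * dE u (j.val + 1) then 1
      else if (l : ℤ) ∣ fv q (u j) then wyV k (PP X) (p.Y X) j.val l else 1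

/-- the factor of one end at `l` -/
noncomputable def E1 (k : ℕ) (P Y : ℝ) (d l : ℕ) (a : ℤ) : ℝ :=
  if l ∣ d then (if (l : ℤ) ∣ a then wdE k Y 0 l else 0)
  else if (l : ℤ) ∣ a then wyV k P Y 0 l else 1

/-- the local factor of the end weight at `l` (without multiplicities) -/
noncomputable def Ef {k : ℕ} (p : Prm k) (X : ℕ) (f : ℕ × ℕ) (l : ℕ) (q : ℤ × ℤ × ℤ) : ℝ :=
  E1 k (PP X) (p.Y X) f.1 l q.1 * E1 k (PP X) (p.Y X) f.2 l (fv q z)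

/-- the local factor of `g(u)` at `l` -/
noncomputable def gl {k : ℕ} (p : Prm k) (X : ℕ) (u : Vec k) (l : ℕ) : ℝ :=
  if l ∣ Dint u then 2 / ((l : ℝ) + 1) * (if (l : ℝ) ≤ p.Y X then 1 / 4 else 1)
  else if l ∣ Dall u then 1 else MV l (Iv p X u l)

/-- all primes of a pair -/
noncomputable def Sall {k : ℕ} (p : Prm k) (X P00 : ℕ) (u u' : Vec k) : Finset ℕ :=
  Spr P00 (p.Y X) ∪ (Dall u * Dall u').primeFactors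

/-- the function modulo `R0` of a pair, normalised to `[0, 1]` -/
noncomputable def kap {k : ℕ} (p : Prm k) (X P00 : ℕ) (m : ℝ) (u u' : Vec k)
    (q : ℤ × ℤ × ℤ) : ℝ :=
  min 1 (m ^ 2 * (okf P00 u q * okf P00 u' q / (Mp p X P00 q (fE u) * Mp p X P00 q (fE u'))))

/-- the local product of the main term -/
noncomputable def GLo {k : ℕ} (p : Prm k) (X : ℕ) (u u' : Vec k) (l : ℕ) : ℝ :=
  MV l (fun q => Ef p X (fE u) l q * Ef p X (fE u') l q) * (gl p X u l * gl p X u' l)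

/-- the main term of the pair -/
noncomputable def GM {k : ℕ} (p : Prm k) (X P00 : ℕ) (m : ℝ) (O : Finset (ℤ × ℤ × ℤ))
    (u u' : Vec k) : ℝ :=
  (O.card : ℝ) * MV (R0 P00) (kap p X P00 m u u') * ∏ l ∈ Sall p X P00 u u', GLo p X u u' l

/-- `l` is a coincidence of the pair: two of the relevant lines modulo `l` agree -/
def Co {k : ℕ} (u u' : Vec k) (l : ℕ) : Prop :=
  (∃ i : Fin (k + 1), 2 ≤ i.val ∧ i.val + 1 ≤ k ∧ ((l : ℤ) ∣ (u i).2 ∨ (l : ℤ) ∣ (u' i).2)) ∨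
  (∃ i : Fin (k + 1), 1 ≤ i.val ∧ i.val + 2 ≤ k ∧
    ((l : ℤ) ∣ dt (u i) z ∨ (l : ℤ) ∣ dt (u' i) z)) ∨
  (∃ i j : Fin (k + 1), 1 ≤ i.val ∧ i.val + 1 ≤ k ∧ 1 ≤ j.val ∧ j.val + 1 ≤ k ∧
    (l : ℤ) ∣ dt (u i) (u' j))

open Classical in
/-- the local error -/
noncomputable def tl {k : ℕ} (C : ℝ) (u u' : Vec k) (l : ℕ) : ℝ :=
  C / (l : ℝ) ^ 2 + if l ∣ Dall u * Dall u' ∨ Co u u' l then C / (l : ℝ) else 0

/-- `1 + Ξ` -/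
noncomputable def Xi {k : ℕ} (p : Prm k) (X P00 : ℕ) (C : ℝ) (u u' : Vec k) : ℝ :=
  ∏ l ∈ Sall p X P00 u u', (1 + tl C u u' l)

/-- a prime of the ends of `u` divides `det((1,0), u'_j)` or `det(u'_j, z)` for a vertex of `u'`, or the
other end of `u'` -/
def EC {k : ℕ} (X : ℕ) (u u' : Vec k) : Prop :=
  (∃ l : ℕ, l.Prime ∧ PP X < (l : ℝ) ∧ l ∣ dE u 1 * dE u k ∧ ¬ l ∣ Dall u' ∧
    ∃ j : Fin (k + 1), 1 ≤ j.val ∧ j.val + 1 ≤ k ∧ (l : ℤ) ∣ (u' j).2 * dt (u' j) z) ∨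
  (∃ l : ℕ, l.Prime ∧ PP X < (l : ℝ) ∧ ((l ∣ dE u 1 ∧ l ∣ dE u' k) ∨ (l ∣ dE u k ∧ l ∣ dE u' 1)))

/-- a square event: `l² ∣ q(u_j)` for a prime `l` in `(P, Y]` -/
def Ev2 {k : ℕ} (p : Prm k) (X : ℕ) (u : Vec k) (q : ℤ × ℤ × ℤ) : Prop :=
  ∃ l : ℕ, Sp l ∧ PP X < (l : ℝ) ∧ (l : ℝ) ≤ p.Y X ∧
    ∃ j : Fin (k + 1), ((l : ℤ) ^ 2) ∣ fv q (u j)

/-- `m = k/2 + 1` -/
noncomputable def mE (k : ℕ) : ℝ := (k : ℝ) / 2 + 1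

open Classical in
/-- the typical part of `F_u(q)`: `W ≤ (log X)^(-m - 1/2)` -/
noncomputable def Ft {k : ℕ} (p : Prm k) (X P00 : ℕ) (q : ℤ × ℤ × ℤ) (u : Vec k) : ℝ :=
  if W p X q u ≤ Real.log X ^ (-mE k - 1 / 2) then Fn p X P00 q u else 0

/-- the pairs without common primes (except common primes of the ends) -/
def C0 {k : ℕ} (u u' : Vec k) : Prop :=
  Nat.Coprime (Dint u) (Dall u') ∧ Nat.Coprime (Dall u) (Dint u')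

open Classical in
/-- the forms with `X < a ≤ C1 X`, `ρ₁ a ≤ - b ≤ ρ₂ a`, `b = b0` modulo `a0`, `a0 ∣ c`, `(a, R) = 1` -/
noncomputable def AW (C1 : ℝ) (X : ℕ) : Finset (ℤ × ℤ × ℤ) :=
  ((Ioc (X : ℤ) ⌊C1 * X⌋) ×ˢ (Icc (-⌊ρ₂ * C1 * X⌋) (-1 : ℤ)) ×ˢ
    (Icc (1 : ℤ) ⌊(ρ₂ ^ 2 * C1 + |(D : ℝ)|) * X⌋)).filter
    (fun q => q.1 * q.2.2 - q.2.1 ^ 2 = D ∧ ρ₁ * (q.1 : ℝ) ≤ -(q.2.1 : ℝ) ∧
      -(q.2.1 : ℝ) ≤ ρ₂ * (q.1 : ℝ) ∧ a0 ∣ q.2.1 - b0 ∧ a0 ∣ q.2.2 ∧ IsCoprime q.1 (R : ℤ))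

/-- the number `n_j` -/
def nj {k : ℕ} (q : ℤ × ℤ × ℤ) (u : Vec k) (j : Fin k) : ℕ :=
  (bf q.1 q.2.1 q.2.2 (u j.castSucc) (u j.succ) / dt (u j.castSucc) (u j.succ)).natAbs

/-! ### the inputs -/

/-- (LB): `M'(f; q)` from below -/
def LB {k : ℕ} (p : Prm k) : Prop := ∃ c C₂ : ℝ, 0 < c ∧ 0 ≤ C₂ ∧ ∀ P00 : ℕ, pB k ≤ P00 →
  ∃ X₀ : ℕ, ∀ X ≥ X₀, ∀ f ∈ Fac p X, ∀ q : ℤ × ℤ × ℤ, q.1 * q.2.2 - q.2.1 ^ 2 = D →
    c * Real.log P00 ^ (-C₂) * Real.log X ^ (-mE k) ≤ Mp p X P00 q f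

/-- (UB): one vertex on a line modulo `l` -/
def UB {k : ℕ} (p : Prm k) : Prop := ∃ C C₂ : ℝ, 0 < C ∧ 0 ≤ C₂ ∧ ∀ P00 : ℕ, pB k ≤ P00 →
  ∃ X₀ : ℕ, ∀ X ≥ X₀, ∀ f ∈ Fac p X, ∀ q : ℤ × ℤ × ℤ, q.1 * q.2.2 - q.2.1 ^ 2 = D →
    ∀ l : ℕ, l.Prime → P00 < l → (l : ℝ) ≤ Real.log X ^ 2 → ∀ i : Fin (k + 1), 1 ≤ i.val →
    i.val + 1 ≤ k → ∀ v : ℤ × ℤ, ¬ ((l : ℤ) ∣ v.1 ∧ (l : ℤ) ∣ v.2) →
    ∑ u ∈ (GS p X).filter (fun u => fE u = f ∧ (l : ℤ) ∣ dt v (u i)), gk p X P00 q u ≤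
      C * Real.log P00 ^ C₂ / l * Real.log X ^ (-mE k)

open Classical in
/-- (UB'): a prime `l > P` divides an interior `d_j`, or (if it does not divide an end) `det(u_0, u_j)` or
`det(u_j, z)` -/
def UB1 {k : ℕ} (p : Prm k) : Prop := ∃ C c : ℝ, 0 < c ∧ ∀ P00 : ℕ, pB k ≤ P00 →
  ∃ X₀ : ℕ, ∀ X ≥ X₀, ∀ f ∈ Fac p X, ∀ q : ℤ × ℤ × ℤ, q.1 * q.2.2 - q.2.1 ^ 2 = D →
    ∀ l : ℕ, l.Prime → PP X < (l : ℝ) →
    ∑ u ∈ (GS p X).filter (fun u => fE u = f ∧ (l ∣ Dint u ∨ (¬ l ∣ f.1 * f.2 ∧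
        ∃ j : Fin (k + 1), 1 ≤ j.val ∧ j.val + 1 ≤ k ∧ (l : ℤ) ∣ (u j).2 * dt (u j) z))),
      gk p X P00 q u ≤ Real.log X ^ C * (1 / l + (X : ℝ) ^ (-c))

/-- (UB''): one vertex is given -/
def UB2 {k : ℕ} (p : Prm k) : Prop := ∃ c : ℝ, 0 < c ∧ ∀ P00 : ℕ, pB k ≤ P00 →
  ∃ X₀ : ℕ, ∀ X ≥ X₀, ∀ f ∈ Fac p X, ∀ q : ℤ × ℤ × ℤ, q.1 * q.2.2 - q.2.1 ^ 2 = D →
    ∀ i : Fin (k + 1), 1 ≤ i.val → i.val + 1 ≤ k → ∀ v : ℤ × ℤ,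
    ∑ u ∈ (GS p X).filter (fun u => fE u = f ∧ u i = v), gk p X P00 q u ≤ (X : ℝ) ^ (-c)

/-- (DG): the sums of `w` and of `w ^ (1 + η)` -/
def DG {k : ℕ} (p : Prm k) (C1 : ℝ) : Prop := ∃ (C η : ℝ), 0 < η ∧ η ≤ 1 ∧ ∃ X₀ : ℕ, ∀ X ≥ X₀,
  ∑ q ∈ AW C1 X, ∑ u ∈ GS p X, W p X q u ≤ C * X * Real.log X ^ (-mE k) ∧
  ∑ q ∈ AW C1 X, ∑ u ∈ GS p X, W p X q u ^ (1 + η) ≤
    C * X * Real.log X ^ (-mE k * (1 + η) - 3 / 4 * η)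

open Classical in
/-- (NEG): the pairs over the same form with a common interior prime -/
def NEG {k : ℕ} (p : Prm k) (C1 : ℝ) : Prop := ∃ X₀ : ℕ, ∀ X ≥ X₀,
  ∑ q ∈ AW C1 X, ∑ u ∈ GS p X, ∑ u' ∈ (GS p X).filter (fun u' => u' ≠ u ∧ ¬ C0 u u'),
    W p X q u * W p X q u' ≤ X * Real.log X ^ (-2 * mE k - 1)

/-- (MAR): the marginals -/
def MAR {k : ℕ} (p : Prm k) (C1 : ℝ) : Prop := ∃ (C η : ℝ), 0 < η ∧ ∃ X₀ : ℕ, ∀ X ≥ X₀,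
  ∀ (j : Fin k) (E : Finset ℕ),
    ∑ n ∈ E, (∑ q ∈ AW C1 X, ∑ u ∈ (GS p X).filter (fun u => nj q u j = n), W p X q u) ^ (1 + η) ≤
      C * X * Real.log X ^ (-mE k * (1 + η))

/-- the matrices `(α, β; γ, δ)` of the box `(i n, (i+1) n] × (j n, (j+1) n] × (l n, (l+1) n]` with
`(α, R) = 1` and `β = b0 δ` modulo `a0` (`w = (α, γ)` is a unit modulo `J`, `e = (β, δ) ∈ J`) -/
noncomputable def Bx (i : ℕ) (j l : ℤ) (n : ℕ) : Finset (ℤ × ℤ × ℤ) :=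
  (EBox (i * n) ((i + 1) * n) (j * n) ((j + 1) * n) (l * n) ((l + 1) * n)).filter
    (fun t => Int.gcd t.1 (R : ℤ) = 1 ∧ (emat t).2.1 % a0 = b0 * (emat t).2.2.2 % a0)

/-- the forms of the box -/
noncomputable def BO (i : ℕ) (j l : ℤ) (n : ℕ) : Finset (ℤ × ℤ × ℤ) :=
  (Bx i j l n).image (fun t => QQ (emat t))

/-- the admissible boxes: on the closed box `α² + D γ² > 1` and `- β / α ∈ (ρ₁, ρ₂)` strictly -/
structure BxOk (i : ℕ) (j l : ℤ) : Prop where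
  i2 : 2 ≤ i
  pos : ∀ g : ℝ, (l : ℝ) ≤ g → g ≤ (l : ℝ) + 1 → 1 < (i : ℝ) ^ 2 + (D : ℝ) * g ^ 2
  lo : ρ₁ * ((i : ℝ) + 1) < -((j : ℝ) + 1)
  hi : -(j : ℝ) < ρ₂ * (i : ℝ)

/-- (COV): the forms of a box, `X = n²`: contained in `AW C1 X` and equidistributed -/
def COV (i : ℕ) (j l : ℤ) (C1 : ℝ) : Prop := ∃ (c : ℝ) (n₀ : ℕ), 0 < c ∧ c ≤ 1 / 100 ∧ ∀ n ≥ n₀,
  BO i j l n ⊆ AW C1 (n ^ 2) ∧ ((BO i j l n).card : ℝ) ≤ C1 * (n : ℝ) ^ 2 ∧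
    EqFam (BO i j l n) (fun v => v) (((n ^ 2 : ℕ) : ℝ) ^ c) (((n ^ 2 : ℕ) : ℝ) ^ (1 - c))

/-! ### the interfaces between the blocks -/

/-- the local comparisons with the constant `C` -/
structure Loc (k : ℕ) (C : ℝ) : Prop where
  pos : 0 < C
  g01 : ∀ (p : Prm k) (X P00 : ℕ), pB k ≤ P00 → (P00 : ℝ) ≤ PP X →
    ∀ u u' : Vec k, GP p X u → GP p X u' → C0 u u' → ∀ l ∈ Sall p X P00 u u',
      0 < GLo p X u u' l ∧ GLo p X u u' l ≤ 1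
  ff : ∀ (p : Prm k) (X P00 : ℕ), pB k ≤ P00 → (P00 : ℝ) ≤ PP X →
    ∀ u u' : Vec k, GP p X u → GP p X u' → C0 u u' → ∀ l ∈ Sall p X P00 u u',
      MV l (fun q => Lf p X u l q * Lf p X u' l q) ≤ (1 + tl C u u' l) * GLo p X u u' l
  fg : ∀ (p : Prm k) (X P00 : ℕ), pB k ≤ P00 → (P00 : ℝ) ≤ PP X →
    ∀ u u' : Vec k, GP p X u → GP p X u' → C0 u u' → ¬ EC X u' u → ¬ EC X u u' →
    ∀ l ∈ Sall p X P00 u u', (1 - tl C u u' l) * GLo p X u u' l ≤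
        MV l (fun q => Lf p X u l q * Ef p X (fE u') l q) * gl p X u' l
  sg : ∀ (p : Prm k) (X P00 : ℕ), pB k ≤ P00 → (P00 : ℝ) ≤ PP X →
    ∀ u u' : Vec k, GP p X u → GP p X u' → C0 u u' → ∀ l ∈ Sall p X P00 u u',
    l ∣ Dall u * Dall u' → ∀ v : ℤ × ℤ, v = (1, 0) ∨ v = z →
        MV (l ^ 2) (fun q => Ef p X (fE u) l q * Ef p X (fE u') l q *
          (if ((l : ℤ) ^ 2) ∣ fv q v then 1 else 0)) ≤
        C / l * MV l (fun q => Ef p X (fE u) l q * Ef p X (fE u') l q)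
  sf : ∀ (p : Prm k) (X P00 : ℕ), pB k ≤ P00 → (P00 : ℝ) ≤ PP X →
    ∀ u u' : Vec k, GP p X u → GP p X u' → C0 u u' → ¬ EC X u' u → ¬ EC X u u' →
    ∀ l ∈ Sall p X P00 u u', l ∣ Dall u * Dall u' → ∀ j : Fin (k + 1),
        MV (l ^ 2) (fun q => Lf p X u l q * Ef p X (fE u') l q *
          (if ((l : ℤ) ^ 2) ∣ fv q (u j) then 1 else 0)) ≤
        C / l * MV l (fun q => Lf p X u l q * Ef p X (fE u') l q)

/-- the situation of the sums over the forms -/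
structure Sit {k : ℕ} (p : Prm k) (X P00 : ℕ) (m c : ℝ) (O : Finset (ℤ × ℤ × ℤ)) : Prop where
  hP : pB k ≤ P00
  hPP : (P00 : ℝ) ≤ PP X
  m0 : 0 < m
  hM : ∀ f ∈ Fac p X, ∀ q : ℤ × ℤ × ℤ, q.1 * q.2.2 - q.2.1 ^ 2 = D → m ≤ Mp p X P00 q f
  disc : ∀ q ∈ O, q.1 * q.2.2 - q.2.1 ^ 2 = D
  av : ∀ q ∈ O, 0 < q.1 ∧ 0 < fv q z
  eq : EqFam O (fun v => v) ((X : ℝ) ^ c) ((X : ℝ) ^ (1 - c))

end Pool.Agent.AQ.NC
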