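import Pool.Agent.Lib_helper8.AQ.Path

/-!
# AQ: the covering families of a box from near-constancy and the marginals (helper8; port of helper97's
PATH/FromNC)
-/

set_option autoImplicit false

namespace Pool.Agent.AQ.NC

open Finset Pool.Agent.PENT Pool.Agent.PENT.EQ
open Pool.Agent.PATH (Pth)

variable [Cst] {k : ℕ}

/-- near-constancy over the forms of a box -/
def NCst (p : Prm k) (P00 : ℕ) (C1 : ℝ) (i : ℕ) (j l : ℤ) (δ : ℝ) : Prop := ∃ n₀ : ℕ, ∀ n ≥ n₀,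
  BO i j l n ⊆ AW C1 (n ^ 2) ∧ (∀ q ∈ BO i j l n, av p (n ^ 2) q ≤ 1) ∧
    ∑ q ∈ BO i j l n, (∑ u ∈ GS p (n ^ 2), Ft p (n ^ 2) P00 q u - av p (n ^ 2) q) ^ 2 ≤
      δ * ((n ^ 2 : ℕ) : ℝ) ∧
    ∑ q ∈ BO i j l n, (1 - av p (n ^ 2) q) ≤ δ * ((n ^ 2 : ℕ) : ℝ)

theorem fn_cm_nonneg {g : ℕ → ℝ} (hg : ∀ l, 0 ≤ g l) (m : ℕ) : 0 ≤ cm g m := by
  unfold cm
  exact Finset.prod_nonneg fun l _ => pow_nonneg (hg l) _

theorem fn_W_nonneg (p : Prm k) (X : ℕ) (q : ℤ × ℤ × ℤ) (u : Vec k) : 0 ≤ W p X q u := by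
  unfold W
  split_ifs
  · apply mul_nonneg
    · apply Finset.prod_nonneg
      intro j _
      apply fn_cm_nonneg
      intro l
      unfold wdE alE
      split_ifs <;> norm_num
    · apply Finset.prod_nonneg
      intro j _
      apply fn_cm_nonneg
      intro l
      unfold wyV beV boV
      split_ifs <;> norm_num
  · exact le_rfl

theorem fn_mem {p : Prm k} {X : ℕ} {u : Vec k} (h : u ∈ GS p X) : GP p X u := by
  unfold GS at h
  split_ifs at h with h1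
  · simpa using h
  · simp at h

theorem fn_coord {p : Prm k} {X : ℕ} {u : Vec k} (hu : GP p X u) (j : Fin (k + 1)) :
    0 ≤ (u j).1 ∧ 0 ≤ (u j).2 ∧ 1 ≤ nm (u j) := by
  unfold nm
  by_cases h0 : j = 0
  · rw [h0, hu.first]; norm_num
  · by_cases h1 : j = Fin.last k
    · rw [h1, hu.last]
      have a1 := z1_pos
      have a2 := z_two
      omega
    · have a0 : 1 ≤ j.val := by
        have : j.val ≠ 0 := fun h => h0 (Fin.ext h)
        omega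
      have a1 : j.val + 1 ≤ k := by
        have h2 := j.2
        have : j.val ≠ k := fun h => h1 (Fin.ext h)
        omega
      obtain ⟨b1, b2⟩ := hu.pos j a0 a1
      omega

/-- the sign of the determinant -/
theorem fn_dt_pos {p : Prm k} (hc : 0 < p.c1) {X : ℕ} {u : Vec k} (hu : GP p X u)
    {i j : Fin (k + 1)} (hij : i < j) : 0 < sgn i.val j.val * (dt (u i) (u j) : ℝ) := by
  have h1 := hu.sep i j hij
  have h2 : (1 : ℝ) ≤ (nm (u i) : ℝ) := by exact_mod_cast (fn_coord hu i).2.2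
  have h3 : (1 : ℝ) ≤ (nm (u j) : ℝ) := by exact_mod_cast (fn_coord hu j).2.2
  refine lt_of_lt_of_le ?_ h1
  positivity

theorem fn_dt_ne {p : Prm k} (hc : 0 < p.c1) {X : ℕ} {u : Vec k} (hu : GP p X u)
    {i j : Fin (k + 1)} (hij : i < j) : dt (u i) (u j) ≠ 0 := by
  intro h
  have := fn_dt_pos hc hu hij
  rw [h] at this
  simp at this

theorem fn_dE {u : Vec k} (j : Fin k) :
    dE u (j.val + 1) = (dt (u j.castSucc) (u j.succ)).natAbs := by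
  unfold dE
  rw [dif_pos ⟨by omega, by omega⟩]
  rfl

theorem fn_fE {p : Prm k} {X : ℕ} (hX : 1 ≤ X) (hk : 2 ≤ k) {u : Vec k} (hu : GP p X u) :
    fE u ∈ Fac p X := by
  classical
  have key : ∀ d : ℕ, EF p X d → d ∈ Icc 1 ⌊(X : ℝ) ^ p.ep⌋₊ := by
    intro d hd
    rw [mem_Icc]
    refine ⟨?_, Nat.le_floor hd.hi⟩
    have h1 : (0 : ℝ) < (X : ℝ) ^ p.em := Real.rpow_pos_of_pos (by exact_mod_cast hX) _
    have h2 : (0 : ℝ) < d := lt_of_lt_of_le h1 hd.lo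
    exact_mod_cast h2
  unfold Fac fE
  rw [mem_filter, mem_product]
  exact ⟨⟨key _ hu.e1, key _ hu.e2⟩, hu.e1, hu.e2, hu.cop 1 k le_rfl (by omega) le_rfl⟩

/-- `d_j` is prime to `R` -/
theorem fn_dp_cop {P : ℝ} {d : ℕ} (h : DP P d) : Nat.Coprime d R := by
  rw [Nat.coprime_iff_gcd_eq_one]
  by_contra hc
  obtain ⟨p, hp, hpd⟩ := Nat.exists_prime_and_dvd hc
  have h1 := hpd.trans (Nat.gcd_dvd_left _ _)
  have h2 := hpd.trans (Nat.gcd_dvd_right _ _)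
  exact (h.2 p hp h1).1.2.1 h2

theorem fn_dt_cop {p : Prm k} {X : ℕ} {u : Vec k} (hu : GP p X u) (j : Fin k) :
    IsCoprime (dt (u j.castSucc) (u j.succ)) (R : ℤ) := by
  have h1 := fn_dp_cop (hu.dp (j.val + 1) (by omega) (by omega))
  rw [fn_dE] at h1
  rw [Int.isCoprime_iff_gcd_eq_one]
  unfold Int.gcd
  rw [Int.natAbs_natCast]
  exact h1

/-- the path -/
def mkP (q : ℤ × ℤ × ℤ) (u : Vec k) : Pth k := ⟨q.1, q.2.1, q.2.2, u⟩

theorem mkP_inj {q q' : ℤ × ℤ × ℤ} {u u' : Vec k} (h : mkP q u = mkP q' u') :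
    q = q' ∧ u = u' := by
  unfold mkP at h
  rw [Pth.mk.injEq] at h
  obtain ⟨h1, h2, h3, h4⟩ := h
  exact ⟨Prod.ext h1 (Prod.ext h2 h3), h4⟩

theorem mkP_n (q : ℤ × ℤ × ℤ) (u : Vec k) (j : Fin k) : (mkP q u).n j = nj q u j := rfl

theorem mkP_frm (q : ℤ × ℤ × ℤ) (u : Vec k) : frm (mkP q u) = q := rfl

theorem fn_AW {C1 : ℝ} {X : ℕ} {q : ℤ × ℤ × ℤ} (h : q ∈ AW C1 X) :
    q.1 * q.2.2 - q.2.1 ^ 2 = D ∧ 0 < q.1 ∧ q.2.1 < 0 ∧ 0 < q.2.2 ∧ (X : ℤ) < q.1 ∧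
      (q.1 : ℝ) ≤ C1 * X ∧ ρ₁ * (q.1 : ℝ) ≤ -(q.2.1 : ℝ) ∧ -(q.2.1 : ℝ) ≤ ρ₂ * (q.1 : ℝ) ∧
      a0 ∣ q.2.1 - b0 ∧ a0 ∣ q.2.2 ∧ IsCoprime q.1 (R : ℤ) := by
  unfold AW at h
  rw [mem_filter, mem_product, mem_product, mem_Ioc, mem_Icc, mem_Icc] at h
  obtain ⟨⟨⟨a1, a2⟩, ⟨b1, b2⟩, c1, c2⟩, d1, d2, d3, d4, d5, d6⟩ := h
  have hX : (0 : ℤ) ≤ X := Int.natCast_nonneg X
  exact ⟨d1, by omega, by omega, by omega, a1, Int.le_floor.1 a2, d2, d3, d4, d5, d6⟩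

theorem fn_good {p : Prm k} (hc : 0 < p.c1) {X : ℕ} {u : Vec k} (hu : GP p X u)
    {q : ℤ × ℤ × ℤ} (hq : q.1 * q.2.2 - q.2.1 ^ 2 = D) (hg : GD q u) : Good (mkP q u) where
  disc := hq
  ne := fun j => fn_dt_ne hc hu (Fin.castSucc_lt_succ)
  d1 := fun j => by
    have h1 := (hg j).1
    rw [fn_dE, Int.natAbs_dvd] at h1
    exact h1
  d2 := fun j => by
    have h1 := (hg j).2
    rw [fn_dE, Int.natAbs_dvd] at h1
    exact h1

/-- the value `B(v, w)` of two vectors in the cone -/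
theorem fn_bf {c1 : ℝ} (hc : 0 < c1) {C1 : ℝ} {X : ℕ}
    (hX : 2 * |(D : ℝ)| < c1 ^ 2 * X) (hX1 : |(D : ℝ)| ≤ X) {q : ℤ × ℤ × ℤ}
    (hq : q ∈ AW C1 X) {v w : ℤ × ℤ} (v1 : 0 ≤ v.1) (v2 : 0 ≤ v.2) (w1 : 0 ≤ w.1) (w2 : 0 ≤ w.2)
    (hv : 1 ≤ nm v) (hw : 1 ≤ nm w) (hcv : c1 * (nm v : ℝ) ≤ (v.1 : ℝ) - ρ₂ * (v.2 : ℝ))
    (hcw : c1 * (nm w : ℝ) ≤ (w.1 : ℝ) - ρ₂ * (w.2 : ℝ)) :
    0 < bf q.1 q.2.1 q.2.2 v w ∧
      (bf q.1 q.2.1 q.2.2 v w : ℝ) ≤ (C1 + 1) * X * ((nm v : ℝ) * (nm w : ℝ)) := by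
  obtain ⟨hd, ha, hb, hcc, hXa, a2, b1, b2, _⟩ := fn_AW hq
  have hXpos : (0 : ℝ) < X := by
    have h1 : 0 ≤ |(D : ℝ)| := abs_nonneg _
    have h2 : 0 < c1 ^ 2 * (X : ℝ) := lt_of_le_of_lt (by positivity) hX
    exact pos_of_mul_pos_right h2 (by positivity)
  have haR : (0 : ℝ) < (q.1 : ℝ) := by exact_mod_cast ha
  have hXaR : (X : ℝ) < (q.1 : ℝ) := by exact_mod_cast hXa
  have V1 : (0 : ℝ) ≤ (v.1 : ℝ) := by exact_mod_cast v1
  have V2 : (0 : ℝ) ≤ (v.2 : ℝ) := by exact_mod_cast v2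
  have W1 : (0 : ℝ) ≤ (w.1 : ℝ) := by exact_mod_cast w1
  have W2 : (0 : ℝ) ≤ (w.2 : ℝ) := by exact_mod_cast w2
  have hvR : (1 : ℝ) ≤ (nm v : ℝ) := by exact_mod_cast hv
  have hwR : (1 : ℝ) ≤ (nm w : ℝ) := by exact_mod_cast hw
  have hv1 : (v.1 : ℝ) ≤ (nm v : ℝ) := by
    have : v.1 ≤ nm v := by unfold nm; omega
    exact_mod_cast this
  have hv2 : (v.2 : ℝ) ≤ (nm v : ℝ) := by
    have : v.2 ≤ nm v := by unfold nm; omega
    exact_mod_cast this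
  have hw1 : (w.1 : ℝ) ≤ (nm w : ℝ) := by
    have : w.1 ≤ nm w := by unfold nm; omega
    exact_mod_cast this
  have hw2 : (w.2 : ℝ) ≤ (nm w : ℝ) := by
    have : w.2 ≤ nm w := by unfold nm; omega
    exact_mod_cast this
  have hdR : (q.1 : ℝ) * q.2.2 - (q.2.1 : ℝ) ^ 2 = D := by exact_mod_cast hd
  -- `q.1 * B = (q.1 v.1 + q.2.1 v.2) (q.1 w.1 + q.2.1 w.2) + D v.2 w.2`
  have hB : (q.1 : ℝ) * (bf q.1 q.2.1 q.2.2 v w : ℝ) =
      ((q.1 : ℝ) * v.1 + q.2.1 * v.2) * ((q.1 : ℝ) * w.1 + q.2.1 * w.2) + D * (v.2 * w.2) := by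
    unfold bf
    push_cast
    linear_combination ((v.2 : ℝ) * w.2) * hdR
  -- the linear forms
  have hLv : (q.1 : ℝ) * (c1 * nm v) ≤ (q.1 : ℝ) * v.1 + q.2.1 * v.2 := by
    have h1 : (q.1 : ℝ) * (c1 * nm v) ≤ (q.1 : ℝ) * ((v.1 : ℝ) - ρ₂ * (v.2 : ℝ)) :=
      mul_le_mul_of_nonneg_left hcv haR.le
    have h2 : (0 : ℝ) ≤ (ρ₂ * (q.1 : ℝ) + q.2.1) * v.2 := mul_nonneg (by linarith) V2
    nlinarith
  have hLw : (q.1 : ℝ) * (c1 * nm w) ≤ (q.1 : ℝ) * w.1 + q.2.1 * w.2 := by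
    have h1 : (q.1 : ℝ) * (c1 * nm w) ≤ (q.1 : ℝ) * ((w.1 : ℝ) - ρ₂ * (w.2 : ℝ)) :=
      mul_le_mul_of_nonneg_left hcw haR.le
    have h2 : (0 : ℝ) ≤ (ρ₂ * (q.1 : ℝ) + q.2.1) * w.2 := mul_nonneg (by linarith) W2
    nlinarith
  have hbR : (q.2.1 : ℝ) ≤ 0 := by
    have : q.2.1 ≤ 0 := by omega
    exact_mod_cast this
  have hLv' : (q.1 : ℝ) * v.1 + q.2.1 * v.2 ≤ (q.1 : ℝ) * nm v := by
    have h1 : (q.1 : ℝ) * v.1 ≤ (q.1 : ℝ) * nm v := mul_le_mul_of_nonneg_left hv1 haR.le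
    have h2 : (q.2.1 : ℝ) * v.2 ≤ 0 := mul_nonpos_of_nonpos_of_nonneg hbR V2
    linarith
  have hLw' : (q.1 : ℝ) * w.1 + q.2.1 * w.2 ≤ (q.1 : ℝ) * nm w := by
    have h1 : (q.1 : ℝ) * w.1 ≤ (q.1 : ℝ) * nm w := mul_le_mul_of_nonneg_left hw1 haR.le
    have h2 : (q.2.1 : ℝ) * w.2 ≤ 0 := mul_nonpos_of_nonpos_of_nonneg hbR W2
    linarith
  have hLv0 : 0 ≤ (q.1 : ℝ) * (c1 * nm v) := by positivity
  have hLw0 : 0 ≤ (q.1 : ℝ) * (c1 * nm w) := by positivity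
  have hN : (0 : ℝ) < (nm v : ℝ) * (nm w : ℝ) := by positivity
  have hDvw : |(D : ℝ) * (v.2 * w.2)| ≤ |(D : ℝ)| * ((nm v : ℝ) * nm w) := by
    rw [abs_mul, abs_of_nonneg (mul_nonneg V2 W2)]
    exact mul_le_mul_of_nonneg_left (mul_le_mul hv2 hw2 W2 (by linarith)) (abs_nonneg _)
  have hDabs : (0 : ℝ) ≤ |(D : ℝ)| := abs_nonneg _
  constructor
  · have h1 : (q.1 : ℝ) * (c1 * nm v) * ((q.1 : ℝ) * (c1 * nm w)) ≤
        ((q.1 : ℝ) * v.1 + q.2.1 * v.2) * ((q.1 : ℝ) * w.1 + q.2.1 * w.2) :=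
      mul_le_mul hLv hLw hLw0 (hLv0.trans hLv)
    have h2 : |(D : ℝ)| < (q.1 : ℝ) ^ 2 * c1 ^ 2 := by
      have h3 : (1 : ℝ) ≤ (q.1 : ℝ) := by exact_mod_cast (by omega : (1 : ℤ) ≤ q.1)
      have h4 : c1 ^ 2 * (X : ℝ) ≤ c1 ^ 2 * (q.1 : ℝ) :=
        mul_le_mul_of_nonneg_left hXaR.le (by positivity)
      have h5 : c1 ^ 2 * (q.1 : ℝ) ≤ c1 ^ 2 * (q.1 : ℝ) ^ 2 :=
        mul_le_mul_of_nonneg_left (by nlinarith) (by positivity)
      linarith
    have h3 : 0 < (q.1 : ℝ) * (bf q.1 q.2.1 q.2.2 v w : ℝ) := by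
      rw [hB]
      have h4 := neg_abs_le ((D : ℝ) * (v.2 * w.2))
      have h5 : |(D : ℝ)| * ((nm v : ℝ) * nm w) < (q.1 : ℝ) ^ 2 * c1 ^ 2 * ((nm v : ℝ) * nm w) :=
        mul_lt_mul_of_pos_right h2 hN
      have h6 : (q.1 : ℝ) * (c1 * nm v) * ((q.1 : ℝ) * (c1 * nm w)) =
          (q.1 : ℝ) ^ 2 * c1 ^ 2 * ((nm v : ℝ) * nm w) := by ring
      linarith
    have h4 : (0 : ℝ) < (bf q.1 q.2.1 q.2.2 v w : ℝ) := pos_of_mul_pos_right h3 haR.le
    exact_mod_cast h4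
  · have h1 : ((q.1 : ℝ) * v.1 + q.2.1 * v.2) * ((q.1 : ℝ) * w.1 + q.2.1 * w.2) ≤
        (q.1 : ℝ) * nm v * ((q.1 : ℝ) * nm w) :=
      mul_le_mul hLv' hLw' (hLw0.trans hLw) (by positivity)
    have h2 := le_abs_self ((D : ℝ) * (v.2 * w.2))
    have h3 : (q.1 : ℝ) * (bf q.1 q.2.1 q.2.2 v w : ℝ) ≤
        (q.1 : ℝ) * ((C1 + 1) * X * ((nm v : ℝ) * (nm w : ℝ))) := by
      rw [hB]
      have h4 : (q.1 : ℝ) * nm v * ((q.1 : ℝ) * nm w) ≤
          (q.1 : ℝ) * (C1 * X * ((nm v : ℝ) * (nm w : ℝ))) := by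
        calc (q.1 : ℝ) * nm v * ((q.1 : ℝ) * nm w) =
            (q.1 : ℝ) * (q.1 * ((nm v : ℝ) * (nm w : ℝ))) := by ring
          _ ≤ _ := mul_le_mul_of_nonneg_left (mul_le_mul_of_nonneg_right a2 hN.le) haR.le
      have h5 : |(D : ℝ)| * ((nm v : ℝ) * nm w) ≤ (q.1 : ℝ) * (X * ((nm v : ℝ) * (nm w : ℝ))) := by
        have h6 : |(D : ℝ)| ≤ (q.1 : ℝ) * X := by
          have h7 : (1 : ℝ) ≤ (q.1 : ℝ) := by exact_mod_cast (by omega : (1 : ℤ) ≤ q.1)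
          nlinarith
        calc |(D : ℝ)| * ((nm v : ℝ) * nm w) ≤ (q.1 : ℝ) * X * ((nm v : ℝ) * nm w) :=
              mul_le_mul_of_nonneg_right h6 hN.le
          _ = _ := by ring
      calc _ ≤ (q.1 : ℝ) * nm v * ((q.1 : ℝ) * nm w) + |(D : ℝ)| * ((nm v : ℝ) * nm w) := by
            linarith
        _ ≤ (q.1 : ℝ) * (C1 * X * ((nm v : ℝ) * (nm w : ℝ))) +
            (q.1 : ℝ) * (X * ((nm v : ℝ) * (nm w : ℝ))) := add_le_add h4 h5
        _ = _ := by ring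
    exact le_of_mul_le_mul_left h3 haR

/-- the values of the vertices in the cone -/
theorem fn_n {p : Prm k} (hc : 0 < p.c1) {C1 : ℝ} {X : ℕ}
    (hX : 2 * |(D : ℝ)| < p.c1 ^ 2 * X) (hX1 : |(D : ℝ)| ≤ X) {u : Vec k}
    (hu : GP p X u) {q : ℤ × ℤ × ℤ} (hq : q ∈ AW C1 X) (hg : GD q u) (j : Fin k) :
    1 ≤ (mkP q u).n j ∧ ((mkP q u).n j : ℝ) ≤ (C1 + 1) / p.c1 * X ∧
      a0 ∣ ((mkP q u).n j : ℤ) - b0 := by
  obtain ⟨hd, _, _, _, _, _, _, _, hb0, hc0, _⟩ := fn_AW hq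
  have hG := fn_good hc hu hd hg
  have hsep := hu.sep j.castSucc j.succ (Fin.castSucc_lt_succ)
  have hdne := fn_dt_ne hc hu (i := j.castSucc) (j := j.succ) (Fin.castSucc_lt_succ)
  have hdpos := fn_dt_pos hc hu (i := j.castSucc) (j := j.succ) (Fin.castSucc_lt_succ)
  have hbf := hG.bf_eq j
  have hcop := fn_dt_cop hu j
  have hcv := hu.cone j.castSucc
  have hcw := hu.cone j.succ
  have e2 : (mkP q u).n j = (bf q.1 q.2.1 q.2.2 (u j.castSucc) (u j.succ) /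
    dt (u j.castSucc) (u j.succ)).natAbs := rfl
  have e1 : bf q.1 q.2.1 q.2.2 (u j.castSucc) (u j.succ) =
    (bf q.1 q.2.1 q.2.2 (u j.castSucc) (u j.succ) / dt (u j.castSucc) (u j.succ)) *
      dt (u j.castSucc) (u j.succ) := hbf
  obtain ⟨v1, v2, v3⟩ := fn_coord hu j.castSucc
  obtain ⟨w1, w2, w3⟩ := fn_coord hu j.succ
  obtain ⟨hB0, hB1⟩ := fn_bf hc hX hX1 hq v1 v2 w1 w2 v3 w3 hcv hcw
  set v := u j.castSucc with hv
  set w := u j.succ with hw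
  set n : ℤ := bf q.1 q.2.1 q.2.2 v w / dt v w with hn
  have hvR : (1 : ℝ) ≤ (nm v : ℝ) := by exact_mod_cast v3
  have hwR : (1 : ℝ) ≤ (nm w : ℝ) := by exact_mod_cast w3
  have hN : (0 : ℝ) < (nm v : ℝ) * (nm w : ℝ) := by positivity
  have hval : (j.castSucc : Fin (k + 1)).val = j.val := rfl
  have hval2 : (j.succ : Fin (k + 1)).val = j.val + 1 := rfl
  rw [hval, hval2] at hsep hdpos
  -- the sign
  have hdabs : sgn j.val (j.val + 1) * (dt v w : ℝ) = |(dt v w : ℝ)| := by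
    unfold sgn at hdpos ⊢
    split_ifs at hdpos ⊢ with h
    · rw [abs_of_neg (by linarith)]; ring
    · rw [abs_of_pos (by linarith)]; ring
  have habs : (((mkP q u).n j : ℕ) : ℝ) = |(n : ℝ)| := by
    rw [e2, Nat.cast_natAbs]
    push_cast
    rfl
  have hprod : (bf q.1 q.2.1 q.2.2 v w : ℝ) = |(n : ℝ)| * |(dt v w : ℝ)| := by
    have h1 : (bf q.1 q.2.1 q.2.2 v w : ℝ) = (n : ℝ) * (dt v w : ℝ) := by exact_mod_cast e1
    have h2 : (0 : ℝ) < (bf q.1 q.2.1 q.2.2 v w : ℝ) := by exact_mod_cast hB0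
    rw [← abs_mul, ← h1, abs_of_pos h2]
  have hn0 : n ≠ 0 := by
    intro h
    rw [h, zero_mul] at e1
    omega
  refine ⟨?_, ?_, ?_⟩
  · rw [e2]
    have := Int.natAbs_pos.2 hn0
    omega
  · rw [habs]
    rw [hdabs] at hsep
    have h5 : |(n : ℝ)| * (p.c1 * ((nm v : ℝ) * (nm w : ℝ))) ≤
        (C1 + 1) * X * ((nm v : ℝ) * (nm w : ℝ)) :=
      (mul_le_mul_of_nonneg_left hsep (abs_nonneg _)).trans (hprod ▸ hB1)
    have h6 : |(n : ℝ)| * p.c1 ≤ (C1 + 1) * X := by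
      have : |(n : ℝ)| * p.c1 * ((nm v : ℝ) * (nm w : ℝ)) ≤
          (C1 + 1) * X * ((nm v : ℝ) * (nm w : ℝ)) := by
        calc _ = |(n : ℝ)| * (p.c1 * ((nm v : ℝ) * (nm w : ℝ))) := by ring
          _ ≤ _ := h5
      exact le_of_mul_le_mul_right this hN
    rw [div_mul_eq_mul_div, le_div_iff₀ hc]
    exact h6
  · by_cases hj : Even j.val
    · -- `u_j` even, `u_(j+1)` odd: `n > 0`
      have hodd : a0 ∣ w.1 := by
        rw [hw]
        apply hu.odd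
        rw [hval2]
        intro h
        rw [Nat.even_add_one] at h
        exact h hj
      have hdp : 0 < dt v w := by
        unfold sgn at hdpos
        rw [if_neg (fun h => h.1 hj), one_mul] at hdpos
        exact_mod_cast hdpos
      have hnp : 0 < n := by
        rw [e1] at hB0
        exact pos_of_mul_pos_left hB0 hdp.le
      have h1 : a0 ∣ n - b0 := edge_class hb0 hc0 hodd hcop e1
      rw [e2, Int.natCast_natAbs, abs_of_pos hnp]
      exact h1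
    · have hodd : a0 ∣ v.1 := by
        rw [hv]
        apply hu.odd
        rw [hval]
        exact hj
      have hsg : Even (j.val + 1) := by
        rw [Nat.even_add_one]; exact hj
      have hdp : dt v w < 0 := by
        unfold sgn at hdpos
        rw [if_pos ⟨hj, hsg⟩] at hdpos
        have : (dt v w : ℝ) < 0 := by linarith
        exact_mod_cast this
      have hnp : n < 0 := by
        rw [e1] at hB0
        by_contra hcon
        have : n * dt v w ≤ 0 := mul_nonpos_of_nonneg_of_nonpos (not_lt.1 hcon) hdp.le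
        omega
      have e3 : bf q.1 q.2.1 q.2.2 w v = (-n) * dt w v := by
        have e4 : bf q.1 q.2.1 q.2.2 w v = bf q.1 q.2.1 q.2.2 v w := by unfold bf; ring
        have e5 : dt w v = -dt v w := by unfold dt; ring
        rw [e4, e5, e1]; ring
      have hcop' : IsCoprime (dt w v) (R : ℤ) := by
        have e5 : dt w v = -dt v w := by unfold dt; ring
        rw [e5]
        exact hcop.neg_left
      have h1 : a0 ∣ (-n) - b0 := edge_class hb0 hc0 hodd hcop' e3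
      rw [e2, Int.natCast_natAbs, abs_of_neg hnp]
      exact h1

/-- the constants of the family -/
theorem fn_Ft {p : Prm k} {X P00 : ℕ} {c' L : ℝ} (hc' : 0 < c') (hL : 0 < L)
    {q : ℤ × ℤ × ℤ} {u : Vec k} (hM : c' * L⁻¹ ≤ Mp p X P00 q (fE u)) :
    max 0 (Ft p X P00 q u) ≤ L / c' * W p X q u := by
  have hW := fn_W_nonneg p X q u
  have h0 : 0 ≤ L / c' * W p X q u := by positivity
  apply max_le h0
  unfold Ft
  split_ifs
  · unfold Fn
    have h1 : 0 < c' * L⁻¹ := by positivity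
    calc W p X q u / Mp p X P00 q (fE u) ≤ W p X q u / (c' * L⁻¹) :=
          div_le_div_of_nonneg_left hW h1 hM
      _ = L / c' * W p X q u := by field_simp
  · exact h0

theorem fn_Ft_zero {p : Prm k} {X P00 : ℕ} {q : ℤ × ℤ × ℤ} {u : Vec k} (h : ¬ GD q u) :
    Ft p X P00 q u = 0 := by
  have hW : W p X q u = 0 := by unfold W; rw [if_neg h]
  unfold Ft Fn
  rw [hW]
  simp

/-- **the covering families of a box** -/
theorem famB_of_nc {p : Prm k} (hk : Even k) (hk2 : 2 ≤ k) (hc : 0 < p.c1) {P00 : ℕ}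
    (hP : pB k ≤ P00) {C1 δ : ℝ} (hδ : 0 < δ) (hLB : LB p) (hMAR : MAR p C1)
    {i : ℕ} {j l : ℤ} (hNC : NCst p P00 C1 i j l (δ / 40)) : FamB i j l δ := by
  classical
  obtain ⟨c, C₂, hc0, hC₂, hLB⟩ := hLB
  obtain ⟨X1, hLB⟩ := hLB P00 hP
  obtain ⟨CM, η, hη, X2, hMAR⟩ := hMAR
  obtain ⟨X3, hNC⟩ := hNC
  set c' : ℝ := c * Real.log P00 ^ (-C₂) with hc'
  have hlP : 0 < Real.log P00 := by
    apply Real.log_pos
    have h1 : 100 * (k + 1) ^ 2 ≤ pB k := by unfold pB; omega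
    have h2 : 1 < P00 := by nlinarith
    exact_mod_cast h2
  have hc'0 : 0 < c' := mul_pos hc0 (Real.rpow_pos_of_pos hlP _)
  refine ⟨k, (C1 + 1) / p.c1, (1 / c') ^ (1 + η) * |CM| + 1, η, by omega, hk, ?_, hη,
    max (max 3 (⌈2 * |(D : ℝ)| / p.c1 ^ 2⌉₊ + 1)) (max (max X1 ⌈|(D : ℝ)|⌉₊) (max X2 X3)), ?_⟩
  · have : 0 ≤ (1 / c') ^ (1 + η) := Real.rpow_nonneg (by positivity) _
    positivity
  intro n hn
  simp only [ge_iff_le, max_le_iff] at hn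
  obtain ⟨⟨x3, xD⟩, ⟨x1, xD1⟩, x2, x3'⟩ := hn
  have hnX : n ≤ n ^ 2 := by nlinarith
  set X : ℕ := n ^ 2 with hXdef
  obtain ⟨hO1, hav, hO4, hO5⟩ := hNC n x3'
  rw [← hXdef] at hO1 hav hO4 hO5
  set O := BO i j l n with hOdef
  have hX3 : (3 : ℝ) ≤ X := by exact_mod_cast x3.trans hnX
  have hX0 : (0 : ℝ) < X := by linarith
  have hXD : 2 * |(D : ℝ)| < p.c1 ^ 2 * X := by
    have h1 : 2 * |(D : ℝ)| / p.c1 ^ 2 < X := by
      calc 2 * |(D : ℝ)| / p.c1 ^ 2 ≤ (⌈2 * |(D : ℝ)| / p.c1 ^ 2⌉₊ : ℝ) := Nat.le_ceil _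
        _ < ((⌈2 * |(D : ℝ)| / p.c1 ^ 2⌉₊ + 1 : ℕ) : ℝ) := by push_cast; linarith
        _ ≤ (X : ℝ) := by exact_mod_cast xD.trans hnX
    rw [div_lt_iff₀ (by positivity)] at h1
    linarith
  have hXD1 : |(D : ℝ)| ≤ X := (Nat.le_ceil _).trans (by exact_mod_cast xD1.trans hnX)
  have hlX : 0 < Real.log X := Real.log_pos (by linarith)
  set L : ℝ := Real.log X ^ mE k with hL
  have hL0 : 0 < L := Real.rpow_pos_of_pos hlX _
  have hLi : Real.log X ^ (-mE k) = L⁻¹ := Real.rpow_neg hlX.le _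
  have hMp : ∀ q ∈ O, ∀ u ∈ GS p X, c' * L⁻¹ ≤ Mp p X P00 q (fE u) := by
    intro q hq u hu
    have h1 := hLB X (x1.trans hnX) (fE u) (fn_fE (by omega) hk2 (fn_mem hu)) q
      (fn_AW (hO1 hq)).1
    rw [hLi] at h1
    exact h1
  set Z := (O ×ˢ GS p X).filter (fun z => GD z.1 z.2) with hZ
  set s : Finset (Pth k) := Z.image (fun z => mkP z.1 z.2) with hs
  set w : Pth k → ℝ := fun τ => max 0 (Ft p X P00 (τ.a, τ.b, τ.c) τ.u) with hw
  have hmem : ∀ τ ∈ s, ∃ q ∈ O, ∃ u ∈ GS p X, GD q u ∧ mkP q u = τ := by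
    intro τ hτ
    rw [hs, mem_image] at hτ
    obtain ⟨z, hz, rfl⟩ := hτ
    rw [hZ, mem_filter, mem_product] at hz
    exact ⟨z.1, hz.1.1, z.2, hz.1.2, hz.2, rfl⟩
  have hinj : Set.InjOn (fun z : (ℤ × ℤ × ℤ) × Vec k => mkP z.1 z.2) (Z : Set _) := by
    intro z _ z' _ h
    obtain ⟨h1, h2⟩ := mkP_inj h
    exact Prod.ext h1 h2
  have hsum : ∀ (Q : Pth k → Prop) [DecidablePred Q], ∑ τ ∈ s.filter Q, w τ =
      ∑ q ∈ O, ∑ u ∈ (GS p X).filter (fun u => Q (mkP q u)), max 0 (Ft p X P00 q u) := by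
    intro Q _
    rw [sum_filter, hs, sum_image hinj, hZ, sum_filter, sum_product]
    apply sum_congr rfl
    intro q _
    rw [sum_filter]
    apply sum_congr rfl
    intro u _
    by_cases hg : GD q u
    · rw [if_pos hg]
      rfl
    · rw [if_neg hg, fn_Ft_zero hg]
      simp
  refine ⟨s, w, ?_⟩
  refine
    { good := ?_, first := ?_, last := ?_, mem := ?_, w0 := ?_, n1 := ?_, cls := ?_,
      near := ?_, marg := ?_ }
  · intro τ hτ
    obtain ⟨q, hq, u, hu, hg, rfl⟩ := hmem τ hτ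
    exact fn_good hc (fn_mem hu) (fn_AW (hO1 hq)).1 hg
  · intro τ hτ
    obtain ⟨q, hq, u, hu, hg, rfl⟩ := hmem τ hτ
    exact (fn_mem hu).first
  · intro τ hτ
    obtain ⟨q, hq, u, hu, hg, rfl⟩ := hmem τ hτ
    exact (fn_mem hu).last
  · intro τ hτ
    obtain ⟨q, hq, u, hu, hg, rfl⟩ := hmem τ hτ
    rw [mkP_frm]
    exact hq
  · intro τ
    exact le_max_left _ _
  · intro τ hτ j'
    obtain ⟨q, hq, u, hu, hg, rfl⟩ := hmem τ hτ
    obtain ⟨g1, g2, _⟩ := fn_n hc hXD hXD1 (fn_mem hu) (hO1 hq) hg j'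
    exact ⟨g1, g2⟩
  · intro τ hτ j'
    obtain ⟨q, hq, u, hu, hg, rfl⟩ := hmem τ hτ
    exact (fn_n hc hXD hXD1 (fn_mem hu) (hO1 hq) hg j').2.2
  · -- near
    set B2 := O.filter (fun q => 1 / 4 ≤ 1 - av p X q) with hB2
    set B3 := O.filter (fun q => 1 / 16 ≤ (∑ u ∈ GS p X, Ft p X P00 q u - av p X q) ^ 2) with hB3
    have c2 : (B2.card : ℝ) ≤ 4 * (δ / 40 * X) := by
      have h1 : ∑ q ∈ B2, (1 / 4 : ℝ) ≤ ∑ q ∈ B2, (1 - av p X q) :=
        sum_le_sum fun q hq => (mem_filter.1 hq).2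
      have h2 : ∑ q ∈ B2, (1 - av p X q) ≤ ∑ q ∈ O, (1 - av p X q) :=
        sum_le_sum_of_subset_of_nonneg (filter_subset _ _)
          fun q hq _ => sub_nonneg.2 (hav q hq)
      rw [sum_const, nsmul_eq_mul] at h1
      linarith
    have c3 : (B3.card : ℝ) ≤ 16 * (δ / 40 * X) := by
      have h1 : ∑ q ∈ B3, (1 / 16 : ℝ) ≤
          ∑ q ∈ B3, (∑ u ∈ GS p X, Ft p X P00 q u - av p X q) ^ 2 :=
        sum_le_sum fun q hq => (mem_filter.1 hq).2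
      have h2 : ∑ q ∈ B3, (∑ u ∈ GS p X, Ft p X P00 q u - av p X q) ^ 2 ≤
          ∑ q ∈ O, (∑ u ∈ GS p X, Ft p X P00 q u - av p X q) ^ 2 :=
        sum_le_sum_of_subset_of_nonneg (filter_subset _ _) fun q _ _ => sq_nonneg _
      rw [sum_const, nsmul_eq_mul] at h1
      linarith
    have hwb : ∀ q ∈ O, ∑ u ∈ GS p X, Ft p X P00 q u ≤ wb s w frm q := by
      intro q hq
      unfold wb
      rw [hsum]
      have h1 : ∑ u ∈ GS p X, Ft p X P00 q u ≤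
          ∑ u ∈ (GS p X).filter (fun u => frm (mkP q u) = q), max 0 (Ft p X P00 q u) := by
        have e0 : (GS p X).filter (fun u => frm (mkP q u) = q) = GS p X :=
          filter_true_of_mem (fun u _ => rfl)
        rw [e0]
        exact sum_le_sum fun u _ => le_max_right _ _
      refine h1.trans ?_
      exact single_le_sum (f := fun q' => ∑ u ∈ (GS p X).filter
        (fun u => frm (mkP q' u) = q), max 0 (Ft p X P00 q' u))
        (fun q' _ => sum_nonneg fun u _ => le_max_left _ _) hq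
    have hsub : O.filter (fun y => wb s w frm y < 1 / 2) ⊆ B2 ∪ B3 := by
      intro q hq
      rw [mem_filter] at hq
      have h2 := hwb q hq.1
      rw [mem_union]
      by_cases h3 : 1 / 4 ≤ 1 - av p X q
      · exact Or.inl (mem_filter.2 ⟨hq.1, h3⟩)
      · right
        rw [hB3, mem_filter]
        refine ⟨hq.1, ?_⟩
        have h4 : ∑ u ∈ GS p X, Ft p X P00 q u < 1 / 2 := lt_of_le_of_lt h2 hq.2
        nlinarith
    have hle : ((O.filter (fun y => wb s w frm y < 1 / 2)).card : ℝ) ≤ B2.card + B3.card := by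
      have h1 := (card_le_card hsub).trans (card_union_le B2 B3)
      exact_mod_cast h1
    nlinarith [mul_pos hδ hX0]
  · -- marginals
    intro j' E
    have h1 : ∀ m : ℕ, mar s w (fun τ => τ.n j') m ≤
        L / c' * ∑ q ∈ AW C1 X, ∑ u ∈ (GS p X).filter (fun u => nj q u j' = m), W p X q u := by
      intro m
      unfold mar
      rw [hsum]
      rw [mul_sum]
      have h2 : ∀ q ∈ O, ∑ u ∈ (GS p X).filter (fun u => (mkP q u).n j' = m),
          max 0 (Ft p X P00 q u) ≤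
          L / c' * ∑ u ∈ (GS p X).filter (fun u => nj q u j' = m), W p X q u := by
        intro q hq
        rw [mul_sum]
        apply sum_le_sum
        intro u hu
        rw [mem_filter] at hu
        exact fn_Ft hc'0 hL0 (hMp q hq u hu.1)
      refine (sum_le_sum h2).trans ?_
      apply sum_le_sum_of_subset_of_nonneg hO1
      intro q _ _
      exact mul_nonneg (by positivity) (sum_nonneg fun u _ => fn_W_nonneg p X q u)
    have h3 : ∀ m : ℕ, 0 ≤ ∑ q ∈ AW C1 X, ∑ u ∈ (GS p X).filter (fun u => nj q u j' = m),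
        W p X q u := fun m => sum_nonneg fun q _ => sum_nonneg fun u _ => fn_W_nonneg p X q u
    calc ∑ m ∈ E, mar s w (fun τ => τ.n j') m ^ (1 + η)
        ≤ ∑ m ∈ E, (L / c') ^ (1 + η) * (∑ q ∈ AW C1 X,
            ∑ u ∈ (GS p X).filter (fun u => nj q u j' = m), W p X q u) ^ (1 + η) := by
          apply sum_le_sum
          intro m _
          rw [← Real.mul_rpow (by positivity) (h3 m)]
          exact Real.rpow_le_rpow (mar_nonneg s (fun τ => le_max_left _ _) _ m) (h1 m)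
            (by linarith)
      _ = (L / c') ^ (1 + η) * ∑ m ∈ E, (∑ q ∈ AW C1 X,
            ∑ u ∈ (GS p X).filter (fun u => nj q u j' = m), W p X q u) ^ (1 + η) := by
          rw [mul_sum]
      _ ≤ (L / c') ^ (1 + η) * (CM * X * Real.log X ^ (-mE k * (1 + η))) :=
          mul_le_mul_of_nonneg_left (hMAR X (x2.trans hnX) j' E) (Real.rpow_nonneg (by positivity) _)
      _ ≤ ((1 / c') ^ (1 + η) * |CM| + 1) * X := by
          have e1 : Real.log X ^ (-mE k * (1 + η)) = (L ^ (1 + η))⁻¹ := by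
            rw [Real.rpow_mul hlX.le, hLi, Real.inv_rpow hL0.le]
          have e2 : (L / c') ^ (1 + η) = L ^ (1 + η) * (1 / c') ^ (1 + η) := by
            rw [← Real.mul_rpow hL0.le (by positivity)]
            congr 1
            ring
          have hL1 : 0 < L ^ (1 + η) := Real.rpow_pos_of_pos hL0 _
          have hc1 : 0 ≤ (1 / c') ^ (1 + η) := Real.rpow_nonneg (by positivity) _
          rw [e1, e2]
          calc L ^ (1 + η) * (1 / c') ^ (1 + η) * (CM * X * (L ^ (1 + η))⁻¹)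
              = (1 / c') ^ (1 + η) * CM * X * (L ^ (1 + η) * (L ^ (1 + η))⁻¹) := by ring
            _ = (1 / c') ^ (1 + η) * CM * X := by rw [mul_inv_cancel₀ hL1.ne', mul_one]
            _ ≤ (1 / c') ^ (1 + η) * |CM| * X := by
                apply mul_le_mul_of_nonneg_right _ hX0.le
                exact mul_le_mul_of_nonneg_left (le_abs_self _) hc1
            _ ≤ _ := by nlinarith

/-- **the rigidity of a box** -/
theorem ptb_of_nc {p : Prm k} (hk : Even k) (hk2 : 2 ≤ k) (hc : 0 < p.c1) {P00 : ℕ}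
    (hP : pB k ≤ P00) {C1 δ : ℝ} (hδ : 0 < δ) (hLB : LB p) (hMAR : MAR p C1)
    {i : ℕ} {j l : ℤ} (hNC : NCst p P00 C1 i j l (δ / 80)) : PTB i j l δ := by
  apply ptb_of_famB hδ
  apply famB_of_nc hk hk2 hc hP (by positivity) hLB hMAR
  have e : δ / 2 / 40 = δ / 80 := by ring
  rw [e]
  exact hNC

end Pool.Agent.AQ.NC
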