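import Pool.Agent.Lib_helper8.AQ.Cst
import Pool.Agent.Lib_helper97.PENT.Defs
import Pool.Agent.Lib_helper39.PEQ.Defs

/-!
# AQ: base definitions (helper8)

The versions of the old definitions of PENT (`ZDefs`, `PEQ/QDefs`) with the data `[Cst]`: `1` (the
determinant of the forms) is replaced by `D`, `l % 4 = 1` by `Sp l`, `l = 2` by `l ∣ R`.  Everything which
does not depend on the data (`qf`, `bf`, `dt`, `nm`, `cm`, `PP`, `CM`, `EBox`, `emat`, ...) is used from the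
old files.  Names in the namespace `Pool.Agent.AQ` have priority over opened names.
-/

set_option autoImplicit false

namespace Pool.Agent.AQ

open Finset Pool.Agent.PENT Pool.Agent.PENT.EQ

variable [Cst]

/-! ### numbers with split primes -/

/-- squarefree, all prime factors split and `> P` -/
def DP (P : ℝ) (d : ℕ) : Prop :=
  Squarefree d ∧ ∀ p : ℕ, p.Prime → p ∣ d → Sp p ∧ P < (p : ℝ)

open Classical in
/-- the weight `(2 α)^ω(d)` on `DP` -/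
noncomputable def fw (P α : ℝ) (d : ℕ) : ℝ :=
  if DP P d then (2 * α) ^ d.primeFactors.card else 0

open Classical in
/-- the sum of `1/p` over the split primes `p ≤ z` -/
noncomputable def ssp (z : ℝ) : ℝ :=
  ∑ p ∈ (Finset.Icc 1 ⌊z⌋₊).filter (fun p => Sp p), 1 / (p : ℝ)

open Classical in
/-- squarefree, all prime factors split and `> P0`, `≤ x` -/
noncomputable def DP0 (P0 x : ℕ) : Finset ℕ :=
  (Icc 1 x).filter (fun d => Squarefree d ∧ ∀ p : ℕ, p.Prime → p ∣ d → P0 < p ∧ Sp p)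

/-! ### forms modulo `m` -/

/-- the form `(N(w), w̄ e, N(e))` of the matrix `(α, β; γ, δ)`, `w = (α, γ)`, `e = (β, δ)` -/
def QQ (g : ℤ × ℤ × ℤ × ℤ) : ℤ × ℤ × ℤ :=
  (g.1 ^ 2 + D * g.2.2.1 ^ 2, g.1 * g.2.1 + D * (g.2.2.1 * g.2.2.2),
    g.2.1 ^ 2 + D * g.2.2.2 ^ 2)

/-- the forms `(g, n, g')` modulo `m` with `g g' - n² = D`, representatives in `[0, m)³` -/
noncomputable def V3 (m : ℕ) : Finset (ℤ × ℤ × ℤ) :=
  ((Ico (0 : ℤ) m) ×ˢ (Ico (0 : ℤ) m) ×ˢ (Ico (0 : ℤ) m)).filter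
    (fun v => (m : ℤ) ∣ v.1 * v.2.2 - v.2.1 ^ 2 - D)

/-- the mean over the forms modulo `m` -/
noncomputable def MV (m : ℕ) (h : ℤ × ℤ × ℤ → ℝ) : ℝ := (∑ v ∈ V3 m, h v) / ((V3 m).card : ℝ)

/-- functions on `ℤ³` which depend only on the classes modulo `m` -/
def Per3 (m : ℕ) (h : ℤ × ℤ × ℤ → ℝ) : Prop :=
  ∀ v w : ℤ × ℤ × ℤ, (m : ℤ) ∣ v.1 - w.1 → (m : ℤ) ∣ v.2.1 - w.2.1 →
    (m : ℤ) ∣ v.2.2 - w.2.2 → h v = h w

/-- **(EQ)** for a finite set of triples: product-form equidistribution with error `E` and level `L`,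
moduli prime to `R` -/
def EqFam (O : Finset (ℤ × ℤ × ℤ)) (q : ℤ × ℤ × ℤ → ℤ × ℤ × ℤ) (L E : ℝ) : Prop :=
  ∀ T : Finset ℕ, (∀ m ∈ T, Nat.Coprime m R) → (∀ m ∈ T, ∀ m' ∈ T, m ≠ m' → Nat.Coprime m m') →
    ((∏ m ∈ T, m : ℕ) : ℝ) ≤ L → ∀ h : ℕ → ℤ × ℤ × ℤ → ℝ, (∀ m ∈ T, Per3 m (h m)) →
    (∀ m ∈ T, ∀ v, 0 ≤ h m v ∧ h m v ≤ 1) →
    |∑ t ∈ O, ∏ m ∈ T, h m (q t) - (O.card : ℝ) * ∏ m ∈ T, MV m (h m)| ≤ E

/-! ### the algebra of one edge -/

theorem qf_mul_qf {a b c : ℤ} (h : a * c - b ^ 2 = D) (u v : ℤ × ℤ) :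
    qf a b c u * qf a b c v = bf a b c u v ^ 2 + D * dt u v ^ 2 := by
  unfold qf bf dt
  linear_combination (u.1 * v.2 - u.2 * v.1) ^ 2 * h

/-- the integer `n = Q(u,v)/det(u,v)` of a good edge -/
theorem edge_exists {a b c : ℤ} (h : a * c - b ^ 2 = D) {u v : ℤ × ℤ} (h1 : dt u v ∣ qf a b c u)
    (h2 : dt u v ∣ qf a b c v) : ∃ n : ℤ, bf a b c u v = n * dt u v := by
  have h3 : dt u v ^ 2 ∣ bf a b c u v ^ 2 := by
    have h4 : dt u v ^ 2 ∣ qf a b c u * qf a b c v := by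
      rw [sq]; exact mul_dvd_mul h1 h2
    rw [qf_mul_qf h] at h4
    have h5 : dt u v ^ 2 ∣ D * dt u v ^ 2 := dvd_mul_left _ _
    exact (Int.dvd_iff_dvd_of_dvd_add h4).2 h5
  obtain ⟨n, hn⟩ := (Int.pow_dvd_pow_iff (by norm_num)).1 h3
  exact ⟨n, by rw [hn]; ring⟩

theorem edge_eq {a b c : ℤ} (h : a * c - b ^ 2 = D) {u v : ℤ × ℤ} {n : ℤ}
    (hn : bf a b c u v = n * dt u v) :
    (n ^ 2 + D) * dt u v ^ 2 = qf a b c u * qf a b c v := by
  rw [qf_mul_qf h, hn]; ring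

/-- the class of `n`: `u` even (`(u.1, R) = 1`), `v` odd (`a0 ∣ v.1`), then `n = b0` modulo `a0` -/
theorem edge_class {a b c : ℤ} (hb : a0 ∣ b - b0) (hc : a0 ∣ c) {u v : ℤ × ℤ}
    (hv : a0 ∣ v.1) (hd : IsCoprime (dt u v) (R : ℤ)) {n : ℤ}
    (hn : bf a b c u v = n * dt u v) : a0 ∣ n - b0 := by
  have h1 : a0 ∣ bf a b c u v - b0 * dt u v := by
    have e : bf a b c u v - b0 * dt u v =
        a * u.1 * v.1 + (b - b0) * (u.1 * v.2 + u.2 * v.1) + 2 * b0 * u.2 * v.1 +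
          c * u.2 * v.2 := by
      unfold bf dt; ring
    rw [e]
    refine dvd_add (dvd_add (dvd_add ?_ ?_) ?_) ?_
    · exact Dvd.dvd.mul_left hv _
    · exact Dvd.dvd.mul_right hb _
    · exact Dvd.dvd.mul_left hv _
    · exact (hc.mul_right _).mul_right _
  have h2 : a0 ∣ (n - b0) * dt u v := by
    have : (n - b0) * dt u v = bf a b c u v - b0 * dt u v := by rw [hn]; ring
    rw [this]; exact h1
  exact (cop_a0_iff.2 hd).symm.dvd_of_dvd_mul_right h2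

end Pool.Agent.AQ
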