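import Pool.Agent.Lib_helper8.AQ.NCDefs

/-!
# AQ: the forms of a box determine the matrices (helper8)
-/

set_option autoImplicit false

namespace Pool.Agent.AQ

open Finset Pool.Agent.PENT Pool.Agent.PENT.EQ

variable [Cst]

theorem D_big : 36 ≤ |D| := by
  have h1 := R_sq_dvd_D
  have h2 : (36 : ℤ) ∣ (R : ℤ) ^ 2 := by
    have h3 : (6 : ℤ) ∣ (R : ℤ) := by exact_mod_cast six_dvd_R
    have := pow_dvd_pow_of_dvd h3 2
    norm_num at this
    exact this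
  have h3 : (36 : ℤ) ∣ |D| := (dvd_abs _ _).2 (h2.trans h1)
  exact Int.le_of_dvd (abs_pos.2 D_ne) h3

/-- two matrices of determinant one with the same form -/
theorem same_form {α β γ δ α₁ β₁ γ₁ δ₁ : ℤ} (h : α * δ - β * γ = 1) (h₁ : α₁ * δ₁ - β₁ * γ₁ = 1)
    (ha : 0 < α ^ 2 + D * γ ^ 2) (e1 : α ^ 2 + D * γ ^ 2 = α₁ ^ 2 + D * γ₁ ^ 2)
    (e2 : α * β + D * (γ * δ) = α₁ * β₁ + D * (γ₁ * δ₁)) :
    ∃ s t : ℤ, s ^ 2 + D * t ^ 2 = 1 ∧ α₁ = s * α - D * t * γ ∧ γ₁ = t * α + s * γ ∧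
      α = s * α₁ + D * t * γ₁ ∧
      (α ^ 2 + D * γ ^ 2) * s = α * α₁ + D * (γ * γ₁) := by
  set a : ℤ := α ^ 2 + D * γ ^ 2 with hadef
  set b : ℤ := α * β + D * (γ * δ) with hbdef
  have hb1 : a * δ = b * γ + α := by rw [hadef, hbdef]; linear_combination α * h
  have hb2 : a * β = b * α - D * γ := by rw [hadef, hbdef]; linear_combination (-(D * γ)) * h
  have hb3 : a * δ₁ = b * γ₁ + α₁ := by rw [e1, e2]; linear_combination α₁ * h₁
  have hb4 : a * β₁ = b * α₁ - D * γ₁ := by rw [e1, e2]; linear_combination (-(D * γ₁)) * h₁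
  set s : ℤ := α₁ * δ - β₁ * γ with hs
  set t : ℤ := γ₁ * δ - δ₁ * γ with ht
  have hs1 : a * s = α * α₁ + D * (γ * γ₁) := by
    rw [hs]; linear_combination α₁ * hb1 - γ * hb4
  have ht1 : a * t = α * γ₁ - α₁ * γ := by
    rw [ht]; linear_combination γ₁ * hb1 - γ * hb3
  have hane : a ≠ 0 := ha.ne'
  have key : a ^ 2 * (s ^ 2 + D * t ^ 2) = a ^ 2 * 1 := by
    have : a ^ 2 * (s ^ 2 + D * t ^ 2) = (a * s) ^ 2 + D * (a * t) ^ 2 := by ring
    rw [this, hs1, ht1]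
    have e3 : a ^ 2 = (α ^ 2 + D * γ ^ 2) * (α₁ ^ 2 + D * γ₁ ^ 2) := by
      rw [← hadef, ← e1]; ring
    rw [e3]; ring
  have h2 := mul_left_cancel₀ (pow_ne_zero 2 hane) key
  refine ⟨s, t, h2, ?_, ?_, ?_, hs1⟩
  · apply mul_left_cancel₀ hane
    have : a * (s * α - D * t * γ) = (a * s) * α - D * (a * t) * γ := by ring
    rw [this, hs1, ht1, hadef]; ring
  · apply mul_left_cancel₀ hane
    have : a * (t * α + s * γ) = (a * t) * α + (a * s) * γ := by ring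
    rw [this, hs1, ht1, hadef]; ring
  · apply mul_left_cancel₀ hane
    have : a * (s * α₁ + D * t * γ₁) = (a * s) * α₁ + D * (a * t) * γ₁ := by ring
    rw [this, hs1, ht1]
    rw [e1]; ring

/-- the coordinates of the elements of a box -/
theorem bx_mem {i : ℕ} {j l : ℤ} {n : ℕ} {t : ℤ × ℤ × ℤ} (ht : t ∈ NC.Bx i j l n) :
    (i : ℤ) * n < t.1 ∧ t.1 ≤ ((i : ℤ) + 1) * n ∧ j * n < t.2.1 ∧ t.2.1 ≤ (j + 1) * n ∧
      l * n < t.2.2 ∧ t.2.2 ≤ (l + 1) * n ∧ t.1 * (emat t).2.2.2 - t.2.1 * t.2.2 = 1 ∧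
      Int.gcd t.1 (R : ℤ) = 1 ∧ t.2.1 % a0 = b0 * (emat t).2.2.2 % a0 := by
  unfold NC.Bx EBox at ht
  rw [mem_filter, mem_filter, mem_product, mem_product, mem_Ioc, mem_Ioc, mem_Ioc] at ht
  obtain ⟨⟨⟨⟨a1, a2⟩, ⟨b1, b2⟩, c1, c2⟩, hd⟩, hg, hm⟩ := ht
  push_cast at a1 a2
  refine ⟨a1, a2, b1, b2, c1, c2, ?_, hg, hm⟩
  have h1 : t.1 * ((t.2.1 * t.2.2 + 1) / t.1) = t.2.1 * t.2.2 + 1 := Int.mul_ediv_cancel' hd
  show t.1 * ((t.2.1 * t.2.2 + 1) / t.1) - t.2.1 * t.2.2 = 1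
  rw [h1]; ring

/-- the first entry of the form is positive -/
theorem bx_pos {i : ℕ} {j l : ℤ}
    (hpos : ∀ g : ℝ, (l : ℝ) ≤ g → g ≤ (l : ℝ) + 1 → 1 < (i : ℝ) ^ 2 + (D : ℝ) * g ^ 2)
    {n : ℕ} (hn : 0 < n) {t : ℤ × ℤ × ℤ} (ht : t ∈ NC.Bx i j l n) :
    (n : ℤ) ^ 2 < t.1 ^ 2 + D * t.2.2 ^ 2 := by
  obtain ⟨a1, a2, _, _, c1, c2, _⟩ := bx_mem ht
  have hnR : (0 : ℝ) < n := by exact_mod_cast hn
  have c1' : (l : ℝ) * n < (t.2.2 : ℝ) := by exact_mod_cast c1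
  have c2' : (t.2.2 : ℝ) ≤ ((l : ℝ) + 1) * n := by exact_mod_cast c2
  have a1' : (i : ℝ) * n < (t.1 : ℝ) := by exact_mod_cast a1
  have h1 := hpos ((t.2.2 : ℝ) / n) (by rw [le_div_iff₀ hnR]; exact c1'.le)
    (by rw [div_le_iff₀ hnR]; exact c2')
  have h2 : (n : ℝ) ^ 2 < ((i : ℝ) * n) ^ 2 + D * (t.2.2 : ℝ) ^ 2 := by
    have h3 : (n : ℝ) ^ 2 * 1 < (n : ℝ) ^ 2 * ((i : ℝ) ^ 2 + (D : ℝ) * ((t.2.2 : ℝ) / n) ^ 2) :=
      mul_lt_mul_of_pos_left h1 (by positivity)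
    have h4 : (n : ℝ) ^ 2 * ((i : ℝ) ^ 2 + (D : ℝ) * ((t.2.2 : ℝ) / n) ^ 2) =
        ((i : ℝ) * n) ^ 2 + D * (t.2.2 : ℝ) ^ 2 := by
      field_simp
    rw [h4, mul_one] at h3
    exact h3
  have h3 : ((i : ℝ) * n) ^ 2 ≤ (t.1 : ℝ) ^ 2 :=
    pow_le_pow_left₀ (by positivity) a1'.le 2
  have h4 : (n : ℝ) ^ 2 < (t.1 : ℝ) ^ 2 + D * (t.2.2 : ℝ) ^ 2 := by linarith
  exact_mod_cast h4

/-- **the forms of a box determine the matrices** -/
theorem bx_inj {i : ℕ} {j l : ℤ} (hi : 2 ≤ i)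
    (hpos : ∀ g : ℝ, (l : ℝ) ≤ g → g ≤ (l : ℝ) + 1 → 1 < (i : ℝ) ^ 2 + (D : ℝ) * g ^ 2)
    {n : ℕ} (hn : 0 < n) :
    Set.InjOn (fun t => QQ (emat t)) (NC.Bx i j l n : Set (ℤ × ℤ × ℤ)) := by
  intro t ht t₁ ht₁ he
  have ht' : t ∈ NC.Bx i j l n := ht
  have ht₁' : t₁ ∈ NC.Bx i j l n := ht₁
  obtain ⟨a1, a2, b1, b2, c1, c2, hd, _, _⟩ := bx_mem ht'
  obtain ⟨a1', a2', b1', b2', c1', c2', hd', _, _⟩ := bx_mem ht₁'
  have hp := bx_pos hpos hn ht'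
  have hp' := bx_pos hpos hn ht₁'
  have hnZ : (0 : ℤ) < n := by exact_mod_cast hn
  have hiZ : (2 : ℤ) ≤ i := by exact_mod_cast hi
  have hin : 2 * (n : ℤ) ≤ (i : ℤ) * n := mul_le_mul_of_nonneg_right hiZ hnZ.le
  have hα : 0 < t.1 := by linarith
  have hα' : 0 < t₁.1 := by linarith
  have e1 : t.1 ^ 2 + D * t.2.2 ^ 2 = t₁.1 ^ 2 + D * t₁.2.2 ^ 2 := congrArg Prod.fst he
  have e2 : t.1 * t.2.1 + D * (t.2.2 * (emat t).2.2.2) =
      t₁.1 * t₁.2.1 + D * (t₁.2.2 * (emat t₁).2.2.2) := congrArg (fun q => q.2.1) he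
  have ha : 0 < t.1 ^ 2 + D * t.2.2 ^ 2 := lt_trans (by positivity) hp
  have ha' : 0 < t₁.1 ^ 2 + D * t₁.2.2 ^ 2 := lt_trans (by positivity) hp'
  obtain ⟨s, u, hsu, g1, g2, g3, g4⟩ := same_form hd hd' ha e1 e2
  -- `u = 0` implies the claim
  have hend : u = 0 → t = t₁ := by
    intro hu
    rw [hu] at hsu g1 g2 g3
    have hs1 : s = 1 := by
      have h1 : s ^ 2 = 1 := by linarith
      have h2 : (s - 1) * (s + 1) = 0 := by linear_combination h1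
      rcases mul_eq_zero.1 h2 with h3 | h3
      · linarith
      · exfalso
        have h4 : s = -1 := by linarith
        rw [h4] at g1
        linarith
    rw [hs1] at g1 g2
    have h1 : t₁.1 = t.1 := by linarith
    have h2 : t₁.2.2 = t.2.2 := by linarith
    have h3 : t₁.2.1 = t.2.1 := by
      -- `a β = α b - D γ`
      have k1 : (t.1 ^ 2 + D * t.2.2 ^ 2) * t.2.1 =
          t.1 * (t.1 * t.2.1 + D * (t.2.2 * (emat t).2.2.2)) - D * t.2.2 := by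
        linear_combination (-(D * t.2.2)) * hd
      have k2 : (t₁.1 ^ 2 + D * t₁.2.2 ^ 2) * t₁.2.1 =
          t₁.1 * (t₁.1 * t₁.2.1 + D * (t₁.2.2 * (emat t₁).2.2.2)) - D * t₁.2.2 := by
        linear_combination (-(D * t₁.2.2)) * hd'
      rw [← e2, ← e1, h1, h2] at k2
      rw [← k1] at k2
      exact mul_left_cancel₀ ha.ne' k2
    exact Prod.ext h1.symm (Prod.ext h3.symm h2.symm)
  rcases lt_or_gt_of_ne D_ne with hD | hD
  · -- `D < 0`
    by_contra hne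
    have hu : u ≠ 0 := fun h => hne (hend h)
    have hDb : D ≤ -36 := by
      have := D_big
      rw [abs_of_neg hD] at this
      linarith
    -- `s > 0`
    have hσ : 0 < t.1 * t₁.1 + D * (t.2.2 * t₁.2.2) := by
      have k1 : (-D * (t.2.2 * t₁.2.2)) ^ 2 < (t.1 * t₁.1) ^ 2 := by
        have k2 : -D * t.2.2 ^ 2 < t.1 ^ 2 := by linarith
        have k3 : -D * t₁.2.2 ^ 2 < t₁.1 ^ 2 := by linarith
        have k4 : 0 ≤ -D * t.2.2 ^ 2 := mul_nonneg (by linarith) (sq_nonneg _)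
        have k5 : 0 ≤ -D * t₁.2.2 ^ 2 := mul_nonneg (by linarith) (sq_nonneg _)
        have k6 : (-D * t.2.2 ^ 2) * (-D * t₁.2.2 ^ 2) < t.1 ^ 2 * t₁.1 ^ 2 :=
          mul_lt_mul'' k2 k3 k4 k5
        calc (-D * (t.2.2 * t₁.2.2)) ^ 2 = (-D * t.2.2 ^ 2) * (-D * t₁.2.2 ^ 2) := by ring
          _ < t.1 ^ 2 * t₁.1 ^ 2 := k6
          _ = _ := by ring
      have k2 : -D * (t.2.2 * t₁.2.2) < t.1 * t₁.1 := lt_of_pow_lt_pow_left₀ 2 (by positivity) k1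
      linarith
    have hs0 : 0 < s := by
      rw [← g4] at hσ
      exact pos_of_mul_pos_right hσ ha.le
    have hs2 : 2 ≤ s := by
      have k1 : 1 ≤ u ^ 2 := by
        have := pow_pos (abs_pos.2 hu) 2
        rw [sq_abs] at this
        omega
      have k2 : D * u ^ 2 ≤ D * 1 := mul_le_mul_of_nonpos_left k1 hD.le
      by_contra hs
      have hs1 : s = 1 := by omega
      rw [hs1] at hsu
      linarith
    -- the two cases
    have hlarge : ∀ x x' : ℤ, (i : ℤ) * n < x → x' ≤ ((i : ℤ) + 1) * n → s * x ≤ x' → False := by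
      intro x x' h1 h2 h3
      have h4 : 2 * x ≤ s * x := mul_le_mul_of_nonneg_right hs2 (by linarith)
      have h5 : ((i : ℤ) + 1) * n = i * n + n := by ring
      linarith
    by_cases hγ : 0 ≤ u * t.2.2
    · apply hlarge t.1 t₁.1 a1 a2'
      have k1 : 0 ≤ -D * (u * t.2.2) := mul_nonneg (by linarith) hγ
      have k2 : s * t.1 - D * u * t.2.2 = s * t.1 + -D * (u * t.2.2) := by ring
      rw [g1, k2]
      linarith
    · have h5 : u * t₁.2.2 ≤ 0 := by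
        by_cases hl : 0 ≤ l
        · have k1 : 0 < t.2.2 := lt_of_le_of_lt (by positivity) c1
          have k2 : 0 < t₁.2.2 := lt_of_le_of_lt (by positivity) c1'
          have k3 : u < 0 := by
            by_contra h
            exact hγ (mul_nonneg (not_lt.1 h) k1.le)
          exact mul_nonpos_of_nonpos_of_nonneg k3.le k2.le
        · have k0 : (l + 1) * (n : ℤ) ≤ 0 :=
            mul_nonpos_of_nonpos_of_nonneg (by omega) hnZ.le
          have k1 : t.2.2 ≤ 0 := c2.trans k0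
          have k2 : t₁.2.2 ≤ 0 := c2'.trans k0
          have k3 : 0 < u := by
            by_contra h
            exact hγ (mul_nonneg_of_nonpos_of_nonpos (not_lt.1 h) k1)
          exact mul_nonpos_of_nonneg_of_nonpos k3.le k2
      apply hlarge t₁.1 t.1 a1' a2
      have k1 : 0 ≤ D * (u * t₁.2.2) := mul_nonneg_of_nonpos_of_nonpos hD.le h5
      have k2 : s * t₁.1 + D * u * t₁.2.2 = s * t₁.1 + D * (u * t₁.2.2) := by ring
      rw [g3, k2]
      linarith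
  · -- `D > 0`
    apply hend
    have hDb : 36 ≤ D := by
      have := D_big
      rw [abs_of_pos hD] at this
      exact this
    by_contra hu
    have k1 : 1 ≤ u ^ 2 := by
      have := pow_pos (abs_pos.2 hu) 2
      rw [sq_abs] at this
      omega
    have k2 : D * 1 ≤ D * u ^ 2 := mul_le_mul_of_nonneg_left k1 hD.le
    have k3 := sq_nonneg s
    linarith

end Pool.Agent.AQ
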