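import Mathlib

/-!
# AQ (MP_892e4c_nt, all quadratic polynomials): the data (helper8)

`g(t) = a0 t² + 2 b0 t + 1` with `a0 = b0² + D`, so `a0 g(t) = (a0 t + b0)² + D`;
`b0 = R m`, `D = R² d`, and `24 d (m² + d) ∣ R`, so that every prime of `6 a0 D` divides `R` and everything
is trivial at the primes of `R`.  All definitions have the data as an instance argument `[Cst]`.
-/

set_option autoImplicit false

namespace Pool.Agent.AQ

/-- the data: the polynomial (`R, m, d`), the end vector `z` and the window `ρ₁ ≤ - b / a ≤ ρ₂` of the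
forms -/
class Cst where
  R : ℕ
  m : ℤ
  d : ℤ
  z : ℤ × ℤ
  ρ₁ : ℝ
  ρ₂ : ℝ
  R_pos : 0 < R
  R_dvd : 24 * d * (m ^ 2 + d) ∣ (R : ℤ)
  md_pos : 0 < m ^ 2 + d
  d_ns : ¬ IsSquare (-d)
  ρ_pos : 0 < ρ₁
  ρ_lt : ρ₁ < ρ₂
  z_cop : IsCoprime z.1 z.2
  z_two : 0 < z.2
  z_unit : IsCoprime z.1 (R : ℤ)
  z_chi : jacobiSym (-d) z.1.natAbs = 1
  z_cone : ρ₂ * (z.2 : ℝ) < (z.1 : ℝ)

variable [Cst]

/-- the modulus of the bad primes -/
def R : ℕ := Cst.R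

/-- the end vector -/
def z : ℤ × ℤ := Cst.z

/-- the forms have `- b / a` in `[ρ₁, ρ₂]` -/
def ρ₁ : ℝ := Cst.ρ₁

def ρ₂ : ℝ := Cst.ρ₂

/-- the determinant `a c - b²` of the forms -/
def D : ℤ := (Cst.R : ℤ) ^ 2 * Cst.d

/-- `b = b0` modulo `a0` -/
def b0 : ℤ := (Cst.R : ℤ) * Cst.m

/-- `a0 = b0² + D` -/
def a0 : ℤ := b0 ^ 2 + D

/-- the good primes with two isotropic lines: `l ∤ R`, `-D` a square modulo `l` -/
def Sp (l : ℕ) : Prop := l.Prime ∧ ¬ l ∣ R ∧ ∃ t : ℤ, (l : ℤ) ∣ t ^ 2 + D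

theorem R_pos : 0 < R := Cst.R_pos

theorem a0_eq : a0 = (R : ℤ) ^ 2 * (Cst.m ^ 2 + Cst.d) := by
  unfold a0 b0 D R; ring

theorem a0_pos : 0 < a0 := by
  rw [a0_eq]
  have h1 : (0 : ℤ) < (R : ℤ) := by exact_mod_cast R_pos
  have := Cst.md_pos
  positivity

theorem z_cop : IsCoprime z.1 z.2 := Cst.z_cop

theorem z_two : 0 < z.2 := Cst.z_two

theorem z_unit : IsCoprime z.1 (R : ℤ) := Cst.z_unit

theorem z_cone : ρ₂ * (z.2 : ℝ) < (z.1 : ℝ) := Cst.z_cone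

theorem ρ_pos : 0 < ρ₁ := Cst.ρ_pos

theorem ρ_lt : ρ₁ < ρ₂ := Cst.ρ_lt

theorem z1_pos : 0 < z.1 := by
  have h1 : (0 : ℝ) < ρ₂ := ρ_pos.trans ρ_lt
  have h2 : (0 : ℝ) < (z.2 : ℝ) := by exact_mod_cast z_two
  have h3 : (0 : ℝ) < (z.1 : ℝ) := (mul_pos h1 h2).trans z_cone
  exact_mod_cast h3

theorem R_dvd_a0 : ((R : ℤ)) ∣ a0 := by
  rw [a0_eq, sq, mul_assoc]; exact dvd_mul_right _ _

theorem R_sq_dvd_a0 : ((R : ℤ)) ^ 2 ∣ a0 := by
  rw [a0_eq]; exact dvd_mul_right _ _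

theorem R_dvd_b0 : ((R : ℤ)) ∣ b0 := dvd_mul_right _ _

theorem R_sq_dvd_D : ((R : ℤ)) ^ 2 ∣ D := dvd_mul_right _ _

theorem R_dvd_D : ((R : ℤ)) ∣ D := (dvd_pow_self _ two_ne_zero).trans R_sq_dvd_D

theorem six_dvd_R : 6 ∣ R := by
  have h1 : (6 : ℤ) ∣ (R : ℤ) := by
    refine Dvd.dvd.trans ?_ (Cst.R_dvd)
    exact ⟨4 * Cst.d * (Cst.m ^ 2 + Cst.d), by ring⟩
  exact_mod_cast h1

theorem two_dvd_R : 2 ∣ R := (by norm_num : 2 ∣ 6).trans six_dvd_R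

theorem three_dvd_R : 3 ∣ R := (by norm_num : 3 ∣ 6).trans six_dvd_R

theorem D_ns : ¬ IsSquare (-D) := by
  rintro ⟨s, hs⟩
  have hR : (R : ℤ) ≠ 0 := by exact_mod_cast R_pos.ne'
  have h1 : (R : ℤ) ^ 2 * (-Cst.d) = s ^ 2 := by
    have : -D = (R : ℤ) ^ 2 * (-Cst.d) := by unfold D R; ring
    rw [← this, hs]; ring
  have h2 : (R : ℤ) ^ 2 ∣ s ^ 2 := ⟨_, h1.symm⟩
  rw [Int.pow_dvd_pow_iff two_ne_zero] at h2
  obtain ⟨t, rfl⟩ := h2
  apply Cst.d_ns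
  refine ⟨t, ?_⟩
  have h3 : (R : ℤ) ^ 2 * (-Cst.d) = (R : ℤ) ^ 2 * t ^ 2 := by rw [h1]; ring
  have h4 := mul_left_cancel₀ (pow_ne_zero 2 hR) h3
  rw [h4]; ring

theorem D_ne : D ≠ 0 := by
  intro h
  exact D_ns ⟨0, by rw [h]; ring⟩

/-- a prime which divides `a0` divides `R` -/
theorem prime_dvd_a0 {l : ℕ} (hl : l.Prime) (h : (l : ℤ) ∣ a0) : l ∣ R := by
  rw [a0_eq] at h
  have hlp : Prime (l : ℤ) := Nat.prime_iff_prime_int.1 hl
  rcases hlp.dvd_or_dvd h with h1 | h1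
  · exact_mod_cast hlp.dvd_of_dvd_pow h1
  · have h2 : (l : ℤ) ∣ (R : ℤ) := by
      refine (h1.trans ?_).trans Cst.R_dvd
      exact dvd_mul_left _ _
    exact_mod_cast h2

/-- a prime which divides `D` divides `R` -/
theorem prime_dvd_D {l : ℕ} (hl : l.Prime) (h : (l : ℤ) ∣ D) : l ∣ R := by
  have hlp : Prime (l : ℤ) := Nat.prime_iff_prime_int.1 hl
  rcases hlp.dvd_or_dvd h with h1 | h1
  · exact_mod_cast hlp.dvd_of_dvd_pow h1
  · have h2 : (l : ℤ) ∣ (R : ℤ) := by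
      refine (h1.trans ?_).trans Cst.R_dvd
      exact ⟨24 * (Cst.m ^ 2 + Cst.d), by ring⟩
    exact_mod_cast h2

/-- coprime to `R` = coprime to `a0` -/
theorem cop_a0_iff {n : ℤ} : IsCoprime n a0 ↔ IsCoprime n (R : ℤ) := by
  constructor
  · intro h
    exact h.of_isCoprime_of_dvd_right R_dvd_a0
  · intro h
    rw [Int.isCoprime_iff_gcd_eq_one] at h ⊢
    by_contra hc
    obtain ⟨p, hp, hpd⟩ := Nat.exists_prime_and_dvd hc
    have h1 : (p : ℤ) ∣ n := (Int.natCast_dvd_natCast.2 hpd).trans (Int.gcd_dvd_left _ _)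
    have h2 : (p : ℤ) ∣ a0 := (Int.natCast_dvd_natCast.2 hpd).trans (Int.gcd_dvd_right _ _)
    have h3 := prime_dvd_a0 hp h2
    have h4 : (p : ℤ) ∣ Int.gcd n (R : ℤ) :=
      Int.dvd_coe_gcd h1 (by exact_mod_cast h3)
    rw [h] at h4
    have h5 : p ∣ 1 := by exact_mod_cast h4
    exact hp.one_lt.ne' (Nat.dvd_one.1 h5)

theorem Sp.prime {l : ℕ} (h : Sp l) : l.Prime := h.1

theorem Sp.ndvd {l : ℕ} (h : Sp l) : ¬ l ∣ R := h.2.1

theorem Sp.two_lt {l : ℕ} (h : Sp l) : 2 < l := by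
  have h1 := h.1.two_le
  have h2 : l ≠ 2 := by
    rintro rfl
    exact h.2.1 two_dvd_R
  omega

theorem Sp.three_lt {l : ℕ} (h : Sp l) : 3 < l := by
  have h1 := h.two_lt
  have h2 : l ≠ 3 := by
    rintro rfl
    exact h.2.1 three_dvd_R
  omega

/-! ### the quadratic character -/

/-- the quadratic character `χ(n) = (-d / n)` -/
def chi (n : ℕ) : ℤ := jacobiSym (-Cst.d) n

theorem z_chi : chi z.1.natAbs = 1 := Cst.z_chi

theorem odd_of_cop {n : ℕ} (h : Nat.Coprime n R) : Odd n := by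
  rw [← Nat.not_even_iff_odd]
  intro h2
  have h3 : 2 ∣ Nat.gcd n R := Nat.dvd_gcd h2.two_dvd two_dvd_R
  rw [h] at h3
  omega

theorem four_d_dvd_R : 4 * (-Cst.d).natAbs ∣ R := by
  have h1 : (4 * (-Cst.d).natAbs : ℤ) ∣ (R : ℤ) := by
    refine Dvd.dvd.trans ?_ Cst.R_dvd
    have h2 : ((-Cst.d).natAbs : ℤ) ∣ Cst.d := by
      rw [Int.natAbs_neg, Int.natAbs_dvd]
    obtain ⟨e, he⟩ := h2
    refine ⟨6 * e * (Cst.m ^ 2 + Cst.d), ?_⟩
    calc 24 * Cst.d * (Cst.m ^ 2 + Cst.d) = 24 * ((((-Cst.d).natAbs : ℤ)) * e) *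
          (Cst.m ^ 2 + Cst.d) := by rw [← he]
      _ = _ := by ring
  exact_mod_cast h1

/-- `χ` depends only on the class modulo `R` -/
theorem chi_congr {n n' : ℕ} (h : Nat.Coprime n R) (h' : Nat.Coprime n' R)
    (hm : n ≡ n' [MOD R]) : chi n = chi n' := by
  unfold chi
  rw [jacobiSym.mod_right _ (odd_of_cop h), jacobiSym.mod_right _ (odd_of_cop h')]
  have h1 : n ≡ n' [MOD (4 * (-Cst.d).natAbs)] := hm.of_dvd four_d_dvd_R
  rw [h1]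

theorem chi_mul {n n' : ℕ} (h : 0 < n) (h' : 0 < n') : chi (n * n') = chi n * chi n' := by
  haveI : NeZero n := ⟨h.ne'⟩
  haveI : NeZero n' := ⟨h'.ne'⟩
  exact jacobiSym.mul_right _ _ _

theorem sp_iff {l : ℕ} (hl : l.Prime) (hR : ¬ l ∣ R) : Sp l ↔ chi l = 1 := by
  haveI : Fact l.Prime := ⟨hl⟩
  have hlp : Prime (l : ℤ) := Nat.prime_iff_prime_int.1 hl
  have hRl : ((R : ℤ) : ZMod l) ≠ 0 := by
    intro h
    rw [ZMod.intCast_zmod_eq_zero_iff_dvd] at h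
    exact hR (by exact_mod_cast h)
  have hd : ¬ (l : ℤ) ∣ Cst.d := by
    intro h
    exact hR (prime_dvd_D hl (h.mul_left _))
  have hd' : ((-Cst.d : ℤ) : ZMod l) ≠ 0 := by
    intro h
    rw [ZMod.intCast_zmod_eq_zero_iff_dvd] at h
    exact hd ((dvd_neg).1 h)
  have h1 : chi l = 1 ↔ IsSquare ((-Cst.d : ℤ) : ZMod l) := by
    unfold chi
    rw [← jacobiSym.legendreSym.to_jacobiSym]
    exact legendreSym.eq_one_iff l hd'
  rw [h1]
  constructor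
  · rintro ⟨_, _, t, ht⟩
    have h2 : ((t : ZMod l)) ^ 2 + ((D : ℤ) : ZMod l) = 0 := by
      have := (ZMod.intCast_zmod_eq_zero_iff_dvd _ l).2 ht
      push_cast at this
      exact this
    have h3 : ((D : ℤ) : ZMod l) = ((R : ℤ) : ZMod l) ^ 2 * ((Cst.d : ℤ) : ZMod l) := by
      unfold D R; push_cast; ring
    refine ⟨(t : ZMod l) * (((R : ℤ) : ZMod l))⁻¹, ?_⟩
    have h4 : ((t : ZMod l)) ^ 2 = ((R : ℤ) : ZMod l) ^ 2 * ((-Cst.d : ℤ) : ZMod l) := by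
      rw [h3] at h2
      push_cast at h2 ⊢
      linear_combination h2
    calc ((-Cst.d : ℤ) : ZMod l) = ((R : ℤ) : ZMod l) ^ 2 * ((-Cst.d : ℤ) : ZMod l) *
          ((((R : ℤ) : ZMod l))⁻¹) ^ 2 := by
            field_simp
      _ = _ := by rw [← h4]; ring
  · rintro ⟨s, hs⟩
    refine ⟨hl, hR, (R : ℤ) * (s.val : ℤ), ?_⟩
    rw [← ZMod.intCast_zmod_eq_zero_iff_dvd]
    have h3 : ((D : ℤ) : ZMod l) = ((R : ℤ) : ZMod l) ^ 2 * ((Cst.d : ℤ) : ZMod l) := by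
      unfold D R; push_cast; ring
    have h4 : ((s.val : ℤ) : ZMod l) = s := by
      rw [Int.cast_natCast]
      exact ZMod.natCast_zmod_val s
    push_cast at h3 h4 hs ⊢
    rw [h3, h4]
    linear_combination -((R : ZMod l) ^ 2 * hs)

/-- the lower bound for `P00`: larger than `R`, `z` and `100 (k + 1)²` -/
def pB (k : ℕ) : ℕ := 100 * (k + 1) ^ 2 + R + a0.natAbs + z.1.natAbs + z.2.natAbs

end Pool.Agent.AQ
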