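import Pool.Agent.Lib_helper8.AQ.NCDefs
import Pool.Agent.Lib_helper97.PATH.Frame

/-!
# AQ: the path identity, the families, the rigidity (helper8; port of helper97's PATH/Frame)
-/

set_option autoImplicit false

namespace Pool.Agent.AQ

open Finset Pool.Agent.PENT
open Pool.Agent.PATH (Pth)

variable [Cst]

/-- `|M² + D|` -/
def vD (n : ℕ) : ℕ := ((n : ℤ) ^ 2 + D).natAbs

/-- good paths -/
structure Good {k : ℕ} (τ : Pth k) : Prop where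
  disc : τ.a * τ.c - τ.b ^ 2 = D
  ne : ∀ j, τ.d j ≠ 0
  d1 : ∀ j : Fin k, τ.d j ∣ τ.q j.castSucc
  d2 : ∀ j : Fin k, τ.d j ∣ τ.q j.succ

/-- the form of a path -/
def frm {k : ℕ} (τ : Pth k) : ℤ × ℤ × ℤ := (τ.a, τ.b, τ.c)

/-- a weighted family of good paths from `(1, 0)` to `z` over the forms of `O` -/
structure Fam (k X : ℕ) (O : Finset (ℤ × ℤ × ℤ)) (δ C K η : ℝ) (s : Finset (Pth k))
    (w : Pth k → ℝ) : Prop where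
  good : ∀ τ ∈ s, Good τ
  first : ∀ τ ∈ s, τ.u 0 = (1, 0)
  last : ∀ τ ∈ s, τ.u (Fin.last k) = z
  mem : ∀ τ ∈ s, frm τ ∈ O
  w0 : ∀ τ, 0 ≤ w τ
  n1 : ∀ τ ∈ s, ∀ j, 1 ≤ τ.n j ∧ (τ.n j : ℝ) ≤ C * X
  cls : ∀ τ ∈ s, ∀ j, a0 ∣ (τ.n j : ℤ) - b0
  near : ((O.filter (fun y => wb s w frm y < 1 / 2)).card : ℝ) ≤ δ * X
  marg : ∀ (j : Fin k) (E : Finset ℕ), ∑ n ∈ E, mar s w (fun τ => τ.n j) n ^ (1 + η) ≤ K * X

/-- covering families over a box (what NC proves) -/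
def FamB (i : ℕ) (j l : ℤ) (δ : ℝ) : Prop := ∃ (k : ℕ) (C K η : ℝ), 0 < k ∧ Even k ∧ 0 < K ∧
  0 < η ∧ ∃ n₀ : ℕ, ∀ n ≥ n₀, ∃ (s : Finset (Pth k)) (w : Pth k → ℝ),
    Fam k (n ^ 2) (NC.BO i j l n) δ C K η s w

/-- **the rigidity over a box** (the output of Part I): if one value `σ` of `h(|M² + D|)`, `M = b0` modulo
`a0`, is rare, then `h(a) = h(Q(z))` for almost all forms of the box -/
def PTB (i : ℕ) (j l : ℤ) (δ : ℝ) : Prop := ∃ (c : ℝ) (N n₀ : ℕ), 0 < c ∧ ∀ h : ℕ → ℤ, CM h →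
  ∀ n ≥ n₀, ∀ σ : ℤ, (σ = 1 ∨ σ = -1) →
    (((Icc 1 (N * n ^ 2)).filter (fun M : ℕ => a0 ∣ (M : ℤ) - b0 ∧ h (vD M) = σ)).card : ℝ) <
      c * (n : ℝ) ^ 2 →
    (((NC.BO i j l n).filter (fun q => h q.1.natAbs ≠ h (NC.fv q z).natAbs)).card : ℝ) ≤
      δ * (n : ℝ) ^ 2

end Pool.Agent.AQ
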