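import Pool.Agent.Lib_helper8.AQ.Rare
import Pool.Agent.Lib_helper97.AQ.Final

/-!
# AQ: the main theorem from the normal form (helper8)
-/

set_option autoImplicit false

namespace Pool.Agent.AQ

open Finset Pool.Agent.PENT

theorem main_of_not_rare (hNR : ∀ (c : Cst) (h : ℕ → ℤ), CM h → ¬ @Rare c h) : MainAQ := by
  intro a b c ha hns h hh n₀ h0
  obtain ⟨κ, x₀, hκ, h1⟩ := posD_of_not_rare hNR ha hns (n0 := n₀) h0 hh
  exact ⟨κ, hκ, x₀, h1⟩

end Pool.Agent.AQ
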