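import Pool.Agent.Lib_helper8.AQ.Frame
import Pool.Agent.Lib_helper8.AQ.BxInj

/-!
# AQ: pairs of elements with a small determinant (helper8)

The covering of the pairs of primitive elements `w, w'` (of a compact region, coprime to `R`, of the same
value of `χ`) with a bounded determinant by finitely many boxes of matrices and end vectors.  `PairsE.lean`:
if one value of `h(|M² + D|)`, `M = b0` modulo `a0`, is rare, then `h(N w) = h(N w')` for almost all pairs.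
-/

set_option autoImplicit false

namespace Pool.Agent.AQ

open Finset Pool.Agent.PENT Pool.Agent.PENT.EQ

/-- the same polynomial with another end vector and another window -/
@[reducible] def alt [c : Cst] (z : ℤ × ℤ) (ρ₁ ρ₂ : ℝ) (h1 : 0 < ρ₁) (h2 : ρ₁ < ρ₂) (h3 : IsCoprime z.1 z.2)
    (h4 : 0 < z.2) (h5 : IsCoprime z.1 (c.R : ℤ)) (h6 : jacobiSym (-c.d) z.1.natAbs = 1)
    (h7 : ρ₂ * (z.2 : ℝ) < (z.1 : ℝ)) : Cst :=
  { c with
    z := z
    ρ₁ := ρ₁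
    ρ₂ := ρ₂
    ρ_pos := h1
    ρ_lt := h2
    z_cop := h3
    z_two := h4
    z_unit := h5
    z_chi := h6
    z_cone := h7 }

variable [Cst]

/-- the norm `x² + D y²` -/
def fN (w : ℤ × ℤ) : ℤ := w.1 ^ 2 + D * w.2 ^ 2

/-- a compact region, scaled -/
noncomputable def Rg (C Y : ℝ) : Finset (ℤ × ℤ) :=
  ((Icc (1 : ℤ) ⌊C * √Y⌋) ×ˢ (Icc (-⌊C * √Y⌋) ⌊C * √Y⌋)).filter
    (fun w => √Y ≤ C * (w.1 : ℝ) ∧ Y ≤ C * (fN w : ℝ))

/-- the rigidity of a box with the end vector `z` -/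
def PTn (i : ℕ) (j l : ℤ) (z : ℤ × ℤ) (δ c : ℝ) (N n₀ : ℕ) : Prop := ∀ h : ℕ → ℤ, CM h →
  ∀ n ≥ n₀, ∀ σ : ℤ, (σ = 1 ∨ σ = -1) →
    (((Icc 1 (N * n ^ 2)).filter (fun M : ℕ => a0 ∣ (M : ℤ) - b0 ∧ h (vD M) = σ)).card : ℝ) <
      c * (n : ℝ) ^ 2 →
    (((NC.BO i j l n).filter (fun q => h q.1.natAbs ≠ h (NC.fv q z).natAbs)).card : ℝ) ≤
      δ * (n : ℝ) ^ 2

theorem PTn.mono {i : ℕ} {j l : ℤ} {z : ℤ × ℤ} {δ c c' : ℝ} {N N' n₀ n₀' : ℕ}
    (h : PTn i j l z δ c N n₀) (hc : c' ≤ c) (hN : N ≤ N') (hn : n₀ ≤ n₀') :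
    PTn i j l z δ c' N' n₀' := by
  intro g hg n hn' σ hσ hE
  apply h g hg n (hn.trans hn') σ hσ
  refine lt_of_le_of_lt ?_ (lt_of_lt_of_le hE ?_)
  · have h1 : (Icc 1 (N * n ^ 2)).filter (fun M : ℕ => a0 ∣ (M : ℤ) - b0 ∧ g (vD M) = σ) ⊆
        (Icc 1 (N' * n ^ 2)).filter (fun M : ℕ => a0 ∣ (M : ℤ) - b0 ∧ g (vD M) = σ) := by
      apply filter_subset_filter
      exact Icc_subset_Icc le_rfl (Nat.mul_le_mul_right _ hN)
    exact_mod_cast card_le_card h1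
  · exact mul_le_mul_of_nonneg_right hc (by positivity)

/-- the indices for which there is an admissible window -/
structure IOk (x y : ℤ) (i : ℕ) (j l : ℤ) : Prop where
  x0 : 0 < x
  y0 : 0 < y
  cop : IsCoprime x y
  cR : IsCoprime x (R : ℤ)
  ch : chi x.natAbs = 1
  i2 : 2 ≤ i
  j2 : j + 1 < 0
  w : -j * y < x * i
  pos : ∀ g : ℝ, (l : ℝ) ≤ g → g ≤ (l : ℝ) + 1 → 1 < (i : ℝ) ^ 2 + (D : ℝ) * g ^ 2

theorem ptn_of_iok (hP : ∀ (c : Cst) (i : ℕ) (j l : ℤ), @NC.BxOk c i j l → ∀ δ : ℝ, 0 < δ →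
    @PTB c i j l δ) {x y : ℤ} {i : ℕ} {j l : ℤ} (hI : IOk x y i j l) {δ : ℝ} (hδ : 0 < δ) :
    ∃ (c : ℝ) (N n₀ : ℕ), 0 < c ∧ PTn i j l (x, y) δ c N n₀ := by
  have hi : (0 : ℝ) < (i : ℝ) := by exact_mod_cast (by have := hI.i2; omega : 0 < i)
  have hy : (0 : ℝ) < (y : ℝ) := by exact_mod_cast hI.y0
  have hj : (1 : ℝ) ≤ -((j : ℝ) + 1) := by
    have h1 : (1 : ℤ) ≤ -(j + 1) := by have := hI.j2; omega
    have h2 : ((1 : ℤ) : ℝ) ≤ ((-(j + 1) : ℤ) : ℝ) := by exact_mod_cast h1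
    push_cast at h2
    linarith
  have hw : -(j : ℝ) * y < (x : ℝ) * i := by exact_mod_cast hI.w
  have hw' : -(j : ℝ) / i < (x : ℝ) / y := by
    rw [div_lt_div_iff₀ hi hy]
    exact hw
  set r₁ : ℝ := -((j : ℝ) + 1) / (2 * ((i : ℝ) + 1)) with hr1
  set r₂ : ℝ := (-(j : ℝ) / i + (x : ℝ) / y) / 2 with hr2
  have h1 : 0 < r₁ := by
    rw [hr1]
    apply div_pos (by linarith) (by positivity)
  have h12 : r₁ < -(j : ℝ) / i := by
    rw [hr1, div_lt_div_iff₀ (by positivity) hi]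
    have h3 : 0 < (-(j : ℝ)) * ((i : ℝ) + 2) := mul_pos (by linarith) (by linarith)
    have h4 : -(j : ℝ) * (2 * ((i : ℝ) + 1)) = (-(j : ℝ)) * i + (-(j : ℝ)) * ((i : ℝ) + 2) := by
      ring
    have h5 : -((j : ℝ) + 1) * i = (-(j : ℝ)) * i - i := by ring
    rw [h4, h5]
    linarith
  have h2 : r₁ < r₂ := by rw [hr2]; linarith
  have h7 : r₂ * (y : ℝ) < (x : ℝ) := by
    have h3 : r₂ < (x : ℝ) / y := by rw [hr2]; linarith
    rw [lt_div_iff₀ hy] at h3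
    exact h3
  have hbox : @NC.BxOk (alt (x, y) r₁ r₂ h1 h2 hI.cop hI.y0 hI.cR hI.ch h7) i j l := by
    refine @NC.BxOk.mk (alt (x, y) r₁ r₂ h1 h2 hI.cop hI.y0 hI.cR hI.ch h7) i j l hI.i2 hI.pos
      ?_ ?_
    · show r₁ * ((i : ℝ) + 1) < -((j : ℝ) + 1)
      rw [hr1]
      have h3 : -((j : ℝ) + 1) / (2 * ((i : ℝ) + 1)) * ((i : ℝ) + 1) = -((j : ℝ) + 1) / 2 := by
        field_simp
      rw [h3]
      linarith
    · show -(j : ℝ) < r₂ * (i : ℝ)
      have h3 : -(j : ℝ) / i < r₂ := by rw [hr2]; linarith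
      rw [div_lt_iff₀ hi] at h3
      exact h3
  obtain ⟨c, N, n₀, hc, h⟩ := hP _ i j l hbox δ hδ
  exact ⟨c, N, n₀, hc, h⟩

/-- common constants -/
theorem ptn_all (hP : ∀ (c : Cst) (i : ℕ) (j l : ℤ), @NC.BxOk c i j l → ∀ δ : ℝ, 0 < δ →
    @PTB c i j l δ) (I : Finset (ℤ × ℤ × ℕ × ℤ × ℤ)) {δ : ℝ} (hδ : 0 < δ) :
    ∃ (c : ℝ) (N n₀ : ℕ), 0 < c ∧ ∀ t ∈ I, IOk t.1 t.2.1 t.2.2.1 t.2.2.2.1 t.2.2.2.2 →
      PTn t.2.2.1 t.2.2.2.1 t.2.2.2.2 (t.1, t.2.1) δ c N n₀ := by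
  classical
  induction I using Finset.induction_on with
  | empty => exact ⟨1, 0, 0, one_pos, fun t ht => absurd ht (by simp)⟩
  | insert t I _ ih =>
    obtain ⟨c, N, n₀, hc, h⟩ := ih
    by_cases hI : IOk t.1 t.2.1 t.2.2.1 t.2.2.2.1 t.2.2.2.2
    · obtain ⟨c', N', n₀', hc', h'⟩ := ptn_of_iok hP hI hδ
      refine ⟨min c c', max N N', max n₀ n₀', lt_min hc hc', ?_⟩
      intro s hs hs'
      rw [mem_insert] at hs
      rcases hs with rfl | hs
      · exact h'.mono (min_le_right _ _) (le_max_right _ _) (le_max_right _ _)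
      · exact (h s hs hs').mono (min_le_left _ _) (le_max_left _ _) (le_max_left _ _)
    · refine ⟨c, N, n₀, hc, ?_⟩
      intro s hs hs'
      rw [mem_insert] at hs
      rcases hs with rfl | hs
      · exact absurd hs' hI
      · exact h s hs hs'

/-- the second basis vector in `J`, with `- b / a` in `[1, 1 + a0)` -/
theorem exists_e {w : ℤ × ℤ} (hp : IsCoprime w.1 w.2) (hr : IsCoprime w.1 (R : ℤ))
    (ha : 0 < fN w) : ∃ e : ℤ × ℤ, dt w e = 1 ∧ e.1 % a0 = b0 * e.2 % a0 ∧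
      fN w ≤ -(w.1 * e.1 + D * (w.2 * e.2)) ∧
      -(w.1 * e.1 + D * (w.2 * e.2)) < (1 + a0) * fN w := by
  obtain ⟨s, t, hst⟩ := hp
  have ha0 := a0_pos
  -- `w.1 - b0 w.2` is a unit modulo `a0`
  have hu : IsCoprime (w.1 - b0 * w.2) a0 := by
    rw [cop_a0_iff]
    obtain ⟨q, hq⟩ := R_dvd_b0
    have h1 : w.1 - b0 * w.2 = w.1 + (R : ℤ) * (-q * w.2) := by rw [hq]; ring
    rw [h1]
    exact IsCoprime.add_mul_left_left hr _
  obtain ⟨p, q, hpq⟩ := hu
  -- first solution: `e0 = (-t, s)`; add `r w` with `r = - p (e0.1 - b0 e0.2)`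
  set r : ℤ := -p * (-t - b0 * s) with hrdef
  set e1 : ℤ × ℤ := (-t + r * w.1, s + r * w.2) with he1
  have hd1 : dt w e1 = 1 := by
    unfold dt
    rw [he1]
    linear_combination hst
  have hJ1 : a0 ∣ e1.1 - b0 * e1.2 := by
    refine ⟨q * (-t - b0 * s), ?_⟩
    rw [he1, hrdef]
    linear_combination -(-t - b0 * s) * hpq
  set b1 : ℤ := w.1 * e1.1 + D * (w.2 * e1.2) with hb1
  set m : ℤ := a0 * fN w with hm
  have hmpos : 0 < m := mul_pos ha0 ha
  set s1 : ℤ := (-b1 - fN w) / m with hs1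
  have hdiv := Int.emod_add_mul_ediv (-b1 - fN w) m
  have hr0 := Int.emod_nonneg (-b1 - fN w) hmpos.ne'
  have hr1 := Int.emod_lt_of_pos (-b1 - fN w) hmpos
  refine ⟨(e1.1 + a0 * s1 * w.1, e1.2 + a0 * s1 * w.2), ?_, ?_, ?_, ?_⟩
  · unfold dt at hd1 ⊢
    linear_combination hd1
  · apply Int.emod_eq_emod_iff_emod_sub_eq_zero.2
    apply Int.emod_eq_zero_of_dvd
    have e : e1.1 + a0 * s1 * w.1 - b0 * (e1.2 + a0 * s1 * w.2) =
        (e1.1 - b0 * e1.2) + a0 * (s1 * w.1 - b0 * s1 * w.2) := by ring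
    show a0 ∣ e1.1 + a0 * s1 * w.1 - b0 * (e1.2 + a0 * s1 * w.2)
    rw [e]
    exact dvd_add hJ1 (dvd_mul_right _ _)
  · have e : w.1 * (e1.1 + a0 * s1 * w.1) + D * (w.2 * (e1.2 + a0 * s1 * w.2)) =
        b1 + m * s1 := by
      rw [hb1, hm]; unfold fN; ring
    show fN w ≤ -(w.1 * (e1.1 + a0 * s1 * w.1) + D * (w.2 * (e1.2 + a0 * s1 * w.2)))
    rw [e]
    linarith
  · have e : w.1 * (e1.1 + a0 * s1 * w.1) + D * (w.2 * (e1.2 + a0 * s1 * w.2)) =
        b1 + m * s1 := by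
      rw [hb1, hm]; unfold fN; ring
    show -(w.1 * (e1.1 + a0 * s1 * w.1) + D * (w.2 * (e1.2 + a0 * s1 * w.2))) <
      (1 + a0) * fN w
    rw [e]
    have h1 : (1 + a0) * fN w = fN w + m := by rw [hm]; ring
    rw [h1]
    linarith

omit [Cst] in
/-- the coordinates of a point in the grid of boxes -/
theorem boxc (a : ℤ) {n : ℕ} (hn : 0 < n) :
    ((a - 1) / (n : ℤ)) * n < a ∧ a ≤ ((a - 1) / (n : ℤ) + 1) * n := by
  have hn' : (0 : ℤ) < (n : ℤ) := by exact_mod_cast hn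
  have h1 := Int.emod_add_mul_ediv (a - 1) n
  have h2 := Int.emod_nonneg (a - 1) hn'.ne'
  have h3 := Int.emod_lt_of_pos (a - 1) hn'
  constructor
  · nlinarith
  · nlinarith

omit [Cst] in
/-- the estimates for a pair -/
theorem pair_est {C H S : ℝ} (hC : 1 ≤ C) (hH : 1 ≤ H) (hS : 0 < S)
    {α γ α' β a b y P x A d a₀ : ℝ} (hA : A = 1 + |d|) (ha₀ : 0 < a₀)
    (h1 : S ≤ C * α) (h2 : α ≤ C * S) (h3 : |γ| ≤ C * S) (h4 : S ^ 2 ≤ C * a)
    (hav : a = α ^ 2 + d * γ ^ 2) (h1' : S ≤ C * α') (h2' : α' ≤ C * S)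
    (hy0 : 0 < y) (hyH : y ≤ H) (hP : α * P = α' * a + d * (γ * y))
    (hx : a * x = P + y * (-b)) (hb1 : a ≤ -b) (hb2 : -b < (1 + a₀) * a)
    (hβ : a * β = α * b - d * γ) (hS1 : 2 * |d| * C ^ 3 * H + H < S ^ 2) :
    0 < a ∧ 0 < x ∧ x ≤ 2 * A * C ^ 5 + H * (1 + a₀) ∧ α ≤ 2 * -β ∧ -β ≤ (2 + a₀) * α := by
  have hd := abs_nonneg d
  have hα : 0 < α := by
    by_contra h
    have : C * α ≤ 0 := mul_nonpos_of_nonneg_of_nonpos (by linarith) (not_lt.1 h)
    linarith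
  have hα' : 0 < α' := by
    by_contra h
    have : C * α' ≤ 0 := mul_nonpos_of_nonneg_of_nonpos (by linarith) (not_lt.1 h)
    linarith
  have hCS : 0 < C * S := by positivity
  have ha : 0 < a := by
    by_contra h
    have : C * a ≤ 0 := mul_nonpos_of_nonneg_of_nonpos (by linarith) (not_lt.1 h)
    have : 0 < S ^ 2 := by positivity
    linarith
  have hC3 : (1 : ℝ) ≤ C ^ 3 := one_le_pow₀ hC
  -- `|d γ| ≤ |d| C S`
  have hdγ : |d * γ| ≤ |d| * (C * S) := by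
    rw [abs_mul]; exact mul_le_mul_of_nonneg_left h3 hd
  have hdγ1 := neg_abs_le (d * γ)
  have hdγ2 := le_abs_self (d * γ)
  -- `S ^ 3 ≤ C ^ 2 * (α * a)`, the same for `α'`
  have hS3 : ∀ t : ℝ, S ≤ C * t → S ^ 3 ≤ C ^ 2 * (t * a) := by
    intro t ht
    have h5 : S * S ^ 2 ≤ (C * t) * (C * a) := by
      apply mul_le_mul ht h4 (by positivity)
      linarith
    calc S ^ 3 = S * S ^ 2 := by ring
      _ ≤ (C * t) * (C * a) := h5
      _ = _ := by ring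
  have hαa := hS3 α h1
  have hα'a := hS3 α' h1'
  -- `C ^ 2 * (|d| C S H) < S ^ 3 / 2`
  have hsm : C ^ 2 * (|d| * (C * S) * H) * 2 < S ^ 3 := by
    have h5 : S * (2 * |d| * C ^ 3 * H + H) < S * S ^ 2 := mul_lt_mul_of_pos_left hS1 hS
    have h6 : 0 < S * H := mul_pos hS (lt_of_lt_of_le one_pos hH)
    calc C ^ 2 * (|d| * (C * S) * H) * 2 = S * (2 * |d| * C ^ 3 * H + H) - S * H := by ring
      _ < S * S ^ 2 := by linarith
      _ = S ^ 3 := by ring
  have hC2 : 0 < C ^ 2 := by positivity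
  -- P is positive
  have hdγy : |d * (γ * y)| ≤ |d| * (C * S) * H := by
    have h5 : d * (γ * y) = (d * γ) * y := by ring
    rw [h5, abs_mul, abs_of_pos hy0]
    exact mul_le_mul hdγ hyH hy0.le (by positivity)
  have hdγy1 := neg_abs_le (d * (γ * y))
  have hdγy2 := le_abs_self (d * (γ * y))
  have hPpos : 0 < P := by
    have h5 : 0 < α * P := by
      rw [hP]
      have h6 : C ^ 2 * (|d| * (C * S) * H) < C ^ 2 * (α' * a) := by
        have : 0 ≤ C ^ 2 * (|d| * (C * S) * H) := by positivity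
        linarith
      have h7 : |d| * (C * S) * H < α' * a := lt_of_mul_lt_mul_left h6 hC2.le
      linarith
    exact pos_of_mul_pos_right h5 hα.le
  have hxpos : 0 < x := by
    have h5 : 0 < a * x := by
      rw [hx]
      have : 0 < y * -b := mul_pos hy0 (by linarith)
      linarith
    exact pos_of_mul_pos_right h5 ha.le
  -- the upper bound of `a`
  have haA : a ≤ A * C ^ 2 * S ^ 2 := by
    rw [hav, hA]
    have h5 : α ^ 2 ≤ C ^ 2 * S ^ 2 := by
      rw [← mul_pow]; exact pow_le_pow_left₀ hα.le h2 2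
    have h6 : γ ^ 2 ≤ C ^ 2 * S ^ 2 := by
      rw [← mul_pow, ← sq_abs]; exact pow_le_pow_left₀ (abs_nonneg _) h3 2
    have h7 : d * γ ^ 2 ≤ |d| * (C ^ 2 * S ^ 2) := by
      calc d * γ ^ 2 ≤ |d| * γ ^ 2 := mul_le_mul_of_nonneg_right (le_abs_self _) (sq_nonneg _)
        _ ≤ _ := mul_le_mul_of_nonneg_left h6 hd
    linarith
  have hA1 : 1 ≤ A := by rw [hA]; linarith
  -- the upper bound of `P`
  have hPle : P ≤ 2 * A * C ^ 5 * a := by
    have h5 : α * P ≤ 2 * A * C ^ 3 * S ^ 3 := by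
      rw [hP]
      have h6 : α' * a ≤ (C * S) * (A * C ^ 2 * S ^ 2) :=
        mul_le_mul h2' haA ha.le hCS.le
      have h7 : |d| * (C * S) * H ≤ A * C ^ 3 * S ^ 3 := by
        have h8 : |d| * (C * S) * H ≤ C ^ 2 * (|d| * (C * S) * H) * 2 := by
          have h9 : 0 ≤ |d| * (C * S) * H := by positivity
          have h10 : (1 : ℝ) ≤ C ^ 2 * 2 := by
            have := one_le_pow₀ (n := 2) hC
            linarith
          calc |d| * (C * S) * H ≤ (C ^ 2 * 2) * (|d| * (C * S) * H) :=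
                le_mul_of_one_le_left h9 h10
            _ = _ := by ring
        have h9 : S ^ 3 ≤ A * C ^ 3 * S ^ 3 :=
          le_mul_of_one_le_left (by positivity) (one_le_mul_of_one_le_of_one_le hA1 hC3)
        linarith
      calc α' * a + d * (γ * y) ≤ (C * S) * (A * C ^ 2 * S ^ 2) + A * C ^ 3 * S ^ 3 := by linarith
        _ = _ := by ring
    have h6 : S * P ≤ C * (α * P) := by
      calc S * P ≤ (C * α) * P := mul_le_mul_of_nonneg_right h1 hPpos.le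
        _ = _ := by ring
    have h7 : S * P ≤ S * (2 * A * C ^ 4 * S ^ 2) := by
      calc S * P ≤ C * (α * P) := h6
        _ ≤ C * (2 * A * C ^ 3 * S ^ 3) := mul_le_mul_of_nonneg_left h5 (by linarith)
        _ = _ := by ring
    have h8 : P ≤ 2 * A * C ^ 4 * S ^ 2 := le_of_mul_le_mul_left h7 hS
    calc P ≤ 2 * A * C ^ 4 * S ^ 2 := h8
      _ ≤ 2 * A * C ^ 4 * (C * a) := mul_le_mul_of_nonneg_left h4 (by positivity)
      _ = _ := by ring
  refine ⟨ha, hxpos, ?_, ?_, ?_⟩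
  · have h5 : a * x ≤ a * (2 * A * C ^ 5 + H * (1 + a₀)) := by
      rw [hx]
      have h6 : y * -b ≤ H * ((1 + a₀) * a) :=
        mul_le_mul hyH hb2.le (by linarith) (by linarith)
      calc P + y * -b ≤ 2 * A * C ^ 5 * a + H * ((1 + a₀) * a) := by linarith
        _ = _ := by ring
    exact le_of_mul_le_mul_left h5 ha
  · -- `a (-β) ≥ a α / 2`
    have hsm1 : |d| * (C * S) * 2 ≤ α * a := by
      have h6 : C ^ 2 * (|d| * (C * S) * 2) ≤ C ^ 2 * (α * a) := by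
        have h7 : C ^ 2 * (|d| * (C * S) * 2) ≤ C ^ 2 * (|d| * (C * S) * H) * 2 := by
          have h8 : 0 ≤ C ^ 2 * (|d| * (C * S)) * 2 := by positivity
          have h9 := le_mul_of_one_le_right h8 hH
          have h10 : C ^ 2 * (|d| * (C * S)) * 2 * H = C ^ 2 * (|d| * (C * S) * H) * 2 := by ring
          linarith
        linarith
      exact le_of_mul_le_mul_left h6 hC2
    have h5 : a * α ≤ a * (2 * -β) := by
      have h6 : a * (2 * -β) = 2 * (α * -b) + 2 * (d * γ) := by linear_combination (-2) * hβ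
      have h7 : α * a ≤ α * -b := mul_le_mul_of_nonneg_left hb1 hα.le
      rw [h6]
      linarith
    exact le_of_mul_le_mul_left h5 ha
  · have hsm1 : |d| * (C * S) * 2 ≤ α * a := by
      have h6 : C ^ 2 * (|d| * (C * S) * 2) ≤ C ^ 2 * (α * a) := by
        have h7 : C ^ 2 * (|d| * (C * S) * 2) ≤ C ^ 2 * (|d| * (C * S) * H) * 2 := by
          have h8 : 0 ≤ C ^ 2 * (|d| * (C * S)) * 2 := by positivity
          have h9 := le_mul_of_one_le_right h8 hH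
          have h10 : C ^ 2 * (|d| * (C * S)) * 2 * H = C ^ 2 * (|d| * (C * S) * H) * 2 := by ring
          linarith
        linarith
      exact le_of_mul_le_mul_left h6 hC2
    have h5 : a * -β ≤ a * ((2 + a₀) * α) := by
      have h6 : a * -β = α * -b + d * γ := by linear_combination (-1) * hβ
      have h7 : α * -b ≤ α * ((1 + a₀) * a) := mul_le_mul_of_nonneg_left hb2.le hα.le
      have h8 : 0 ≤ |d| * (C * S) := by positivity
      have h9 : a * ((2 + a₀) * α) = α * ((1 + a₀) * a) + α * a := by ring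
      rw [h6, h9]
      linarith
    exact le_of_mul_le_mul_left h5 ha

omit [Cst] in
/-- the positivity on the closed box -/
theorem box_pos {C S K α γ a d i l n g : ℝ} (hC : 1 ≤ C) (hS : 0 < S) (hn : 0 < n)
    (hKn : K * n ≤ S) (hK : 2 * C * (2 * C + |d| * (2 * C + 1)) + 2 * C ≤ K)
    (h2 : α ≤ C * S) (h3 : |γ| ≤ C * S) (h4 : S ^ 2 ≤ C * a)
    (hav : a = α ^ 2 + d * γ ^ 2) (hi1 : i * n < α) (hi2 : α ≤ (i + 1) * n) (hα : n < α)
    (hl1 : l * n < γ) (hl2 : γ ≤ (l + 1) * n) (hg1 : l ≤ g) (hg2 : g ≤ l + 1) :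
    1 < i ^ 2 + d * g ^ 2 := by
  have hd := abs_nonneg d
  have hK1 : 1 ≤ K := by
    have h5 : 0 ≤ 2 * C * (2 * C + |d| * (2 * C + 1)) := by positivity
    linarith
  have hnS : n ≤ S := (le_mul_of_one_le_left hn.le hK1).trans hKn
  have e1 : (α - n) ^ 2 ≤ (i * n) ^ 2 := by
    apply pow_le_pow_left₀ (by linarith)
    linarith
  have hgn : |g * n - γ| ≤ n := by
    rw [abs_le]
    have h5 : l * n ≤ g * n := mul_le_mul_of_nonneg_right hg1 hn.le
    have h6 : g * n ≤ (l + 1) * n := mul_le_mul_of_nonneg_right hg2 hn.le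
    have h7 : (l + 1) * n = l * n + n := by ring
    rw [h7] at h6 hl2
    constructor <;> linarith
  have hgn2 : |g * n + γ| ≤ 2 * (C * S) + n := by
    have h5 : g * n + γ = (g * n - γ) + 2 * γ := by ring
    rw [h5]
    have h6 := abs_add_le (g * n - γ) (2 * γ)
    rw [abs_mul, abs_of_pos (by norm_num : (0 : ℝ) < 2)] at h6
    linarith
  have e2 : |d * ((g * n) ^ 2 - γ ^ 2)| ≤ |d| * (n * (2 * (C * S) + n)) := by
    rw [abs_mul]
    apply mul_le_mul_of_nonneg_left _ hd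
    have h5 : (g * n) ^ 2 - γ ^ 2 = (g * n - γ) * (g * n + γ) := by ring
    rw [h5, abs_mul]
    exact mul_le_mul hgn hgn2 (abs_nonneg _) hn.le
  have e3 := neg_abs_le (d * ((g * n) ^ 2 - γ ^ 2))
  -- `(i n)² + d (g n)² ≥ a - 2 n α - |d| n (2 C S + n)`
  have e4 : a - 2 * n * (C * S) - |d| * (n * (2 * (C * S) + n)) ≤ (i * n) ^ 2 + d * (g * n) ^ 2 := by
    rw [hav]
    have h5 : n * α ≤ n * (C * S) := mul_le_mul_of_nonneg_left h2 hn.le
    have h6 := sq_nonneg n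
    have h7 : (α - n) ^ 2 = α ^ 2 - 2 * (n * α) + n ^ 2 := by ring
    rw [h7] at e1
    have h8 : (i * n) ^ 2 + d * (g * n) ^ 2 = (i * n) ^ 2 + d * ((g * n) ^ 2 - γ ^ 2) + d * γ ^ 2 := by
      ring
    have h9 : 2 * n * (C * S) = 2 * (n * (C * S)) := by ring
    rw [h8, h9]
    linarith
  -- the error is at most `S² / (2 C)`
  have e5 : n * (2 * C * (2 * C * S + |d| * (2 * (C * S) + n))) ≤ S ^ 2 - 2 * C * (n * S) := by
    have h5 : (2 * C * (2 * C + |d| * (2 * C + 1)) + 2 * C) * n ≤ S :=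
      (mul_le_mul_of_nonneg_right hK hn.le).trans hKn
    have h6 : (2 * C * (2 * C + |d| * (2 * C + 1)) + 2 * C) * n * S ≤ S * S :=
      mul_le_mul_of_nonneg_right h5 hS.le
    have h7 : |d| * (2 * (C * S) + n) ≤ |d| * ((2 * C + 1) * S) :=
      mul_le_mul_of_nonneg_left (by linarith) hd
    have h8 : n * (2 * C * (2 * C * S + |d| * (2 * (C * S) + n))) ≤
        n * (2 * C * (2 * C * S + |d| * ((2 * C + 1) * S))) := by
      apply mul_le_mul_of_nonneg_left _ hn.le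
      apply mul_le_mul_of_nonneg_left _ (by linarith)
      linarith
    calc _ ≤ n * (2 * C * (2 * C * S + |d| * ((2 * C + 1) * S))) := h8
      _ = (2 * C * (2 * C + |d| * (2 * C + 1)) + 2 * C) * n * S - 2 * C * (n * S) := by ring
      _ ≤ _ := by
        have h9 : S * S = S ^ 2 := by ring
        linarith
  have e6 : n ^ 2 < (i * n) ^ 2 + d * (g * n) ^ 2 := by
    have h5 : 2 * C * (2 * n * (C * S) + |d| * (n * (2 * (C * S) + n))) =
      n * (2 * C * (2 * C * S + |d| * (2 * (C * S) + n))) := by ring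
    -- `2 C a ≥ 2 S²`
    have h6 : 2 * C * (a - 2 * n * (C * S) - |d| * (n * (2 * (C * S) + n))) ≥
        S ^ 2 + 2 * C * (n * S) := by
      have : 2 * C * (a - 2 * n * (C * S) - |d| * (n * (2 * (C * S) + n))) = 2 * (C * a) -
        2 * C * (2 * n * (C * S) + |d| * (n * (2 * (C * S) + n))) := by ring
      rw [this, h5]
      linarith
    have h7 : 2 * C * n ^ 2 < S ^ 2 + 2 * C * (n * S) := by
      have h8 : 0 < S ^ 2 := by positivity
      have h9 : n * n ≤ n * S := mul_le_mul_of_nonneg_left hnS hn.le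
      have h10 : 2 * C * (n * n) ≤ 2 * C * (n * S) := mul_le_mul_of_nonneg_left h9 (by linarith)
      have h11 : 2 * C * n ^ 2 = 2 * C * (n * n) := by ring
      linarith
    have h8 : 2 * C * n ^ 2 < 2 * C * ((i * n) ^ 2 + d * (g * n) ^ 2) := by
      have := mul_le_mul_of_nonneg_left e4 (by linarith : (0:ℝ) ≤ 2 * C)
      linarith
    exact lt_of_mul_lt_mul_left h8 (by linarith)
  have e7 : n ^ 2 * 1 < n ^ 2 * (i ^ 2 + d * g ^ 2) := by
    calc n ^ 2 * 1 = n ^ 2 := by ring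
      _ < (i * n) ^ 2 + d * (g * n) ^ 2 := e6
      _ = _ := by ring
  exact lt_of_mul_lt_mul_left e7 (by positivity)

/-- the indices -/
noncomputable def Ix (T : ℕ) : Finset (ℤ × ℤ × ℕ × ℤ × ℤ) :=
  (Icc (-(T : ℤ)) T) ×ˢ (Icc (-(T : ℤ)) T) ×ˢ (range (T + 1)) ×ˢ (Icc (-(T : ℤ)) T) ×ˢ
    (Icc (-(T : ℤ)) T)

omit [Cst] in
theorem mem_Ix {T : ℕ} {x y : ℤ} {i : ℕ} {j l : ℤ} (h1 : |(x : ℝ)| ≤ T) (h2 : |(y : ℝ)| ≤ T)
    (h3 : (i : ℝ) ≤ T) (h4 : |(j : ℝ)| ≤ T) (h5 : |(l : ℝ)| ≤ T) : (x, y, i, j, l) ∈ Ix T := by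
  have key : ∀ m : ℤ, |(m : ℝ)| ≤ T → m ∈ Icc (-(T : ℤ)) T := by
    intro m hm
    rw [abs_le] at hm
    rw [mem_Icc]
    constructor
    · have : ((-(T : ℤ) : ℤ) : ℝ) ≤ (m : ℝ) := by push_cast; exact hm.1
      exact_mod_cast this
    · have : (m : ℝ) ≤ ((T : ℤ) : ℝ) := by push_cast; exact hm.2
      exact_mod_cast this
  unfold Ix
  rw [mem_product, mem_product, mem_product, mem_product, mem_range]
  refine ⟨key x h1, key y h2, ?_, key j h4, key l h5⟩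
  have : i ≤ T := by exact_mod_cast h3
  exact Nat.lt_succ_of_le this

theorem mem_Rg {C Y : ℝ} {w : ℤ × ℤ} (h : w ∈ Rg C Y) : 0 < w.1 ∧ √Y ≤ C * (w.1 : ℝ) ∧
    (w.1 : ℝ) ≤ C * √Y ∧ |(w.2 : ℝ)| ≤ C * √Y ∧ Y ≤ C * (fN w : ℝ) := by
  unfold Rg at h
  rw [mem_filter, mem_product, mem_Icc, mem_Icc] at h
  obtain ⟨⟨⟨a1, a2⟩, b1, b2⟩, c1, c2⟩ := h
  refine ⟨by omega, c1, Int.le_floor.1 a2, ?_, c2⟩
  rw [abs_le]
  constructor
  · have h1 : -w.2 ≤ ⌊C * √Y⌋ := by linarith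
    have h2 := Int.le_floor.1 h1
    push_cast at h2
    linarith
  · exact Int.le_floor.1 b2

theorem cop_R_d {n : ℤ} (h : IsCoprime n (R : ℤ)) : IsCoprime n Cst.d := by
  apply h.of_isCoprime_of_dvd_right
  refine Dvd.dvd.trans ?_ Cst.R_dvd
  exact ⟨24 * (Cst.m ^ 2 + Cst.d), by ring⟩

theorem chi_ne {n : ℤ} (h : IsCoprime n (R : ℤ)) : chi n.natAbs ≠ 0 := by
  unfold chi
  apply jacobiSym.ne_zero
  have h1 := (cop_R_d h).symm.neg_left
  rw [Int.isCoprime_iff_gcd_eq_one] at h1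
  have h2 : (-Cst.d).gcd ((n.natAbs : ℕ) : ℤ) = (-Cst.d).gcd n := by
    unfold Int.gcd
    rw [Int.natAbs_natCast]
  rw [h2]
  exact h1

/-- `χ(x) = 1` for `w' = x w + y e` -/
theorem chi_x {x : ℤ} {w w' : ℤ × ℤ} {k : ℤ} (hx : 0 < x) (hw : 0 < w.1) (hw' : 0 < w'.1)
    (hr : IsCoprime w.1 (R : ℤ)) (hr' : IsCoprime w'.1 (R : ℤ)) (hxR : IsCoprime x (R : ℤ))
    (he : w'.1 = x * w.1 + (R : ℤ) * k) (hc : chi w.1.natAbs = chi w'.1.natAbs) :
    chi x.natAbs = 1 := by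
  have cop : ∀ {m : ℤ}, IsCoprime m (R : ℤ) → Nat.Coprime m.natAbs R := by
    intro m hm
    rw [Int.isCoprime_iff_gcd_eq_one] at hm
    unfold Int.gcd at hm
    rw [Int.natAbs_natCast] at hm
    exact hm
  have h1 : chi w'.1.natAbs = chi (x.natAbs * w.1.natAbs) := by
    apply chi_congr (cop hr')
    · rw [← Int.natAbs_mul]
      exact cop (hxR.mul_left hr)
    · rw [← Int.natAbs_mul]
      have h2 : ((w'.1.natAbs : ℕ) : ℤ) ≡ (((x * w.1).natAbs : ℕ) : ℤ) [ZMOD (R : ℤ)] := by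
        rw [Int.natCast_natAbs, Int.natCast_natAbs, abs_of_pos hw', abs_of_pos (mul_pos hx hw), he]
        apply Int.ModEq.symm
        rw [Int.modEq_iff_dvd]
        exact ⟨k, by ring⟩
      exact (Int.natCast_modEq_iff).1 h2
  rw [chi_mul (Int.natAbs_pos.2 hx.ne') (Int.natAbs_pos.2 hw.ne')] at h1
  rw [← hc] at h1
  have h2 := chi_ne hr
  have h3 : (chi x.natAbs - 1) * chi w.1.natAbs = 0 := by linear_combination -h1
  rcases mul_eq_zero.1 h3 with h4 | h4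
  · linarith
  · exact absurd h4 h2

/-- **the covering of the pairs by finitely many boxes and end vectors** -/
theorem cover {C H : ℝ} (hC : 1 ≤ C) (hH : 1 ≤ H) : ∃ (K T : ℕ) (Y₁ : ℝ), 1 ≤ K ∧ 1 ≤ Y₁ ∧
    ∀ Y : ℝ, Y₁ ≤ Y → ∀ n : ℕ, 0 < n → (K : ℝ) * n ≤ √Y → √Y < 2 * K * n →
      ∀ w ∈ Rg C Y, ∀ w' ∈ Rg C Y, IsCoprime w.1 w.2 → IsCoprime w'.1 w'.2 →
        IsCoprime w.1 (R : ℤ) → IsCoprime w'.1 (R : ℤ) → chi w.1.natAbs = chi w'.1.natAbs →
        0 < dt w w' → (dt w w' : ℝ) ≤ H →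
        ∃ s ∈ Ix T, IOk s.1 s.2.1 s.2.2.1 s.2.2.2.1 s.2.2.2.2 ∧
          ∃ t ∈ NC.Bx s.2.2.1 s.2.2.2.1 s.2.2.2.2 n, (t.1, t.2.2) = w ∧
            (s.1 * t.1 + s.2.1 * t.2.1, s.1 * t.2.2 + s.2.1 * (emat t).2.2.2) = w' := by
  set A : ℝ := 1 + |(D : ℝ)| with hA
  have hd := abs_nonneg (D : ℝ)
  have ha0 : (0 : ℝ) < (a0 : ℝ) := by exact_mod_cast a0_pos
  set X₁ : ℝ := 2 * A * C ^ 5 + H * (1 + a0) with hX1
  have hX1pos : 0 < X₁ := by
    have : 0 < A := by rw [hA]; linarith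
    positivity
  set K₀ : ℝ := C * (X₁ + H) + 4 * C + (2 * C * (2 * C + |(D : ℝ)| * (2 * C + 1)) + 2 * C) with hK0
  set K : ℕ := ⌈K₀⌉₊ + 1 with hK
  have hKK : K₀ < K := by
    have := Nat.le_ceil K₀
    rw [hK]
    push_cast
    linarith
  have hE : 0 ≤ 2 * C * (2 * C + |(D : ℝ)| * (2 * C + 1)) + 2 * C := by positivity
  have hK1 : C * (X₁ + H) < K := by
    have : 0 < 4 * C := by linarith
    linarith
  have hK2 : 4 * C < K := by
    have : 0 < C * (X₁ + H) := by positivity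
    linarith
  have hK3 : 2 * C * (2 * C + |(D : ℝ)| * (2 * C + 1)) + 2 * C ≤ K := by
    have : 0 < C * (X₁ + H) := by positivity
    linarith
  have hKpos : (1 : ℝ) ≤ K := by
    have : (1 : ℕ) ≤ K := by omega
    exact_mod_cast this
  set T₀ : ℝ := X₁ + H + 2 * K * C * (2 + a0) + 1 with hT0
  have hTm : 0 < 2 * K * C * (2 + a0) := by positivity
  have hTT : T₀ ≤ (⌈T₀⌉₊ : ℕ) := Nat.le_ceil T₀
  refine ⟨K, ⌈T₀⌉₊, 2 * |(D : ℝ)| * C ^ 3 * H + H + 1, by omega, ?_, ?_⟩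
  · have : 0 ≤ 2 * |(D : ℝ)| * C ^ 3 * H := by positivity
    linarith
  intro Y hY n hn hn1 hn2 w hw w' hw' hp hp' hr hr' hch hd0 hd1
  obtain ⟨w0, w1, w2, w3, w4⟩ := mem_Rg hw
  obtain ⟨w0', w1', w2', w3', w4'⟩ := mem_Rg hw'
  have hYpos : 0 < Y := by
    have : 0 ≤ 2 * |(D : ℝ)| * C ^ 3 * H := by positivity
    linarith
  have hS : 0 < √Y := Real.sqrt_pos.2 hYpos
  have hSS : √Y ^ 2 = Y := Real.sq_sqrt hYpos.le
  have hfN : 0 < fN w := by
    have h1 : 0 < C * (fN w : ℝ) := lt_of_lt_of_le hYpos w4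
    have h2 : (0 : ℝ) < (fN w : ℝ) := pos_of_mul_pos_right h1 (by linarith)
    exact_mod_cast h2
  obtain ⟨e, hde, heJ, hb1, hb2⟩ := exists_e hp hr hfN
  set b : ℤ := w.1 * e.1 + D * (w.2 * e.2) with hbdef
  set y : ℤ := dt w w' with hydef
  set x : ℤ := dt w' e with hxdef
  set P : ℤ := w.1 * w'.1 + D * (w.2 * w'.2) with hPdef
  have hde' : w.1 * e.2 - w.2 * e.1 = 1 := hde
  -- the identities
  have i1 : w.1 * P = w'.1 * fN w + D * (w.2 * y) := by
    rw [hPdef, hydef]; unfold fN dt; ring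
  have i2 : fN w * x = P + y * (-b) := by
    rw [hPdef, hydef, hxdef, hbdef]; unfold fN dt
    linear_combination (w.1 * w'.1 + D * (w.2 * w'.2)) * hde'
  have i3 : fN w * e.1 = w.1 * b - D * w.2 := by
    rw [hbdef]; unfold fN; linear_combination (-(D * w.2)) * hde'
  have i4 : w'.1 = x * w.1 + y * e.1 := by
    rw [hxdef, hydef]; unfold dt; linear_combination (-w'.1) * hde'
  have i5 : w'.2 = x * w.2 + y * e.2 := by
    rw [hxdef, hydef]; unfold dt; linear_combination (-w'.2) * hde'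
  have hy0 : (0 : ℝ) < (y : ℝ) := by exact_mod_cast hd0
  have est := pair_est (d := (D : ℝ)) (α := (w.1 : ℝ)) (γ := (w.2 : ℝ)) (α' := (w'.1 : ℝ))
    (β := (e.1 : ℝ)) (a := (fN w : ℝ)) (b := (b : ℝ)) (y := (y : ℝ)) (P := (P : ℝ))
    (x := (x : ℝ)) (A := A) (a₀ := (a0 : ℝ)) (C := C) (H := H) (S := √Y)
    hC hH hS hA ha0 w1 w2 w3 (by rw [hSS]; exact w4) (by unfold fN; push_cast; ring)
    w1' w2' hy0 hd1 (by exact_mod_cast i1) (by exact_mod_cast i2)
    (by exact_mod_cast hb1) (by exact_mod_cast hb2) (by exact_mod_cast i3)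
    (by rw [hSS]; linarith)
  obtain ⟨ha, hxR, hxle, hβ1, hβ2⟩ := est
  have hx0 : 0 < x := by exact_mod_cast hxR
  have hnR : (0 : ℝ) < n := by exact_mod_cast hn
  have hnZ : (0 : ℤ) < n := by exact_mod_cast hn
  -- `4 n < w.1`
  have hα4 : 4 * (n : ℝ) < (w.1 : ℝ) := by
    have h1 : 4 * C * n < K * n := mul_lt_mul_of_pos_right hK2 hnR
    have h2 : C * (4 * n) < C * (w.1 : ℝ) := by
      calc C * (4 * n) = 4 * C * n := by ring
        _ < K * n := h1
        _ ≤ √Y := hn1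
        _ ≤ _ := w1
    exact lt_of_mul_lt_mul_left h2 (by linarith)
  have hα4' : 4 * (n : ℤ) < w.1 := by exact_mod_cast hα4
  set i' : ℤ := (w.1 - 1) / (n : ℤ) with hi'
  obtain ⟨gi1, gi2⟩ := boxc w.1 hn
  rw [← hi'] at gi1 gi2
  set j : ℤ := (e.1 - 1) / (n : ℤ) with hj
  obtain ⟨gj1, gj2⟩ := boxc e.1 hn
  rw [← hj] at gj1 gj2
  set l : ℤ := (w.2 - 1) / (n : ℤ) with hl
  obtain ⟨gl1, gl2⟩ := boxc w.2 hn
  rw [← hl] at gl1 gl2
  have hi2' : 2 ≤ i' := by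
    by_contra h
    have h1 : i' + 1 ≤ 2 := by omega
    have h2 : (i' + 1) * (n : ℤ) ≤ 2 * n := mul_le_mul_of_nonneg_right h1 hnZ.le
    linarith
  set i : ℕ := i'.toNat with hi
  have hii : (i : ℤ) = i' := Int.toNat_of_nonneg (by omega)
  have hiiR : (i : ℝ) = (i' : ℝ) := by exact_mod_cast hii
  have hi2 : 2 ≤ i := by
    have h1 : (2 : ℤ) ≤ (i : ℤ) := by rw [hii]; exact hi2'
    exact_mod_cast h1
  -- real versions
  have gi1R : (i : ℝ) * n < (w.1 : ℝ) := by rw [hiiR]; exact_mod_cast gi1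
  have gi2R : (w.1 : ℝ) ≤ ((i : ℝ) + 1) * n := by rw [hiiR]; exact_mod_cast gi2
  have gj1R : (j : ℝ) * n < (e.1 : ℝ) := by exact_mod_cast gj1
  have gj2R : (e.1 : ℝ) ≤ ((j : ℝ) + 1) * n := by exact_mod_cast gj2
  have gl1R : (l : ℝ) * n < (w.2 : ℝ) := by exact_mod_cast gl1
  have gl2R : (w.2 : ℝ) ≤ ((l : ℝ) + 1) * n := by exact_mod_cast gl2
  have hα0 : (0 : ℝ) < (w.1 : ℝ) := by exact_mod_cast w0
  -- `C √Y < 2 K C n`
  have hCS : C * √Y ≤ 2 * K * C * n := by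
    calc C * √Y ≤ C * (2 * K * n) := mul_le_mul_of_nonneg_left hn2.le (by linarith)
      _ = _ := by ring
  have hKC : (0 : ℝ) < 2 * K * C := by positivity
  have hTa : 2 * K * C ≤ 2 * K * C * (2 + a0) := le_mul_of_one_le_right hKC.le (by linarith)
  have hj2 : j + 1 < 0 := by
    by_contra h
    have h1 : (-1 : ℤ) ≤ j := by omega
    have h2 : (-1 : ℤ) * n ≤ j * n := mul_le_mul_of_nonneg_right h1 hnZ.le
    have h3 : (-1 : ℝ) * n ≤ (j : ℝ) * n := by exact_mod_cast h2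
    linarith
  have hdR : (R : ℤ) ∣ e.1 := by
    have h1 : a0 ∣ e.1 - b0 * e.2 :=
      Int.dvd_of_emod_eq_zero (Int.emod_eq_emod_iff_emod_sub_eq_zero.1 heJ)
    have h2 : (R : ℤ) ∣ b0 * e.2 := R_dvd_b0.mul_right _
    have h3 := dvd_add (R_dvd_a0.trans h1) h2
    have h4 : e.1 - b0 * e.2 + b0 * e.2 = e.1 := by ring
    rw [h4] at h3
    exact h3
  obtain ⟨k, hk⟩ := hdR
  have i6 : w'.1 = x * w.1 + (R : ℤ) * (y * k) := by rw [i4, hk]; ring
  have hxRc : IsCoprime x (R : ℤ) := by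
    have h1 : IsCoprime (x * w.1 + (R : ℤ) * (y * k)) (R : ℤ) := by rw [← i6]; exact hr'
    have h2 : IsCoprime (x * w.1) (R : ℤ) := by
      have := IsCoprime.add_mul_left_left h1 (-(y * k))
      have h3 : x * w.1 + (R : ℤ) * (y * k) + (R : ℤ) * -(y * k) = x * w.1 := by ring
      rw [h3] at this
      exact this
    exact h2.of_mul_left_left
  refine ⟨(x, y, i, j, l), ?_, ?_, (w.1, e.1, w.2), ?_, rfl, ?_⟩
  · apply mem_Ix
    · rw [abs_of_pos hxR]
      linarith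
    · rw [abs_of_pos hy0]
      linarith
    · -- `i ≤ 2 K C`
      have h1 : (i : ℝ) * n ≤ 2 * K * C * n := by linarith
      have h2 : (i : ℝ) ≤ 2 * K * C := le_of_mul_le_mul_right h1 hnR
      linarith
    · have hj0 : (j : ℝ) ≤ 0 := by
        have : j ≤ 0 := by omega
        exact_mod_cast this
      rw [abs_of_nonpos hj0]
      have h1 : -(e.1 : ℝ) ≤ (2 + a0) * (2 * K * C * n) :=
        hβ2.trans (mul_le_mul_of_nonneg_left (w2.trans hCS) (by positivity))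
      have h2 : (-((j : ℝ) + 1)) * n ≤ (2 * K * C * (2 + a0)) * n := by
        have h4 : (-((j : ℝ) + 1)) * n = -(((j : ℝ) + 1) * n) := by ring
        have h5 : (2 * K * C * (2 + a0)) * n = (2 + a0) * (2 * K * C * n) := by ring
        rw [h4, h5]
        linarith
      have h3 : -((j : ℝ) + 1) ≤ 2 * K * C * (2 + a0) := le_of_mul_le_mul_right h2 hnR
      linarith
    · obtain ⟨h1, h2⟩ := abs_le.1 (w3.trans hCS)
      rw [abs_le]
      constructor
      · have h3 : (-(2 * K * C)) * n ≤ ((l : ℝ) + 1) * n := by linarith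
        have h4 : -(2 * K * C) ≤ (l : ℝ) + 1 := le_of_mul_le_mul_right h3 hnR
        linarith
      · have h3 : (l : ℝ) * n ≤ (2 * K * C) * n := by linarith
        have h4 : (l : ℝ) ≤ 2 * K * C := le_of_mul_le_mul_right h3 hnR
        linarith
  · refine
      { x0 := hx0
        y0 := hd0
        cop := ?_
        cR := hxRc
        ch := chi_x hx0 w0 w0' hr hr' hxRc i6 hch
        i2 := hi2
        j2 := hj2
        w := ?_
        pos := ?_ }
    · obtain ⟨s, t, hst⟩ := hp'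
      refine ⟨s * w.1 + t * w.2, s * e.1 + t * e.2, ?_⟩
      rw [← hst, i4, i5]
      ring
    · -- `- j y < x i`
      have h1 : (n : ℝ) * ((x : ℝ) + y) < (w'.1 : ℝ) := by
        have h2 : C * (n * ((x : ℝ) + y)) < C * (w'.1 : ℝ) := by
          have h3 : (x : ℝ) + y ≤ X₁ + H := add_le_add hxle hd1
          have h4 : C * (n * ((x : ℝ) + y)) ≤ C * (X₁ + H) * n := by
            have h6 := mul_le_mul_of_nonneg_left h3 (by positivity : (0 : ℝ) ≤ C * n)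
            calc C * (n * ((x : ℝ) + y)) = C * n * ((x : ℝ) + y) := by ring
              _ ≤ C * n * (X₁ + H) := h6
              _ = _ := by ring
          have h5 : C * (X₁ + H) * n < K * n := mul_lt_mul_of_pos_right hK1 hnR
          linarith
        exact lt_of_mul_lt_mul_left h2 (by linarith)
      have h1' : (n : ℤ) * (x + y) < w'.1 := by exact_mod_cast h1
      show -j * y < x * (i : ℤ)
      rw [hii]
      have h2 : (-j * n) * y ≤ (-e.1 + n) * y := by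
        apply mul_le_mul_of_nonneg_right _ hd0.le
        linarith
      have h3 : x * (w.1 - n) ≤ x * (i' * n) := by
        apply mul_le_mul_of_nonneg_left _ hx0.le
        linarith
      have h4 : (n : ℤ) * (-j * y) < n * (x * i') := by
        calc (n : ℤ) * (-j * y) = (-j * n) * y := by ring
          _ ≤ (-e.1 + n) * y := h2
          _ < x * (w.1 - n) := by
            have h5 : (n : ℤ) * (x + y) < x * w.1 + y * e.1 := by rw [← i4]; exact h1'
            linarith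
          _ ≤ x * (i' * n) := h3
          _ = _ := by ring
      exact lt_of_mul_lt_mul_left h4 hnZ.le
    · intro g hg1 hg2
      exact box_pos (α := (w.1 : ℝ)) (γ := (w.2 : ℝ)) (a := (fN w : ℝ)) (S := √Y) (n := (n : ℝ))
        (K := (K : ℝ)) hC hS hnR hn1 hK3 w2 w3 (by rw [hSS]; exact w4)
        (by unfold fN; push_cast; ring) gi1R gi2R (by linarith) gl1R gl2R hg1 hg2
  · have hδ : (e.1 * w.2 + 1) / w.1 = e.2 := by
      have h1 : e.1 * w.2 + 1 = w.1 * e.2 := by linear_combination -hde'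
      rw [h1]
      exact Int.mul_ediv_cancel_left _ w0.ne'
    unfold NC.Bx EBox
    rw [mem_filter, mem_filter, mem_product, mem_product, mem_Ioc, mem_Ioc, mem_Ioc]
    refine ⟨⟨⟨⟨?_, ?_⟩, ⟨gj1, gj2⟩, gl1, gl2⟩, ?_⟩, ?_, ?_⟩
    · push_cast; rw [hii]; exact gi1
    · push_cast; rw [hii]; exact gi2
    · exact ⟨e.2, by linear_combination -hde'⟩
    · exact Int.isCoprime_iff_gcd_eq_one.1 hr
    · show e.1 % a0 = b0 * ((e.1 * w.2 + 1) / w.1) % a0
      rw [hδ]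
      exact heJ
  · have hδ : (e.1 * w.2 + 1) / w.1 = e.2 := by
      have h1 : e.1 * w.2 + 1 = w.1 * e.2 := by linear_combination -hde'
      rw [h1]
      exact Int.mul_ediv_cancel_left _ w0.ne'
    show (x * w.1 + y * e.1, x * w.2 + y * ((e.1 * w.2 + 1) / w.1)) = w'
    rw [hδ]
    exact Prod.ext i4.symm i5.symm

end Pool.Agent.AQ
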