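import Pool.Agent.Lib_helper8.AQ.Pairs
import Pool.Agent.Lib_helper1.AQE.D

/-!
# AQ: PAIRS from the rigidity of the boxes (helper8)
-/

set_option autoImplicit false

namespace Pool.Agent.AQ

open Finset Pool.Agent.PENT Pool.Agent.PENT.EQ

/-- the rigidity of all boxes (Part I) -/
def PartI : Prop := ∀ (c : Cst) (i : ℕ) (j l : ℤ), @NC.BxOk c i j l → ∀ δ : ℝ, 0 < δ →
  @PTB c i j l δ

variable [Cst]

open Classical in
/-- the bad matrices of one box -/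
theorem bad_box {i : ℕ} {j l : ℤ} (hi : 2 ≤ i)
    (hpos : ∀ g : ℝ, (l : ℝ) ≤ g → g ≤ (l : ℝ) + 1 → 1 < (i : ℝ) ^ 2 + (D : ℝ) * g ^ 2)
    {n : ℕ} (hn : 0 < n) (h : ℕ → ℤ) (z : ℤ × ℤ) :
    ((NC.Bx i j l n).filter (fun t => h (QQ (emat t)).1.natAbs ≠
      h (NC.fv (QQ (emat t)) z).natAbs)).card ≤
    ((NC.BO i j l n).filter (fun q => h q.1.natAbs ≠ h (NC.fv q z).natAbs)).card := by
  have hinj := bx_inj (j := j) hi hpos hn
  rw [← card_image_of_injOn (f := fun t => QQ (emat t))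
    (s := (NC.Bx i j l n).filter (fun t => h (QQ (emat t)).1.natAbs ≠
      h (NC.fv (QQ (emat t)) z).natAbs))
    (hinj.mono (fun t ht => (mem_filter.1 ht).1))]
  apply card_le_card
  intro q hq
  rw [mem_image] at hq
  obtain ⟨t, ht, rfl⟩ := hq
  rw [mem_filter] at ht ⊢
  exact ⟨mem_image_of_mem _ ht.1, ht.2⟩

theorem fv_QQ {t : ℤ × ℤ × ℤ} (x y : ℤ) :
    NC.fv (QQ (emat t)) (x, y) = fN (x * t.1 + y * t.2.1, x * t.2.2 + y * (emat t).2.2.2) := by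
  unfold NC.fv qf QQ fN emat
  simp only
  ring

/-- **PAIRS from Part I** -/
theorem pairs_of_partI (hP : PartI) : ∀ C H δ : ℝ, 1 ≤ C → 1 ≤ H → 0 < δ →
    ∃ (c : ℝ) (N : ℕ) (Y₀ : ℝ), 0 < c ∧ ∀ h : ℕ → ℤ, CM h → ∀ Y : ℝ, Y₀ ≤ Y →
      ∀ σ : ℤ, (σ = 1 ∨ σ = -1) →
    (((Icc 1 ⌊(N : ℝ) * Y⌋₊).filter (fun M : ℕ => a0 ∣ (M : ℤ) - b0 ∧ h (vD M) = σ)).card : ℝ) <
      c * Y →
    Pool.Agent.AQE.PairsAt D R chi h C H δ Y := by
  classical
  intro C H δ hC hH hδ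
  obtain ⟨K, T, Y₁, hK, hY1, hcov⟩ := cover hC hH
  have hKR : (1 : ℝ) ≤ K := by exact_mod_cast hK
  set δ' : ℝ := δ / ((Ix T).card + 1) with hδ'
  have hIc : (0 : ℝ) < ((Ix T).card : ℝ) + 1 := by positivity
  have hδ'0 : 0 < δ' := div_pos hδ hIc
  obtain ⟨c, N, n₀, hc, hpt⟩ := ptn_all hP (Ix T) hδ'0
  refine ⟨c / (4 * K ^ 2), N, max Y₁ ((K * (n₀ + 1)) ^ 2), by positivity, ?_⟩
  intro h hh Y hY σ hσ hrare S hS
  have hYa : Y₁ ≤ Y := (le_max_left _ _).trans hY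
  have hYb : ((K : ℝ) * (n₀ + 1)) ^ 2 ≤ Y := (le_max_right _ _).trans hY
  have hYpos : 0 < Y := by linarith
  have hYs : 0 < √Y := Real.sqrt_pos.2 hYpos
  have hSS : √Y ^ 2 = Y := Real.sq_sqrt hYpos.le
  have hK0 : (0 : ℝ) < K := by linarith
  set n : ℕ := ⌊√Y / K⌋₊ with hn
  have hsq : (K : ℝ) * (n₀ + 1) ≤ √Y := Real.le_sqrt_of_sq_le hYb
  have hn1 : n₀ + 1 ≤ n := by
    rw [hn]
    apply Nat.le_floor
    rw [le_div_iff₀ hK0]
    push_cast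
    linarith
  have hn0 : 0 < n := by omega
  have hnR : (1 : ℝ) ≤ n := by exact_mod_cast hn0
  have hKn : (K : ℝ) * n ≤ √Y := by
    have := Nat.floor_le (show (0 : ℝ) ≤ √Y / K by positivity)
    rw [← hn, le_div_iff₀ hK0] at this
    linarith
  have hKn2 : √Y < 2 * K * n := by
    have h1 := Nat.lt_floor_add_one (√Y / K)
    rw [← hn, div_lt_iff₀ hK0] at h1
    nlinarith
  -- `n² ≤ Y`
  have hn2Y : (n : ℝ) ^ 2 ≤ Y := by
    rw [← hSS]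
    apply pow_le_pow_left₀ (by positivity)
    nlinarith
  have hYn2 : Y < 4 * K ^ 2 * (n : ℝ) ^ 2 := by
    rw [← hSS]
    calc √Y ^ 2 < (2 * K * n) ^ 2 := pow_lt_pow_left₀ hKn2 hYs.le two_ne_zero
      _ = _ := by ring
  -- the rare value
  have hrare' : (((Icc 1 (N * n ^ 2)).filter
      (fun M : ℕ => a0 ∣ (M : ℤ) - b0 ∧ h (vD M) = σ)).card : ℝ) < c * (n : ℝ) ^ 2 := by
    have h1 : (Icc 1 (N * n ^ 2)).filter (fun M : ℕ => a0 ∣ (M : ℤ) - b0 ∧ h (vD M) = σ) ⊆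
        (Icc 1 ⌊(N : ℝ) * Y⌋₊).filter (fun M : ℕ => a0 ∣ (M : ℤ) - b0 ∧ h (vD M) = σ) := by
      apply filter_subset_filter
      apply Icc_subset_Icc le_rfl
      apply Nat.le_floor
      push_cast
      exact mul_le_mul_of_nonneg_left hn2Y (by positivity)
    have h2 : (((Icc 1 (N * n ^ 2)).filter
        (fun M : ℕ => a0 ∣ (M : ℤ) - b0 ∧ h (vD M) = σ)).card : ℝ) ≤
        (((Icc 1 ⌊(N : ℝ) * Y⌋₊).filter
          (fun M : ℕ => a0 ∣ (M : ℤ) - b0 ∧ h (vD M) = σ)).card : ℝ) := by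
      exact_mod_cast card_le_card h1
    refine lt_of_le_of_lt h2 (lt_of_lt_of_le hrare ?_)
    calc c / (4 * K ^ 2) * Y ≤ c / (4 * K ^ 2) * (4 * K ^ 2 * (n : ℝ) ^ 2) :=
          mul_le_mul_of_nonneg_left hYn2.le (by positivity)
      _ = c * (n : ℝ) ^ 2 := by field_simp
  -- the covering
  set I := (Ix T).filter (fun s => IOk s.1 s.2.1 s.2.2.1 s.2.2.2.1 s.2.2.2.2) with hI
  set bad : ℤ × ℤ × ℕ × ℤ × ℤ → Finset (ℤ × ℤ × ℤ) := fun s =>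
    (NC.Bx s.2.2.1 s.2.2.2.1 s.2.2.2.2 n).filter (fun t => h (QQ (emat t)).1.natAbs ≠
      h (NC.fv (QQ (emat t)) (s.1, s.2.1)).natAbs) with hbad
  set g : ℤ × ℤ × ℕ × ℤ × ℤ → ℤ × ℤ × ℤ → (ℤ × ℤ) × (ℤ × ℤ) := fun s t =>
    ((t.1, t.2.2), (s.1 * t.1 + s.2.1 * t.2.1, s.1 * t.2.2 + s.2.1 * (emat t).2.2.2)) with hg
  have hsub : S ⊆ I.biUnion (fun s => (bad s).image (g s)) := by
    intro p hp
    obtain ⟨r1, r2, p1, p2, q1, q2, hch, d0, d1, hne⟩ := hS p hp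
    have key : ∀ w : ℤ × ℤ, Pool.Agent.AQE.Rg D C Y w → w ∈ Rg C Y := by
      intro w hw
      obtain ⟨k1, k2, k3, k4⟩ := hw
      unfold Rg
      rw [mem_filter, mem_product, mem_Icc, mem_Icc]
      obtain ⟨k5, k6⟩ := abs_le.1 k3
      have k7 : (0 : ℝ) < C * (w.1 : ℝ) := lt_of_lt_of_le hYs k1
      have k8 : (0 : ℝ) < (w.1 : ℝ) := pos_of_mul_pos_right k7 (by linarith)
      have k9 : (0 : ℤ) < w.1 := by exact_mod_cast k8
      refine ⟨⟨⟨by omega, Int.le_floor.2 k2⟩, ?_, Int.le_floor.2 k6⟩, k1, ?_⟩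
      · have : -w.2 ≤ ⌊C * √Y⌋ := Int.le_floor.2 (by push_cast; linarith)
        linarith
      · unfold fN; push_cast; exact k4
    obtain ⟨s, hs, hok, t, ht, ht1, ht2⟩ := hcov Y hYa n hn0 hKn hKn2 p.1 (key _ r1) p.2
      (key _ r2) p1 p2 q1 q2 hch d0 d1
    rw [mem_biUnion]
    refine ⟨s, mem_filter.2 ⟨hs, hok⟩, ?_⟩
    rw [mem_image]
    refine ⟨t, ?_, ?_⟩
    · rw [hbad]
      simp only [mem_filter]
      refine ⟨ht, ?_⟩
      rw [fv_QQ, ht2]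
      have e1 : (QQ (emat t)).1 = fN p.1 := by
        rw [← ht1]; rfl
      rw [e1]
      have e2 : ∀ w : ℤ × ℤ, Pool.Agent.MQ.nm 0 D w = fN w := by
        intro w
        unfold Pool.Agent.MQ.nm fN
        ring
      rw [e2, e2] at hne
      exact hne
    · rw [hg]
      exact Prod.ext ht1 ht2
  have hcard : (S.card : ℝ) ≤ ∑ s ∈ I, ((bad s).card : ℝ) := by
    have h1 : S.card ≤ ∑ s ∈ I, (bad s).card :=
      (card_le_card hsub).trans (card_biUnion_le.trans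
        (sum_le_sum fun s _ => card_image_le))
    exact_mod_cast h1
  have hone : ∀ s ∈ I, ((bad s).card : ℝ) ≤ δ' * (n : ℝ) ^ 2 := by
    intro s hs
    rw [hI, mem_filter] at hs
    have h1 := bad_box (j := s.2.2.2.1) hs.2.i2 hs.2.pos hn0 h (s.1, s.2.1)
    have h2 := hpt s hs.1 hs.2 h hh n (by omega) σ hσ hrare'
    refine le_trans ?_ h2
    exact_mod_cast h1
  calc (S.card : ℝ) ≤ ∑ s ∈ I, ((bad s).card : ℝ) := hcard
    _ ≤ ∑ s ∈ I, δ' * (n : ℝ) ^ 2 := sum_le_sum hone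
    _ = (I.card : ℝ) * (δ' * (n : ℝ) ^ 2) := by rw [sum_const, nsmul_eq_mul]
    _ ≤ (((Ix T).card : ℝ) + 1) * (δ' * Y) := by
        have h1 : (I.card : ℝ) ≤ ((Ix T).card : ℝ) := by
          exact_mod_cast card_le_card (filter_subset _ _)
        apply mul_le_mul (by linarith) _ (by positivity) (by positivity)
        exact mul_le_mul_of_nonneg_left hn2Y hδ'0.le
    _ = δ * Y := by
        rw [hδ']
        field_simp

end Pool.Agent.AQ
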