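import Pool.Agent.Lib_helper8.AQ.Frame

/-!
# AQ: the path identity and the dual step (helper8; port of helper97's PATH/Frame, PATH/Dual)
-/

set_option autoImplicit false

namespace Pool.Agent.AQ

open Finset Pool.Agent.PENT
open Pool.Agent.PATH (Pth)

variable [Cst]

theorem Good.bf_eq {k : ℕ} {τ : Pth k} (hτ : Good τ) (j : Fin k) :
    bf τ.a τ.b τ.c (τ.u j.castSucc) (τ.u j.succ) =
      (bf τ.a τ.b τ.c (τ.u j.castSucc) (τ.u j.succ) / τ.d j) * τ.d j := by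
  obtain ⟨n, hn⟩ := edge_exists hτ.disc (hτ.d1 j) (hτ.d2 j)
  have h1 : τ.d j ∣ bf τ.a τ.b τ.c (τ.u j.castSucc) (τ.u j.succ) := ⟨n, by
    rw [hn]; exact mul_comm _ _⟩
  exact (Int.ediv_mul_cancel h1).symm

/-- `(n_j² + D) d_j² = Q(u_j) Q(u_(j+1))` -/
theorem Good.edge {k : ℕ} {τ : Pth k} (hτ : Good τ) (j : Fin k) :
    ((τ.n j : ℤ) ^ 2 + D) * τ.d j ^ 2 = τ.q j.castSucc * τ.q j.succ := by
  have h1 := edge_eq hτ.disc (hτ.bf_eq j)
  rw [Pth.n, Int.natCast_natAbs, sq_abs]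
  exact h1

theorem Good.edge_nat {k : ℕ} {τ : Pth k} (hτ : Good τ) (j : Fin k) :
    vD (τ.n j) * (τ.d j).natAbs ^ 2 = (τ.q j.castSucc).natAbs * (τ.q j.succ).natAbs := by
  have h1 := congrArg Int.natAbs (hτ.edge j)
  rw [Int.natAbs_mul, Int.natAbs_mul, Int.natAbs_pow] at h1
  exact h1

/-- `M² + D ≠ 0` -/
theorem vD_pos (n : ℕ) : 0 < vD n := by
  unfold vD
  rw [Int.natAbs_pos]
  intro h
  exact D_ns ⟨n, by linear_combination -h⟩

theorem Good.q_pos {k : ℕ} {τ : Pth k} (hτ : Good τ) (j : Fin k) :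
    0 < (τ.q j.castSucc).natAbs ∧ 0 < (τ.q j.succ).natAbs := by
  have h1 := hτ.edge_nat j
  have h2 : 0 < vD (τ.n j) * (τ.d j).natAbs ^ 2 := by
    have := Int.natAbs_pos.2 (hτ.ne j)
    have := vD_pos (τ.n j)
    positivity
  rw [h1] at h2
  exact ⟨Nat.pos_of_mul_pos_right h2, Nat.pos_of_mul_pos_left h2⟩

/-- one edge -/
theorem Good.h_edge {h : ℕ → ℤ} (hh : CM h) {k : ℕ} {τ : Pth k} (hτ : Good τ) (j : Fin k) :
    h (vD (τ.n j)) = h (τ.q j.castSucc).natAbs * h (τ.q j.succ).natAbs := by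
  have h1 := congrArg h (hτ.edge_nat j)
  obtain ⟨p1, p2⟩ := hτ.q_pos j
  have p3 := Int.natAbs_pos.2 (hτ.ne j)
  rw [hh.mul _ _ (vD_pos _) (pow_pos p3 2), hh.sq p3, mul_one, hh.mul _ _ p1 p2] at h1
  exact h1

/-- the path identity for the first `i + 1` edges -/
theorem Good.identity_aux {h : ℕ → ℤ} (hh : CM h) {k : ℕ} {τ : Pth k} (hτ : Good τ) :
    ∀ i : ℕ, ∀ hi : i + 1 ≤ k, ∏ j ∈ (univ : Finset (Fin k)).filter (fun j => j.val < i + 1),
      h (vD (τ.n j)) = h (τ.q 0).natAbs * h (τ.q ⟨i + 1, by omega⟩).natAbs := by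
  intro i
  induction i with
  | zero =>
    intro hi
    have e : (univ : Finset (Fin k)).filter (fun j => j.val < 0 + 1) = {⟨0, by omega⟩} := by
      ext j
      simp only [mem_filter, mem_univ, true_and, mem_singleton, Fin.ext_iff]
      omega
    rw [e, prod_singleton]
    exact hτ.h_edge hh ⟨0, by omega⟩
  | succ i ih =>
    intro hi
    have e : (univ : Finset (Fin k)).filter (fun j => j.val < i + 1 + 1) =
        insert ⟨i + 1, by omega⟩ ((univ : Finset (Fin k)).filter (fun j => j.val < i + 1)) := by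
      ext j
      simp only [mem_filter, mem_univ, true_and, mem_insert, Fin.ext_iff]
      omega
    rw [e, prod_insert (by simp), ih (by omega), hτ.h_edge hh ⟨i + 1, by omega⟩]
    have p := (hτ.q_pos ⟨i + 1, by omega⟩).1
    have p1 := Pool.Agent.PATH.Pth.cm_sq_one hh p
    have e1 : (⟨i + 1, by omega⟩ : Fin k).castSucc = (⟨i + 1, by omega⟩ : Fin (k + 1)) := rfl
    have e2 : (⟨i + 1, by omega⟩ : Fin k).succ = (⟨i + 1 + 1, by omega⟩ : Fin (k + 1)) := rfl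
    rw [e1] at p1
    rw [e1, e2]
    calc h (τ.q ⟨i + 1, by omega⟩).natAbs * h (τ.q ⟨i + 1 + 1, by omega⟩).natAbs *
          (h (τ.q 0).natAbs * h (τ.q ⟨i + 1, by omega⟩).natAbs)
        = (h (τ.q ⟨i + 1, by omega⟩).natAbs * h (τ.q ⟨i + 1, by omega⟩).natAbs) *
          (h (τ.q 0).natAbs * h (τ.q ⟨i + 1 + 1, by omega⟩).natAbs) := by ring
      _ = _ := by rw [p1, one_mul]

/-- THE PATH IDENTITY -/
theorem Good.identity {h : ℕ → ℤ} (hh : CM h) {k : ℕ} {τ : Pth k} (hτ : Good τ) (hk : 0 < k) :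
    ∏ j, h (vD (τ.n j)) = h (τ.q 0).natAbs * h (τ.q (Fin.last k)).natAbs := by
  obtain ⟨i, rfl⟩ : ∃ i, k = i + 1 := ⟨k - 1, by omega⟩
  have h1 := hτ.identity_aux hh i le_rfl
  have e : (univ : Finset (Fin (i + 1))).filter (fun j => j.val < i + 1) = univ := by
    ext j
    simp only [mem_filter, mem_univ, true_and, iff_true]
    exact j.2
  rw [e] at h1
  exact h1

/-- if the end values differ, then every sign occurs on a path of even length -/
theorem Good.exists_sign {h : ℕ → ℤ} (hh : CM h) {k : ℕ} {τ : Pth k} (hτ : Good τ) (hk : 0 < k)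
    (hk2 : Even k) (hne : h (τ.q 0).natAbs ≠ h (τ.q (Fin.last k)).natAbs) {s : ℤ}
    (hs : s = 1 ∨ s = -1) : ∃ j, h (vD (τ.n j)) = s := by
  by_contra hc
  push Not at hc
  have hall : ∀ j, h (vD (τ.n j)) = -s := by
    intro j
    have h1 := hh.val _ (vD_pos (τ.n j))
    have h2 := hc j
    rcases hs with rfl | rfl <;> rcases h1 with h1 | h1 <;> simp_all
  have h3 := hτ.identity hh hk
  rw [Finset.prod_congr rfl (fun j _ => hall j), Finset.prod_const, Finset.card_univ,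
    Fintype.card_fin] at h3
  have h4 : (-s) ^ k = 1 := by
    rcases hs with rfl | rfl
    · exact hk2.neg_one_pow
    · simp
  rw [h4] at h3
  obtain ⟨k0, rfl⟩ : ∃ i, k = i + 1 := ⟨k - 1, by omega⟩
  have p1 := (hτ.q_pos 0).1
  have p2 := (hτ.q_pos (Fin.last k0)).2
  have e1 : (0 : Fin (k0 + 1)).castSucc = 0 := rfl
  have e2 : (Fin.last k0).succ = Fin.last (k0 + 1) := rfl
  rw [e1] at p1
  rw [e2] at p2
  apply hne
  rcases hh.val _ p1 with a1 | a1 <;> rcases hh.val _ p2 with a2 | a2 <;>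
    rw [a1, a2] at h3 ⊢ <;> norm_num at h3

/-- the dual step for a covering family -/
theorem fam_dual {h : ℕ → ℤ} (hh : CM h) {k X : ℕ} (hX : 0 < X) (hk : 0 < k) (hk2 : Even k)
    {O : Finset (ℤ × ℤ × ℤ)} {δ C K η : ℝ} {s : Finset (Pth k)} {w : Pth k → ℝ}
    (F : Fam k X O δ C K η s w) (hδ : 0 < δ) (hK : 0 < K) (hη : 0 < η) {σ : ℤ}
    (hσ : σ = 1 ∨ σ = -1) {N : ℕ} (hN : C * X ≤ N)
    (hE : (((Icc 1 N).filter (fun M : ℕ => a0 ∣ (M : ℤ) - b0 ∧ h (vD M) = σ)).card : ℝ) <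
      X * ((k : ℝ) ^ (1 + η) * (K * (2 / δ) ^ (1 + η))) ^ (-(1 / η))) :
    ((O.filter (fun q => h q.1.natAbs ≠ h (NC.fv q z).natAbs)).card : ℝ) ≤ 2 * δ * X := by
  classical
  by_contra hc
  rw [not_le] at hc
  set E := (Icc 1 N).filter (fun M : ℕ => a0 ∣ (M : ℤ) - b0 ∧ h (vD M) = σ) with hEd
  set B := O.filter (fun q => h q.1.natAbs ≠ h (NC.fv q z).natAbs) with hB
  set L := O.filter (fun y => wb s w frm y < 1 / 2) with hL
  have hX0 : (0 : ℝ) < X := by exact_mod_cast hX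
  have hBL : δ * X ≤ ((B \ L).card : ℝ) := by
    have h1 : B.card ≤ (B \ L).card + L.card := by
      have := Finset.card_le_card (show B ⊆ (B \ L) ∪ L by
        intro y hy; by_cases h : y ∈ L <;> simp [hy, h])
      exact this.trans (Finset.card_union_le _ _)
    have h2 : (B.card : ℝ) ≤ (B \ L).card + L.card := by exact_mod_cast h1
    have h3 := F.near
    linarith
  set s' := s.filter (fun τ => frm τ ∈ B \ L) with hs'
  have hS : δ * X / 2 ≤ ∑ τ ∈ s', w τ := by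
    have h1 : ∑ τ ∈ s', w τ = ∑ y ∈ B \ L, wb s w frm y := by
      rw [← Finset.sum_fiberwise_of_maps_to (s := s') (t := B \ L) (g := frm)
        (fun τ hτ => (Finset.mem_filter.1 hτ).2)]
      apply Finset.sum_congr rfl
      intro y hy
      unfold wb
      apply Finset.sum_congr _ (fun _ _ => rfl)
      ext τ
      simp only [hs', Finset.mem_filter]
      constructor
      · rintro ⟨⟨a1, _⟩, a2⟩
        exact ⟨a1, a2⟩
      · rintro ⟨a1, a2⟩
        exact ⟨⟨a1, by rw [a2]; exact hy⟩, a2⟩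
    rw [h1]
    calc δ * X / 2 ≤ ((B \ L).card : ℝ) * (1 / 2) := by linarith
      _ = ∑ y ∈ B \ L, (1 / 2 : ℝ) := by rw [Finset.sum_const, nsmul_eq_mul]
      _ ≤ _ := by
        apply Finset.sum_le_sum
        intro y hy
        rw [Finset.mem_sdiff] at hy
        by_contra h2
        exact hy.2 (Finset.mem_filter.2 ⟨(Finset.mem_filter.1 hy.1).1, not_le.1 h2⟩)
  have hSpos : 0 < ∑ τ ∈ s', w τ := lt_of_lt_of_le (by positivity) hS
  have hd : (0 : ℝ) < 2 / δ := by positivity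
  have hK' : 0 < K * (2 / δ) ^ (1 + η) := mul_pos hK (Real.rpow_pos_of_pos hd _)
  have key := dual_step s' w F.w0 hk (fun j τ => τ.n j) E (x := X) (η := η)
    (K := K * (2 / δ) ^ (1 + η)) ?_ hX0 hη hK' hSpos ?_
  · linarith
  · intro τ hτ _
    rw [hs', Finset.mem_filter] at hτ
    have hg := F.good τ hτ.1
    have hbad : h (τ.q 0).natAbs ≠ h (τ.q (Fin.last k)).natAbs := by
      have h1 := (Finset.mem_filter.1 (Finset.mem_sdiff.1 hτ.2).1).2
      have e0 : τ.q 0 = (frm τ).1 := by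
        unfold Pth.q qf frm
        rw [F.first τ hτ.1]
        simp
      have e1 : τ.q (Fin.last k) = NC.fv (frm τ) z := by
        unfold Pth.q NC.fv frm
        rw [F.last τ hτ.1]
      rw [e0, e1]
      exact h1
    obtain ⟨j, hj⟩ := hg.exists_sign hh hk hk2 hbad hσ
    refine ⟨j, ?_⟩
    rw [hEd, Finset.mem_filter, Finset.mem_Icc]
    obtain ⟨n1, n2⟩ := F.n1 τ hτ.1 j
    exact ⟨⟨n1, by exact_mod_cast n2.trans hN⟩, F.cls τ hτ.1 j, hj⟩
  · intro j
    have h1 : ∑ n ∈ E, mar s' w (fun τ => τ.n j) n ^ (1 + η) ≤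
        ∑ n ∈ E, mar s w (fun τ => τ.n j) n ^ (1 + η) := by
      apply Finset.sum_le_sum
      intro n _
      apply Real.rpow_le_rpow (mar_nonneg s' F.w0 _ n) _ (by linarith)
      unfold mar
      apply Finset.sum_le_sum_of_subset_of_nonneg
      · exact Finset.filter_subset_filter _ (Finset.filter_subset _ _)
      · intro τ _ _
        exact F.w0 τ
    refine (h1.trans (F.marg j E)).trans ?_
    have h2 : (X : ℝ) ≤ (2 / δ) ^ (1 + η) * (∑ τ ∈ s', w τ) ^ (1 + η) * (X : ℝ) ^ (-η) := by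
      rw [← Real.mul_rpow hd.le hSpos.le]
      have h3 : (X : ℝ) ≤ 2 / δ * ∑ τ ∈ s', w τ := by
        calc (X : ℝ) = 2 / δ * (δ * X / 2) := by field_simp
          _ ≤ _ := mul_le_mul_of_nonneg_left hS hd.le
      have h4 : (X : ℝ) ^ (1 + η) ≤ (2 / δ * ∑ τ ∈ s', w τ) ^ (1 + η) :=
        Real.rpow_le_rpow hX0.le h3 (by linarith)
      calc (X : ℝ) = (X : ℝ) ^ (1 + η) * (X : ℝ) ^ (-η) := by
            rw [← Real.rpow_add hX0]; simp
        _ ≤ _ := mul_le_mul_of_nonneg_right h4 (Real.rpow_nonneg hX0.le _)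
    calc K * (X : ℝ) ≤ K * ((2 / δ) ^ (1 + η) * (∑ τ ∈ s', w τ) ^ (1 + η) * (X : ℝ) ^ (-η)) :=
          mul_le_mul_of_nonneg_left h2 hK.le
      _ = _ := by ring

/-- the rigidity of a box from the covering families -/
theorem ptb_of_famB {i : ℕ} {j l : ℤ} {δ : ℝ} (hδ : 0 < δ) (hF : FamB i j l (δ / 2)) :
    PTB i j l δ := by
  obtain ⟨k, C, K, η, hk, hk2, hK, hη, n₀, hF⟩ := hF
  refine ⟨((k : ℝ) ^ (1 + η) * (K * (2 / (δ / 2)) ^ (1 + η))) ^ (-(1 / η)), ⌈C⌉₊,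
    max n₀ 1, ?_, ?_⟩
  · have h1 : 0 < (k : ℝ) ^ (1 + η) := Real.rpow_pos_of_pos (by exact_mod_cast hk) _
    have h2 : 0 < (2 / (δ / 2)) ^ (1 + η) := Real.rpow_pos_of_pos (by positivity) _
    exact Real.rpow_pos_of_pos (mul_pos h1 (mul_pos hK h2)) _
  · intro h hh n hn σ hσ hE
    obtain ⟨s, w, F⟩ := hF n ((le_max_left _ _).trans hn)
    have hn1 : 0 < n := by
      have := (le_max_right n₀ 1).trans hn
      omega
    have hX1 : 0 < n ^ 2 := by positivity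
    have hN : C * ((n ^ 2 : ℕ) : ℝ) ≤ ((⌈C⌉₊ * n ^ 2 : ℕ) : ℝ) := by
      push_cast
      exact mul_le_mul_of_nonneg_right (Nat.le_ceil C) (by positivity)
    have hE' : (((Icc 1 (⌈C⌉₊ * n ^ 2)).filter
        (fun M : ℕ => a0 ∣ (M : ℤ) - b0 ∧ h (vD M) = σ)).card : ℝ) <
      ((n ^ 2 : ℕ) : ℝ) * ((k : ℝ) ^ (1 + η) * (K * (2 / (δ / 2)) ^ (1 + η))) ^ (-(1 / η)) := by
      push_cast
      rw [mul_comm ((n : ℝ) ^ 2)]
      exact hE
    have := fam_dual hh hX1 hk hk2 F (by positivity) hK hη hσ hN hE'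
    calc _ ≤ 2 * (δ / 2) * ((n ^ 2 : ℕ) : ℝ) := this
      _ = δ * (n : ℝ) ^ 2 := by push_cast; ring

end Pool.Agent.AQ
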