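import Pool.Agent.Lib_helper8.AQ.Frame

/-!
# AQ: the reduction of the theorem for `f` to the normal form (helper8)
-/

set_option autoImplicit false

namespace Pool.Agent.AQ

open Finset Pool.Agent.PENT

/-- the value `h(a0)` (i.e. `h(g(t)) = 1`) is rare along a sequence of scales -/
def Rare [Cst] (h : ℕ → ℤ) : Prop := ∀ (c : ℝ) (N : ℕ) (Y₀ : ℝ), 0 < c → ∃ Y : ℝ, Y₀ ≤ Y ∧
  (((Icc 1 ⌊(N : ℝ) * Y⌋₊).filter
    (fun M : ℕ => a0 ∣ (M : ℤ) - b0 ∧ h (vD M) = h a0.natAbs)).card : ℝ) < c * Y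

/-- the data of a polynomial with a standard end vector -/
@[reducible] noncomputable def cst0 (R : ℕ) (m d : ℤ) (hR : 0 < R) (hd : 24 * d * (m ^ 2 + d) ∣ (R : ℤ))
    (hmd : 0 < m ^ 2 + d) (hns : ¬ IsSquare (-d)) : Cst where
  R := R
  m := m
  d := d
  z := ((R : ℤ) + 1, 1)
  ρ₁ := 1 / 2
  ρ₂ := 1
  R_pos := hR
  R_dvd := hd
  md_pos := hmd
  d_ns := hns
  ρ_pos := by norm_num
  ρ_lt := by norm_num
  z_cop := isCoprime_one_right
  z_two := one_pos
  z_unit := ⟨1, -1, by ring⟩
  z_chi := by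
    have h24 : (24 : ℤ) ∣ (R : ℤ) := by
      refine Dvd.dvd.trans ?_ hd
      exact ⟨d * (m ^ 2 + d), by ring⟩
    have h24' : 24 ∣ R := by exact_mod_cast h24
    have e : (((R : ℤ) + 1, (1 : ℤ)).1).natAbs = R + 1 := by
      show ((R : ℤ) + 1).natAbs = R + 1
      have : ((R : ℤ) + 1) = ((R + 1 : ℕ) : ℤ) := by push_cast; ring
      rw [this, Int.natAbs_natCast]
    rw [e]
    have hodd : Odd (R + 1) := by
      obtain ⟨k, hk⟩ := h24'
      exact ⟨12 * k, by omega⟩
    have h4 : 4 * (-d).natAbs ∣ R := by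
      have h1 : (4 * (-d).natAbs : ℤ) ∣ (R : ℤ) := by
        refine Dvd.dvd.trans ?_ hd
        have h2 : ((-d).natAbs : ℤ) ∣ d := by
          rw [Int.natAbs_neg, Int.natAbs_dvd]
        obtain ⟨e, he⟩ := h2
        refine ⟨6 * e * (m ^ 2 + d), ?_⟩
        calc 24 * d * (m ^ 2 + d) = 24 * ((((-d).natAbs : ℤ)) * e) * (m ^ 2 + d) := by rw [← he]
          _ = _ := by ring
      exact_mod_cast h1
    rw [jacobiSym.mod_right _ hodd]
    have h5 : (R + 1) % (4 * (-d).natAbs) = 1 % (4 * (-d).natAbs) := by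
      obtain ⟨k, hk⟩ := h4
      rw [hk, Nat.mul_add_mod]
    rw [h5, ← jacobiSym.mod_right _ odd_one, jacobiSym.one_right]
  z_cone := by
    have h1 : (0 : ℝ) < (R : ℝ) := by exact_mod_cast hR
    push_cast
    linarith

/-- the polynomial -/
def fq (A B C n : ℤ) : ℤ := A * n ^ 2 + B * n + C

/-- the theorem for one polynomial: the value `h(|f(n0)|)` has positive lower density -/
def PosD (A B C n0 : ℤ) (h : ℕ → ℤ) : Prop := ∃ (c x₀ : ℝ), 0 < c ∧ ∀ x : ℝ, x₀ ≤ x →
  c * x ≤ (((Icc 1 ⌊x⌋₊).filter (fun n : ℕ => h (fq A B C n).natAbs = h (fq A B C n0).natAbs)).card : ℝ)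

theorem posD_of_not_rare_aux (hNR : ∀ (c : Cst) (h : ℕ → ℤ), CM h → ¬ @Rare c h) {A B C n0 : ℤ}
    (hA : 0 < A) (hns : ¬ IsSquare (B ^ 2 - 4 * A * C)) (h0 : 0 < fq A B C n0) {h : ℕ → ℤ}
    (hh : CM h) : PosD A B C n0 h := by
  classical
  by_contra hcon
  set F : ℤ := fq A B C n0 with hF
  set m : ℤ := 2 * A * n0 + B with hm
  set d : ℤ := 4 * A * C - B ^ 2 with hd
  have hmd : m ^ 2 + d = 4 * A * F := by
    rw [hm, hd, hF]; unfold fq; ring
  have hmd0 : 0 < m ^ 2 + d := by rw [hmd]; positivity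
  have hdns : ¬ IsSquare (-d) := by
    rw [hd]
    have : -(4 * A * C - B ^ 2) = B ^ 2 - 4 * A * C := by ring
    rw [this]; exact hns
  have hdne : d ≠ 0 := by
    intro h
    exact hdns ⟨0, by rw [h]; ring⟩
  set R : ℕ := (24 * d * (m ^ 2 + d)).natAbs with hR
  have hRpos : 0 < R := by
    rw [hR, Int.natAbs_pos]
    exact mul_ne_zero (mul_ne_zero (by norm_num) hdne) hmd0.ne'
  have hRd : 24 * d * (m ^ 2 + d) ∣ (R : ℤ) := by
    rw [hR]; exact Int.dvd_natAbs.2 (dvd_refl _)
  letI : Cst := cst0 R m d hRpos hRd hmd0 hdns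
  have eR : (Pool.Agent.AQ.R : ℕ) = R := rfl
  have eb0 : b0 = (R : ℤ) * m := rfl
  have eD : D = (R : ℤ) ^ 2 * d := rfl
  have ea0 : a0 = 4 * A * F * (R : ℤ) ^ 2 := by
    have : a0 = ((R : ℤ) * m) ^ 2 + (R : ℤ) ^ 2 * d := rfl
    rw [this]
    linear_combination ((R : ℤ) ^ 2) * hmd
  apply hNR this h hh
  intro c N Y₀ hc
  -- the progression `n = n0 + 2 F R t`
  set L : ℤ := 2 * F * (R : ℤ) with hL
  have hRZ : (0 : ℤ) < (R : ℤ) := by exact_mod_cast hRpos
  have hL0 : 0 < L := by rw [hL]; positivity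
  have key : ∀ t : ℤ, a0 * fq A B C (n0 + L * t) = F * ((a0 * t + b0) ^ 2 + D) := by
    intro t
    have e1 : fq A B C (n0 + L * t) = F * (1 + 2 * b0 * t + a0 * t ^ 2) := by
      have e2 : fq A B C (n0 + L * t) = fq A B C n0 + m * (L * t) + A * (L * t) ^ 2 := by
        unfold fq; rw [hm]; ring
      rw [e2, ← hF, eb0, ea0, hL]; ring
    have e3 : a0 * (1 + 2 * b0 * t + a0 * t ^ 2) = (a0 * t + b0) ^ 2 + D := by
      have : a0 = b0 ^ 2 + D := rfl
      linear_combination this
    rw [e1, ← e3]; ring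
  rcases Nat.eq_zero_or_pos N with hN | hN
  · refine ⟨max Y₀ 1, le_max_left _ _, ?_⟩
    rw [hN]
    have h1 : (0 : ℝ) < max Y₀ 1 := lt_of_lt_of_le one_pos (le_max_right _ _)
    simp only [Nat.cast_zero, zero_mul, Nat.floor_zero]
    have e : Icc 1 0 = (∅ : Finset ℕ) := by simp
    rw [e]
    simp only [filter_empty, card_empty, Nat.cast_zero]
    positivity
  have ha0 : (0 : ℤ) < a0 := a0_pos
  have ha0R : (0 : ℝ) < (a0 : ℝ) := by exact_mod_cast ha0
  have hLR : (0 : ℝ) < (L : ℝ) := by exact_mod_cast hL0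
  have hNR' : (0 : ℝ) < (N : ℝ) := by exact_mod_cast hN
  set c' : ℝ := c * (a0 / (4 * L * N)) with hc'
  have hc'0 : 0 < c' := by positivity
  -- few `M` with `n ≤ 0`
  set K₁ : ℝ := |(n0 : ℝ)| * a0 / L + |(b0 : ℝ)| with hK1
  have hK10 : 0 ≤ K₁ := by positivity
  unfold PosD at hcon
  push Not at hcon
  set x₀ : ℝ := max (max ((K₁ + 1) / c') (2 * |(n0 : ℝ)| + 4 * |(b0 : ℝ)| * L / a0))
    (|(Y₀ : ℝ)| * (4 * L * N) / a0) with hx0
  obtain ⟨x, hx, hlt⟩ := hcon c' x₀ hc'0
  have hx1 : (K₁ + 1) / c' ≤ x := (le_max_left _ _).trans ((le_max_left _ _).trans hx)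
  have hx2 : 2 * |(n0 : ℝ)| + 4 * |(b0 : ℝ)| * L / a0 ≤ x :=
    (le_max_right _ _).trans ((le_max_left _ _).trans hx)
  have hx3 : |(Y₀ : ℝ)| * (4 * L * N) / a0 ≤ x := (le_max_right _ _).trans hx
  have hxpos : 0 < x := lt_of_lt_of_le (by positivity) hx1
  set Y : ℝ := (a0 * (x - n0) / L + b0) / N with hY
  have hNY : (N : ℝ) * Y = a0 * (x - n0) / L + b0 := by
    rw [hY]; field_simp
  -- `Y ≥ a0 x / (4 L N)`
  have hYx : a0 / (4 * L * N) * x ≤ Y - a0 / (4 * L * N) * x := by
    have h1 : a0 / (2 * L) * x ≤ a0 * (x - n0) / L + b0 := by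
      have h2 := le_abs_self (n0 : ℝ)
      have h3 := neg_abs_le (b0 : ℝ)
      have h4 : (a0 : ℝ) / (2 * L) * x = a0 * x / (2 * L) := by ring
      rw [h4, div_add' _ _ _ hLR.ne', div_le_div_iff₀ (by positivity) hLR]
      have h5 : 4 * |(b0 : ℝ)| * L / a0 * a0 = 4 * |(b0 : ℝ)| * L := by field_simp
      have h6 : (2 * |(n0 : ℝ)| + 4 * |(b0 : ℝ)| * L / a0) * a0 ≤ x * a0 :=
        mul_le_mul_of_nonneg_right hx2 ha0R.le
      have h7 : (2 * |(n0 : ℝ)| + 4 * |(b0 : ℝ)| * L / a0) * a0 =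
          2 * |(n0 : ℝ)| * a0 + 4 * |(b0 : ℝ)| * L := by rw [add_mul, h5]
      rw [h7] at h6
      have h8 : (n0 : ℝ) * a0 ≤ |(n0 : ℝ)| * a0 := mul_le_mul_of_nonneg_right h2 ha0R.le
      have h9 : -(|(b0 : ℝ)| * L) ≤ b0 * L := by
        have := mul_le_mul_of_nonneg_right h3 hLR.le
        linarith
      have h10 : (a0 : ℝ) * x ≤ 2 * (a0 * (x - n0) + b0 * L) := by
        have h11 : 0 ≤ |(b0 : ℝ)| * L := by positivity
        linarith
      nlinarith
    have h2 : a0 / (2 * L * N) * x ≤ Y := by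
      rw [hY, le_div_iff₀ hNR']
      calc (a0 : ℝ) / (2 * L * N) * x * N = a0 / (2 * L) * x := by field_simp
        _ ≤ _ := h1
    have h3 : (a0 : ℝ) / (2 * L * N) = a0 / (4 * L * N) + a0 / (4 * L * N) := by
      field_simp; ring
    rw [h3, add_mul] at h2
    linarith
  refine ⟨Y, ?_, ?_⟩
  · have h1 : |(Y₀ : ℝ)| ≤ a0 / (4 * L * N) * x := by
      rw [div_le_iff₀ ha0R] at hx3
      rw [div_mul_eq_mul_div, le_div_iff₀ (by positivity)]
      linarith
    have h2 : 0 ≤ a0 / (4 * L * N) * x := by positivity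
    have := le_abs_self Y₀
    linarith
  · -- the count
    set S := (Icc 1 ⌊(N : ℝ) * Y⌋₊).filter
      (fun M : ℕ => a0 ∣ (M : ℤ) - b0 ∧ h (vD M) = h a0.natAbs) with hS
    set T := (Icc 1 ⌊x⌋₊).filter
      (fun n : ℕ => h (fq A B C n).natAbs = h (fq A B C n0).natAbs) with hT
    set nn : ℕ → ℤ := fun M => n0 + L * (((M : ℤ) - b0) / a0) with hnn
    have hM : ∀ M ∈ S, a0 * (((M : ℤ) - b0) / a0) + b0 = M := by
      intro M hM
      rw [hS, mem_filter] at hM
      rw [Int.mul_ediv_cancel' hM.2.1]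
      ring
    have hMR : ∀ M ∈ S, (a0 : ℝ) * (((((M : ℤ) - b0) / a0) : ℤ) : ℝ) + b0 = M := by
      intro M hM'
      exact_mod_cast hM M hM'
    -- split `S`
    have hsplit : S ⊆ S.filter (fun M => 0 < nn M) ∪ Icc 1 ⌊K₁⌋₊ := by
      intro M hMS
      rw [mem_union]
      by_cases hp : 0 < nn M
      · exact Or.inl (mem_filter.2 ⟨hMS, hp⟩)
      · right
        have h1 := hMR M hMS
        have h0' := hMS
        rw [hS, mem_filter, mem_Icc] at h0'
        rw [mem_Icc]
        refine ⟨h0'.1.1, Nat.le_floor ?_⟩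
        have h2 : (n0 : ℝ) + L * (((((M : ℤ) - b0) / a0) : ℤ) : ℝ) ≤ 0 := by
          have : n0 + L * (((M : ℤ) - b0) / a0) ≤ 0 := not_lt.1 hp
          exact_mod_cast this
        have h3 : (((((M : ℤ) - b0) / a0) : ℤ) : ℝ) ≤ |(n0 : ℝ)| / L := by
          rw [le_div_iff₀ hLR]
          have := neg_abs_le (n0 : ℝ)
          linarith
        have h4 : (a0 : ℝ) * (((((M : ℤ) - b0) / a0) : ℤ) : ℝ) ≤ a0 * (|(n0 : ℝ)| / L) :=
          mul_le_mul_of_nonneg_left h3 ha0R.le
        have h5 := le_abs_self (b0 : ℝ)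
        rw [hK1]
        calc (M : ℝ) = (a0 : ℝ) * (((((M : ℤ) - b0) / a0) : ℤ) : ℝ) + b0 := h1.symm
          _ ≤ a0 * (|(n0 : ℝ)| / L) + |(b0 : ℝ)| := add_le_add h4 h5
          _ = _ := by ring
    have hinj : ((S.filter (fun M => 0 < nn M)).card : ℝ) ≤ (T.card : ℝ) := by
      have h1 : (S.filter (fun M => 0 < nn M)).card ≤ T.card := by
        apply Finset.card_le_card_of_injOn (fun M => (nn M).toNat)
        · intro M hMS
          rw [mem_coe, mem_filter] at hMS
          obtain ⟨hMS, hp⟩ := hMS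
          have e1 := hM M hMS
          have e1R := hMR M hMS
          have h0' := hMS
          rw [hS, mem_filter, mem_Icc] at h0'
          obtain ⟨⟨m1, m2⟩, m3, m4⟩ := h0'
          have e2 : (((nn M).toNat : ℕ) : ℤ) = nn M := Int.toNat_of_nonneg hp.le
          show (nn M).toNat ∈ T
          rw [hT, mem_filter, mem_Icc]
          refine ⟨⟨by omega, Nat.le_floor ?_⟩, ?_⟩
          · have e3 : (((nn M).toNat : ℕ) : ℝ) = (nn M : ℝ) := by exact_mod_cast e2
            rw [e3, hnn]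
            push_cast
            have h2 : (M : ℝ) ≤ a0 * (x - n0) / L + b0 := by
              rw [← hNY]
              exact (Nat.le_floor_iff (by
                rw [hNY]
                have : (0 : ℝ) < a0 / (2 * L) * x := by positivity
                by_contra hneg
                have h3 : ⌊(N : ℝ) * Y⌋₊ = 0 := by
                  rw [hNY]
                  exact Nat.floor_of_nonpos (not_le.1 hneg).le
                omega)).1 m2
            have h3 : (a0 : ℝ) * (((((M : ℤ) - b0) / a0) : ℤ) : ℝ) ≤ a0 * ((x - n0) / L) := by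
              have : (a0 : ℝ) * ((x - n0) / L) = a0 * (x - n0) / L := by ring
              rw [this]
              linarith
            have h4 : (((((M : ℤ) - b0) / a0) : ℤ) : ℝ) ≤ (x - n0) / L :=
              le_of_mul_le_mul_left h3 ha0R
            rw [le_div_iff₀ hLR] at h4
            linarith
          · rw [e2]
            have h2 := key (((M : ℤ) - b0) / a0)
            rw [e1] at h2
            have h3 := congrArg Int.natAbs h2
            rw [Int.natAbs_mul, Int.natAbs_mul] at h3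
            have hv : 0 < ((M : ℤ) ^ 2 + D).natAbs := by
              rw [Int.natAbs_pos]
              intro h4
              exact D_ns ⟨M, by linear_combination -h4⟩
            have ha : 0 < a0.natAbs := Int.natAbs_pos.2 ha0.ne'
            have hFp : 0 < F.natAbs := Int.natAbs_pos.2 h0.ne'
            have hf : 0 < (fq A B C (nn M)).natAbs := by
              have h4 : 0 < a0.natAbs * (fq A B C (nn M)).natAbs := by
                rw [show nn M = n0 + L * (((M : ℤ) - b0) / a0) from rfl, h3]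
                positivity
              exact Nat.pos_of_mul_pos_left h4
            have h5 := congrArg h h3
            rw [hh.mul _ _ ha hf, hh.mul _ _ hFp hv] at h5
            have h6 : h ((M : ℤ) ^ 2 + D).natAbs = h a0.natAbs := m4
            rw [h6] at h5
            have h7 : h a0.natAbs ≠ 0 := by
              rcases hh.val _ ha with h8 | h8 <;> rw [h8] <;> norm_num
            apply mul_left_cancel₀ h7
            rw [show fq A B C (nn M) = fq A B C (n0 + L * (((M : ℤ) - b0) / a0)) from rfl, h5,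
              mul_comm]
        · intro M hMS M' hMS' he
          rw [mem_coe, mem_filter] at hMS hMS'
          have e2 : (((nn M).toNat : ℕ) : ℤ) = nn M := Int.toNat_of_nonneg hMS.2.le
          have e2' : (((nn M').toNat : ℕ) : ℤ) = nn M' := Int.toNat_of_nonneg hMS'.2.le
          have he' : (nn M).toNat = (nn M').toNat := he
          have h2 : nn M = nn M' := by rw [← e2, ← e2', he']
          have h3 : L * (((M : ℤ) - b0) / a0) = L * (((M' : ℤ) - b0) / a0) := by
            have : n0 + L * (((M : ℤ) - b0) / a0) = n0 + L * (((M' : ℤ) - b0) / a0) := h2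
            linarith
          have h4 := mul_left_cancel₀ hL0.ne' h3
          have h5 := hM M hMS.1
          have h6 := hM M' hMS'.1
          rw [h4, h6] at h5
          exact_mod_cast h5.symm
      exact_mod_cast h1
    have hcard : (S.card : ℝ) ≤ (T.card : ℝ) + K₁ := by
      have h1 : (S.card : ℝ) ≤ ((S.filter (fun M => 0 < nn M)).card : ℝ) +
          ((Icc 1 ⌊K₁⌋₊).card : ℝ) := by
        exact_mod_cast (card_le_card hsplit).trans (card_union_le _ _)
      have h2 : ((Icc 1 ⌊K₁⌋₊).card : ℝ) ≤ K₁ := by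
        rw [Nat.card_Icc, Nat.add_sub_cancel]
        exact Nat.floor_le hK10
      linarith
    have h2 : K₁ < c' * x := by
      rw [div_le_iff₀ hc'0] at hx1
      linarith
    have h3 : c' * x + c' * x ≤ c * Y := by
      have h4 : c * (a0 / (4 * L * N) * x) ≤ c * (Y - a0 / (4 * L * N) * x) :=
        mul_le_mul_of_nonneg_left hYx hc.le
      have h5 : c' * x = c * (a0 / (4 * L * N) * x) := by rw [hc']; ring
      rw [h5]
      linarith
    linarith

/-- **the reduction**: if no `h` has the rare value along a sequence of scales, then the theorem holds -/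
theorem posD_of_not_rare (hNR : ∀ (c : Cst) (h : ℕ → ℤ), CM h → ¬ @Rare c h) {A B C n0 : ℤ}
    (hA : A ≠ 0) (hns : ¬ IsSquare (B ^ 2 - 4 * A * C)) (h0 : 0 < A * fq A B C n0) {h : ℕ → ℤ}
    (hh : CM h) : PosD A B C n0 h := by
  rcases lt_or_gt_of_ne hA with hA' | hA'
  · have h1 : PosD (-A) (-B) (-C) n0 h := by
      apply posD_of_not_rare_aux hNR (by omega) _ _ hh
      · have : (-B) ^ 2 - 4 * -A * -C = B ^ 2 - 4 * A * C := by ring
        rw [this]; exact hns
      · have e : fq (-A) (-B) (-C) n0 = -fq A B C n0 := by unfold fq; ring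
        rw [e]
        have : fq A B C n0 < 0 := by
          by_contra hc
          have : A * fq A B C n0 ≤ 0 := mul_nonpos_of_nonpos_of_nonneg hA'.le (not_lt.1 hc)
          linarith
        linarith
    obtain ⟨c, x₀, hc, h2⟩ := h1
    refine ⟨c, x₀, hc, fun x hx => ?_⟩
    have h3 := h2 x hx
    have e : ∀ n : ℤ, (fq (-A) (-B) (-C) n).natAbs = (fq A B C n).natAbs := by
      intro n
      have : fq (-A) (-B) (-C) n = -fq A B C n := by unfold fq; ring
      rw [this, Int.natAbs_neg]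
    simp only [e] at h3
    exact h3
  · exact posD_of_not_rare_aux hNR hA' hns (pos_of_mul_pos_right h0 hA'.le) hh

end Pool.Agent.AQ
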